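import Pool.Agent.SAWP.Meas

/-!
# SAWP: FKG inequality (module P1)

Harris/FKG inequality for increasing events depending on finitely many edges.
Proof: `PR_finite` (common finite edge set `D`, use `Dep.mono`) and Mathlib's
`Finset.four_functions_theorem` on the subsets of `D`, with `μ T = q^|T| (1-q)^(|D|-|T|)`.
-/

set_option autoImplicit false

open MeasureTheory

namespace Pool.Agent.SAWP

namespace Fkg

lemma cfgOf_mono {A : Set Cfg} (hA : Incr A) {s t : Finset Edge} (hst : s ⊆ t)
    (h : cfgOf s ∈ A) : cfgOf t ∈ A := by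
  classical
  refine hA _ _ (fun e he => ?_) h
  simp only [cfgOf, decide_eq_true_eq] at he ⊢
  exact hst he

/-- the weight of a subset -/
noncomputable def mu (q : ℝ) (D T : Finset Edge) : ℝ := q ^ T.card * (1 - q) ^ (D.card - T.card)

open Classical in
/-- the indicator of an event -/
noncomputable def ind (C : Set Cfg) (T : Finset Edge) : ℝ := if cfgOf T ∈ C then 1 else 0

lemma mu_nonneg {q : ℝ} (h0 : 0 ≤ q) (h1 : q ≤ 1) (D T : Finset Edge) : 0 ≤ mu q D T :=
  mul_nonneg (pow_nonneg h0 _) (pow_nonneg (by linarith) _)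

lemma mu_mul (q : ℝ) {D s t : Finset Edge} [DecidableEq Edge] (hs : s ⊆ D) (ht : t ⊆ D) :
    mu q D s * mu q D t = mu q D (s ∩ t) * mu q D (s ∪ t) := by
  have h1 := Finset.card_inter_add_card_union s t
  have h2 := Finset.card_le_card hs
  have h3 := Finset.card_le_card ht
  have h4 := Finset.card_le_card (Finset.union_subset hs ht)
  have h5 := Finset.card_le_card (Finset.inter_subset_left.trans hs : s ∩ t ⊆ D)
  unfold mu
  have e1 : q ^ s.card * (1 - q) ^ (D.card - s.card) * (q ^ t.card * (1 - q) ^ (D.card - t.card)) =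
      q ^ (s.card + t.card) * (1 - q) ^ ((D.card - s.card) + (D.card - t.card)) := by
    rw [pow_add, pow_add]; ring
  have e2 : q ^ (s ∩ t).card * (1 - q) ^ (D.card - (s ∩ t).card) *
      (q ^ (s ∪ t).card * (1 - q) ^ (D.card - (s ∪ t).card)) =
      q ^ ((s ∩ t).card + (s ∪ t).card) *
        (1 - q) ^ ((D.card - (s ∩ t).card) + (D.card - (s ∪ t).card)) := by
    rw [pow_add, pow_add]; ring
  rw [e1, e2, h1]
  congr 2
  omega

lemma Incr.inter {A B : Set Cfg} (hA : Incr A) (hB : Incr B) : Incr (A ∩ B) :=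
  fun ω ω' h hω => ⟨hA ω ω' h hω.1, hB ω ω' h hω.2⟩

lemma Incr.union {A B : Set Cfg} (hA : Incr A) (hB : Incr B) : Incr (A ∪ B) := by
  rintro ω ω' h (hω | hω)
  · exact Or.inl (hA ω ω' h hω)
  · exact Or.inr (hB ω ω' h hω)

lemma FD.inter {A B : Set Cfg} (hA : FD A) (hB : FD B) : FD (A ∩ B) := by
  classical
  obtain ⟨F, hF⟩ := hA
  obtain ⟨G, hG⟩ := hB
  exact ⟨F ∪ G, (hF.mono (by simp)).inter (hG.mono (by simp))⟩

lemma FD.union {A B : Set Cfg} (hA : FD A) (hB : FD B) : FD (A ∪ B) := by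
  classical
  obtain ⟨F, hF⟩ := hA
  obtain ⟨G, hG⟩ := hB
  exact ⟨F ∪ G, (hF.mono (by simp)).union (hG.mono (by simp))⟩

lemma biInter {ι : Type*} (s : Finset ι) (A : ι → Set Cfg)
    (hA : ∀ i ∈ s, Incr (A i)) (hF : ∀ i ∈ s, FD (A i)) :
    Incr (⋂ i ∈ s, A i) ∧ FD (⋂ i ∈ s, A i) := by
  classical
  induction s using Finset.induction_on with
  | empty =>
    refine ⟨fun ω ω' _ _ => by simp, ⟨∅, fun ω ω' _ => by simp⟩⟩
  | insert a s ha ih =>
    obtain ⟨h1, h2⟩ := ih (fun i hi => hA i (Finset.mem_insert_of_mem hi))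
      (fun i hi => hF i (Finset.mem_insert_of_mem hi))
    rw [Finset.set_biInter_insert]
    exact ⟨Incr.inter (hA a (Finset.mem_insert_self _ _)) h1,
      FD.inter (hF a (Finset.mem_insert_self _ _)) h2⟩

lemma biUnion {ι : Type*} (s : Finset ι) (A : ι → Set Cfg)
    (hA : ∀ i ∈ s, Incr (A i)) (hF : ∀ i ∈ s, FD (A i)) :
    Incr (⋃ i ∈ s, A i) ∧ FD (⋃ i ∈ s, A i) := by
  classical
  induction s using Finset.induction_on with
  | empty =>
    refine ⟨fun ω ω' _ h => by simp at h, ⟨∅, fun ω ω' _ => by simp⟩⟩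
  | insert a s ha ih =>
    obtain ⟨h1, h2⟩ := ih (fun i hi => hA i (Finset.mem_insert_of_mem hi))
      (fun i hi => hF i (Finset.mem_insert_of_mem hi))
    rw [Finset.set_biUnion_insert]
    exact ⟨Incr.union (hA a (Finset.mem_insert_self _ _)) h1,
      FD.union (hF a (Finset.mem_insert_self _ _)) h2⟩

end Fkg

open Fkg

/-- FKG for two increasing events. -/
theorem PR_fkg (p : unitInterval) {A B : Set Cfg} (hA : Incr A) (hB : Incr B) (hFA : FD A)
    (hFB : FD B) : PR p A * PR p B ≤ PR p (A ∩ B) := by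
  classical
  obtain ⟨F, hF⟩ := hFA
  obtain ⟨G, hG⟩ := hFB
  set D := F ∪ G with hD
  have hDA : Dep (↑D : Set Edge) A := hF.mono (by simp [hD])
  have hDB : Dep (↑D : Set Edge) B := hG.mono (by simp [hD])
  have hq0 := p.2.1
  have hq1 := p.2.2
  have hsum : ∀ C : Set Cfg, Dep (↑D : Set Edge) C →
      PR p C = ∑ T ∈ D.powerset, mu p.1 D T * ind C T := fun C hC =>
    PR_finite p hC
  have h1 : ∑ T ∈ D.powerset, mu p.1 D T = 1 := by
    have h2 := hsum Set.univ (fun ω ω' _ => by simp)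
    have h3 : PR p Set.univ = 1 := by unfold PR; simp
    rw [h3] at h2
    rw [h2]
    refine Finset.sum_congr rfl fun T _ => ?_
    simp [ind]
  rw [hsum A hDA, hsum B hDB, hsum (A ∩ B) (hDA.inter hDB)]
  have hnn : ∀ T : Finset Edge, 0 ≤ mu p.1 D T := fun T => mu_nonneg hq0 hq1 D T
  have hind : ∀ (C : Set Cfg) (T : Finset Edge),
      (0 : ℝ) ≤ mu p.1 D T * ind C T := by
    intro C T
    refine mul_nonneg (hnn T) ?_
    unfold ind
    split_ifs <;> norm_num
  have h2 := Finset.four_functions_theorem (β := ℝ) D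
    (f₁ := fun T => mu p.1 D T * ind A T)
    (f₂ := fun T => mu p.1 D T * ind B T)
    (f₃ := fun T => mu p.1 D T)
    (f₄ := fun T => mu p.1 D T * ind (A ∩ B) T)
    (fun T => hind A T) (fun T => hind B T) (fun T => hnn T) (fun T => hind (A ∩ B) T)
    (fun s hs t ht => ?_) (𝒜 := D.powerset) (ℬ := D.powerset) subset_rfl subset_rfl
  · rw [Finset.powerset_sups_powerset_self, Finset.powerset_infs_powerset_self, h1, one_mul] at h2
    exact h2
  · have h3 := mu_mul p.1 hs ht
    by_cases hsA : cfgOf s ∈ A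
    · by_cases htB : cfgOf t ∈ B
      · have h4 : cfgOf (s ∪ t) ∈ A ∩ B :=
          ⟨cfgOf_mono hA Finset.subset_union_left hsA, cfgOf_mono hB Finset.subset_union_right htB⟩
        simp only [ind, if_pos hsA, if_pos htB, if_pos h4, mul_one]
        exact h3.le
      · have h5 : ind B t = 0 := if_neg htB
        simp only [h5, mul_zero]
        exact mul_nonneg (hnn _) (hind _ _)
    · have h5 : ind A s = 0 := if_neg hsA
      simp only [h5, mul_zero, zero_mul]
      exact mul_nonneg (hnn _) (hind _ _)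

/-- FKG for finitely many increasing events. -/
theorem PR_fkg_iInter (p : unitInterval) {ι : Type*} (s : Finset ι) (A : ι → Set Cfg)
    (hA : ∀ i ∈ s, Incr (A i)) (hF : ∀ i ∈ s, FD (A i)) :
    ∏ i ∈ s, PR p (A i) ≤ PR p (⋂ i ∈ s, A i) := by
  classical
  induction s using Finset.induction_on with
  | empty => simp [PR]
  | insert a s ha ih =>
    have hA' : ∀ i ∈ s, Incr (A i) := fun i hi => hA i (Finset.mem_insert_of_mem hi)
    have hF' : ∀ i ∈ s, FD (A i) := fun i hi => hF i (Finset.mem_insert_of_mem hi)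
    obtain ⟨h1, h2⟩ := biInter s A hA' hF'
    rw [Finset.set_biInter_insert, Finset.prod_insert ha]
    exact (mul_le_mul_of_nonneg_left (ih hA' hF') (PR_nonneg p _)).trans
      (PR_fkg p (hA a (Finset.mem_insert_self _ _)) h1 (hF a (Finset.mem_insert_self _ _)) h2)

/-- FKG for the complements of finitely many increasing events. -/
theorem PR_fkg_compl (p : unitInterval) {ι : Type*} (s : Finset ι) (A : ι → Set Cfg)
    (hA : ∀ i ∈ s, Incr (A i)) (hF : ∀ i ∈ s, FD (A i)) :
    ∏ i ∈ s, (1 - PR p (A i)) ≤ 1 - PR p (⋃ i ∈ s, A i) := by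
  classical
  induction s using Finset.induction_on with
  | empty => simp [PR]
  | insert a s ha ih =>
    have hA' : ∀ i ∈ s, Incr (A i) := fun i hi => hA i (Finset.mem_insert_of_mem hi)
    have hF' : ∀ i ∈ s, FD (A i) := fun i hi => hF i (Finset.mem_insert_of_mem hi)
    obtain ⟨h1, h2⟩ := biUnion s A hA' hF'
    rw [Finset.set_biUnion_insert, Finset.prod_insert ha]
    have h3 := PR_le_one p (A a)
    have h4 := PR_fkg p (hA a (Finset.mem_insert_self _ _)) h1 (hF a (Finset.mem_insert_self _ _)) h2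
    have h5 : PR p (A a ∪ ⋃ i ∈ s, A i) + PR p (A a ∩ ⋃ i ∈ s, A i) =
        PR p (A a) + PR p (⋃ i ∈ s, A i) := by
      unfold PR
      exact measureReal_union_add_inter h2.measurableSet (measure_ne_top _ _) (measure_ne_top _ _)
    have h6 := mul_le_mul_of_nonneg_left (ih hA' hF') (show 0 ≤ 1 - PR p (A a) by linarith)
    nlinarith

end Pool.Agent.SAWP
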