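import Pool.Agent.SAWP.Basic

/-!
# SAWP: crossing paths meet (module P4)

`cross_meet`: a walk `l₁` in the horizontal strip `c ≤ x₂ ≤ d` from `x₁ ≤ a` to `x₁ ≥ b` and a walk
`l₂` in the vertical strip `a ≤ x₁ ≤ b` from `x₂ ≤ c` to `x₂ ≥ d` have a common vertex.

Proof (parity).  For a list walk `l` and a property `P` of steps let `par P l` be the number of
consecutive pairs satisfying `P`, mod 2 (define it by recursion, `Bool`-valued `xor`).
Telescoping: for `h : V → Bool`, `par (fun a b => xor (h a) (h b)) l = xor (h first) (h last)`.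
Suppose `l₁, l₂` have no common vertex.  Extend `l₁` by one step to the left of its first vertex and
by one step to the right of its last vertex (the new vertices have `x₁ < a` resp. `x₁ > b`, so they
are not on `l₂`); call it `l`.  For `a-1 ≤ i ≤ b` let
`f(i,j) = #{steps of l along {(i,j'),(i+1,j')}, j' ≤ j} mod 2`.
(1) `f(i,j+1) + f(i,j) = #steps along {(i,j+1),(i+1,j+1)}` (definition);
(2) for `a ≤ i ≤ b`: `f(i,j) + f(i-1,j) = #steps along {(i,j),(i,j+1)}`: telescope
`h z = [z₁ = i ∧ z₂ ≤ j]`, which vanishes at both ends of `l`.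
Hence `g z = f(z₁,z₂)` is constant along `l₂` (every crossed/used edge contains a vertex of `l₂`,
which is not on `l`).  At the first vertex `z` of `l₂` (`z₂ ≤ c`): a step of `l` in column
`z₁ → z₁+1` at height `≤ z₂ ≤ c` has height `c = z₂` and contains `z`: so `g z = 0`.  At the last
vertex `w` (`w₂ ≥ d`) all steps in column `w₁ → w₁+1` are counted: their number is odd (telescope
`h z = [z₁ ≤ w₁]`): `g w = 1`.  Contradiction.
-/

set_option autoImplicit false

namespace Pool.Agent.SAWP

/-- Number mod 2 of the steps of a list satisfying `P`. -/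
def par (P : V → V → Bool) : List V → Bool
  | a :: b :: t => xor (P a b) (par P (b :: t))
  | _ => false

theorem par_telescope (h : V → Bool) {O : Set Edge} {x y : V} {l : List V} (hl : IsW O x y l) :
    par (fun a b => xor (h a) (h b)) l = xor (h x) (h y) := by
  induction l generalizing x with
  | nil => exact absurd rfl hl.ne_nil
  | cons a t ih =>
    cases t with
    | nil =>
      obtain ⟨rfl, rfl⟩ := isW_single.1 hl
      simp [par]
    | cons b t =>
      obtain ⟨rfl, hs, h2⟩ := isW_cons_cons.1 hl
      have h3 := ih h2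
      show xor (xor (h a) (h b)) (par _ (b :: t)) = _
      rw [h3]
      cases h a <;> cases h b <;> cases h y <;> rfl

/-- Two step functions that agree on adjacent pairs of vertices of the walk have the same
parity. -/
theorem par_congr {P Q : V → V → Bool} {O : Set Edge} {x y : V} {l : List V} (hl : IsW O x y l)
    (h : ∀ a b, a ∈ l → b ∈ l → Adj a b → P a b = Q a b) : par P l = par Q l := by
  induction l generalizing x with
  | nil => rfl
  | cons a t ih =>
    cases t with
    | nil => rfl
    | cons b t =>
      obtain ⟨rfl, hs, h2⟩ := isW_cons_cons.1 hl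
      have h3 := ih h2 (fun u v hu hv huv =>
        h u v (List.mem_cons_of_mem _ hu) (List.mem_cons_of_mem _ hv) huv)
      show xor (P a b) (par _ (b :: t)) = xor (Q a b) (par _ (b :: t))
      rw [h3, h a b (by simp) (by simp) hs.1]

theorem par_xor (P Q : V → V → Bool) (l : List V) :
    par (fun a b => xor (P a b) (Q a b)) l = xor (par P l) (par Q l) := by
  induction l with
  | nil => rfl
  | cons a t ih =>
    cases t with
    | nil => rfl
    | cons b t =>
      show xor (xor (P a b) (Q a b)) (par _ (b :: t)) = xor (xor (P a b) (par _ (b :: t)))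
        (xor (Q a b) (par _ (b :: t)))
      rw [ih]
      cases P a b <;> cases Q a b <;> cases par P (b :: t) <;> cases par Q (b :: t) <;> rfl

theorem par_false (l : List V) : par (fun _ _ => false) l = false := by
  induction l with
  | nil => rfl
  | cons a t ih =>
    cases t with
    | nil => rfl
    | cons b t =>
      show xor false (par _ (b :: t)) = false
      rw [ih]; rfl

/-- The step `a → b` runs between the columns `i` and `i + 1` at height at most `j`. -/
def colStep (i j : ℤ) (a b : V) : Bool :=
  decide (((a.1 = i ∧ b.1 = i + 1) ∨ (a.1 = i + 1 ∧ b.1 = i)) ∧ a.2 ≤ j)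

lemma colStep_iff {i j : ℤ} {a b : V} : colStep i j a b = true ↔
    ((a.1 = i ∧ b.1 = i + 1) ∨ (a.1 = i + 1 ∧ b.1 = i)) ∧ a.2 ≤ j := by
  simp [colStep]

/-- Moving the base point of the ray up past a vertex off the walk does not change the parity. -/
lemma colStep_up {O : Set Edge} {x y : V} {l : List V} (hl : IsW O x y l) {i j : ℤ}
    (hv : (i, j + 1) ∉ l) : par (colStep i (j + 1)) l = par (colStep i j) l := by
  refine par_congr hl fun p q hp hq hpq => ?_
  have hp' : p ≠ (i, j + 1) := fun h => hv (h ▸ hp)
  have hq' : q ≠ (i, j + 1) := fun h => hv (h ▸ hq)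
  rw [Bool.eq_iff_iff, colStep_iff, colStep_iff]
  obtain ⟨p1, p2⟩ := p
  obtain ⟨q1, q2⟩ := q
  simp only [ne_eq, Prod.mk.injEq, not_and] at hp' hq'
  have := adj_cases hpq
  simp only [Prod.mk.injEq] at this
  simp only
  omega

/-- Moving the base point of the ray across a vertex off the walk does not change the parity, if
the walk starts to the left and ends to the right. -/
lemma colStep_right {O : Set Edge} {x y : V} {l : List V} (hl : IsW O x y l) {i j : ℤ}
    (hv : (i, j) ∉ l) (hx : x.1 < i) (hy : i < y.1) :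
    par (colStep i j) l = par (colStep (i - 1) j) l := by
  have h1 := par_telescope (fun z => decide (z.1 = i ∧ z.2 ≤ j)) hl
  have h2 : par (fun a b => xor (colStep i j a b) (colStep (i - 1) j a b)) l =
      par (fun a b => xor (decide (a.1 = i ∧ a.2 ≤ j)) (decide (b.1 = i ∧ b.2 ≤ j))) l := by
    refine par_congr hl fun p q hp hq hpq => ?_
    have hp' : p ≠ (i, j) := fun h => hv (h ▸ hp)
    have hq' : q ≠ (i, j) := fun h => hv (h ▸ hq)
    obtain ⟨p1, p2⟩ := p
    obtain ⟨q1, q2⟩ := q
    simp only [ne_eq, Prod.mk.injEq, not_and] at hp' hq'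
    have := adj_cases hpq
    simp only [Prod.mk.injEq] at this
    rw [Bool.eq_iff_iff]
    simp only [bne_iff_ne, ne_eq, colStep]
    simp only [decide_eq_decide]
    omega
  rw [par_xor, h1] at h2
  have e1 : decide (x.1 = i ∧ x.2 ≤ j) = false := by
    rw [decide_eq_false_iff_not]; omega
  have e2 : decide (y.1 = i ∧ y.2 ≤ j) = false := by
    rw [decide_eq_false_iff_not]; omega
  rw [e1, e2] at h2
  revert h2
  cases par (colStep i j) l <;> cases par (colStep (i - 1) j) l <;> simp

/-- Along a walk disjoint from `l` the parity of the ray below is constant. -/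
lemma colStep_const {O O' : Set Edge} {x y z w : V} {l l₂ : List V} (hl : IsW O x y l)
    (h₂ : IsW O' z w l₂) (hd : ∀ v ∈ l₂, v ∉ l) (hx : ∀ v ∈ l₂, x.1 < v.1)
    (hy : ∀ v ∈ l₂, v.1 < y.1) :
    par (colStep z.1 z.2) l = par (colStep w.1 w.2) l := by
  induction l₂ generalizing z with
  | nil => exact absurd rfl h₂.ne_nil
  | cons a t ih =>
    cases t with
    | nil =>
      obtain ⟨rfl, rfl⟩ := isW_single.1 h₂
      rfl
    | cons b t =>
      obtain ⟨rfl, hs, h3⟩ := isW_cons_cons.1 h₂
      have h4 := ih h3 (fun v hv => hd v (List.mem_cons_of_mem _ hv))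
        (fun v hv => hx v (List.mem_cons_of_mem _ hv))
        (fun v hv => hy v (List.mem_cons_of_mem _ hv))
      rw [← h4]
      have ha : a ∉ l := hd a (by simp)
      have hb : b ∉ l := hd b (by simp)
      have ha1 : x.1 < a.1 := hx a (by simp)
      have ha2 : a.1 < y.1 := hy a (by simp)
      have hb1 : x.1 < b.1 := hx b (by simp)
      have hb2 : b.1 < y.1 := hy b (by simp)
      rcases adj_cases hs.1 with h | h | h | h
      · subst h
        have := colStep_right hl (i := a.1 + 1) (j := a.2) hb hb1 hb2
        rw [add_sub_cancel_right] at this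
        exact this.symm
      · subst h
        exact (colStep_up hl (i := a.1) (j := a.2) hb).symm
      · subst h
        have := colStep_right hl (i := b.1 + 1) (j := b.2) ha ha1 ha2
        rw [add_sub_cancel_right] at this
        exact this
      · subst h
        exact colStep_up hl (i := b.1) (j := b.2) ha

/-- Crossing walks share a vertex. -/
theorem cross_meet {O₁ O₂ : Set Edge} {a b c d : ℤ} {x y z w : V} {l₁ l₂ : List V}
    (h₁ : IsW O₁ x y l₁) (h₂ : IsW O₂ z w l₂)
    (hr₁ : ∀ v ∈ l₁, c ≤ v.2 ∧ v.2 ≤ d) (hx : x.1 ≤ a) (hy : b ≤ y.1)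
    (hr₂ : ∀ v ∈ l₂, a ≤ v.1 ∧ v.1 ≤ b) (hz : z.2 ≤ c) (hw : d ≤ w.2) :
    ∃ v, v ∈ l₁ ∧ v ∈ l₂ := by
  by_contra hcon
  push Not at hcon
  -- the extended walk
  have h₁' : IsW (Set.univ : Set Edge) x y l₁ := h₁.mono (Set.subset_univ _)
  have hsx : Step (Set.univ : Set Edge) (x.1 - 1, x.2) x := by
    refine ⟨?_, Set.mem_univ _⟩
    simp [Adj]
  have hsy : Step (Set.univ : Set Edge) y (y.1 + 1, y.2) := ⟨adj_right y, Set.mem_univ _⟩
  have hext : IsW (Set.univ : Set Edge) (x.1 - 1, x.2) (y.1 + 1, y.2)
      ((x.1 - 1, x.2) :: (l₁ ++ [(y.1 + 1, y.2)])) := by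
    refine IsW.cons ?_ hsx
    have := h₁'.append ((isW_singleton (Set.univ : Set Edge) (y.1 + 1, y.2)).cons hsy)
    simpa using this
  set l : List V := (x.1 - 1, x.2) :: (l₁ ++ [(y.1 + 1, y.2)]) with hldef
  have hmem : ∀ v, v ∈ l ↔ v = (x.1 - 1, x.2) ∨ v ∈ l₁ ∨ v = (y.1 + 1, y.2) := by
    intro v; simp [hldef]
  have hstrip : ∀ v ∈ l, c ≤ v.2 ∧ v.2 ≤ d := by
    intro v hv
    rcases (hmem v).1 hv with h | h | h
    · subst h; exact hr₁ x h₁.left_mem
    · exact hr₁ v h
    · subst h; exact hr₁ y h₁.right_mem
  have hd : ∀ v ∈ l₂, v ∉ l := by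
    intro v hv hvl
    rcases (hmem v).1 hvl with h | h | h
    · have := (hr₂ v hv).1
      rw [h] at this; simp only at this; omega
    · exact hcon v h hv
    · have := (hr₂ v hv).2
      rw [h] at this; simp only at this; omega
  have hconst := colStep_const hext h₂ hd
    (fun v hv => by have := (hr₂ v hv).1; simp only; omega)
    (fun v hv => by have := (hr₂ v hv).2; simp only; omega)
  -- at `z`
  have hz0 : par (colStep z.1 z.2) l = false := by
    rw [← par_false l]
    refine par_congr hext fun p q hp hq hpq => ?_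
    have hzl := hd z h₂.left_mem
    have hp' : p ≠ z := fun h => hzl (h ▸ hp)
    have hq' : q ≠ z := fun h => hzl (h ▸ hq)
    have hp2 := hstrip p hp
    have hq2 := hstrip q hq
    rw [← Bool.not_eq_true, colStep_iff]
    obtain ⟨p1, p2⟩ := p
    obtain ⟨q1, q2⟩ := q
    obtain ⟨z1, z2⟩ := z
    simp only [ne_eq, Prod.mk.injEq, not_and] at hp' hq' hp2 hq2 hz ⊢
    have := adj_cases hpq
    simp only [Prod.mk.injEq] at this
    omega
  -- at `w`
  have hw1 : par (colStep w.1 w.2) l = true := by
    have h1 := par_telescope (fun v => decide (v.1 ≤ w.1)) hext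
    have hwr := hr₂ w h₂.right_mem
    have e1 : decide ((x.1 - 1, x.2).1 ≤ w.1) = true := by
      rw [decide_eq_true_iff]; simp only; omega
    have e2 : decide ((y.1 + 1, y.2).1 ≤ w.1) = false := by
      rw [decide_eq_false_iff_not]; simp only; omega
    rw [e1, e2] at h1
    have h2 : par (colStep w.1 w.2) l =
        par (fun a b => xor (decide (a.1 ≤ w.1)) (decide (b.1 ≤ w.1))) l := by
      refine par_congr hext fun p q hp hq hpq => ?_
      have hp2 := hstrip p hp
      have hq2 := hstrip q hq
      obtain ⟨p1, p2⟩ := p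
      obtain ⟨q1, q2⟩ := q
      have := adj_cases hpq
      simp only [Prod.mk.injEq] at this hp2 hq2
      rw [Bool.eq_iff_iff]
      simp only [bne_iff_ne, ne_eq, colStep]
      simp only [decide_eq_decide, decide_eq_true_iff]
      omega
    rw [h2, h1]; rfl
  rw [hz0, hw1] at hconst
  exact absurd hconst (by simp)

end Pool.Agent.SAWP
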