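import Pool.Agent.SAWP.Perc.Crossing
import Pool.Agent.SAWP.Perc.Fkg
import Pool.Agent.SAWP.Perc.Planar

/-!
# SAWP: quadrant arms (module P14)

`P(NE-arm of radius n at z) ≥ θ > 0` for all `n`, `z`; same for NW-arms.
Proof. Let `ρ₀` be large and `ρ_i = 2^i ρ₀`.  `X_i` = `HX (Op ω) 0 ρ_i C` for `i` even, `VX (Op ω) 0 ρ_i C` for `i` odd.
The crossings of consecutive `X_i, X_{i+1}` share a vertex (`cross_meet` with the rectangle `[0,2ρ_i]×[0,ρ_i]`, resp. its transpose).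
Let `Y` = all edges of `eF (rect 0 ρ₀ 0 ρ₀)` are open: then `0` is joined inside the quadrant to the crossing
of `X_0` (its first vertex is `(0,j)`, `0 ≤ j ≤ ρ₀`).  So on `Y ∩ X_0 ∩ … ∩ X_I` the vertex `0` is joined in the quadrant to norm
`3ρ_I`; for `n ≤ 3ρ_I` stop at the first vertex with norm `n`: `NEarm 0 n`.
FKG (`PR_fkg_iInter`; all events increasing and finitely dependent): the probability is
`≥ P(Y) ∏_{i} (1 - C e^{-cρ_i}) ≥ p^{#} ∏ ≥ θ > 0` uniformly in `I` (choose `ρ₀` with `∑ C e^{-cρ_i} ≤ 1/2`, `∏(1-a_i) ≥ 1 - ∑ a_i`).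
(In the formalisation both `HX` and `VX` are used at every scale, and the rectangles are placed
directly at their final positions, so that no symmetry of the model is needed.)
-/

set_option autoImplicit false

open MeasureTheory

namespace Pool.Agent.SAWP

namespace Arms

/-! ### The crossing events -/

lemma HX_congr (O : Set Edge) (x : V) (r C : ℕ) :
    HX (O ∩ eS (↑(Hr x r) : Set V)) x r C ↔ HX O x r C := by
  constructor
  · rintro ⟨l, y, z, h1, h2, h3⟩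
    exact ⟨l, y, z, h1.mono Set.inter_subset_left, h2, h3⟩
  · rintro ⟨l, y, z, h1, h2, h3⟩
    exact ⟨l, y, z, h1.restrict (fun v hv => h2 v hv), h2, h3⟩

lemma VX_congr (O : Set Edge) (x : V) (r C : ℕ) :
    VX (O ∩ eS (↑(Vr x r) : Set V)) x r C ↔ VX O x r C := by
  constructor
  · rintro ⟨l, y, z, h1, h2, h3⟩
    exact ⟨l, y, z, h1.mono Set.inter_subset_left, h2, h3⟩
  · rintro ⟨l, y, z, h1, h2, h3⟩
    exact ⟨l, y, z, h1.restrict (fun v hv => h2 v hv), h2, h3⟩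

lemma fd_HX (x : V) (r C : ℕ) : FD {ω | HX (Op ω) x r C} := by
  refine ⟨eF (Hr x r), ?_⟩
  rw [coe_eF]
  have := dep_of_op (D := eS (↑(Hr x r) : Set V)) (fun O => HX O x r C)
  simpa only [HX_congr] using this

lemma fd_VX (x : V) (r C : ℕ) : FD {ω | VX (Op ω) x r C} := by
  refine ⟨eF (Vr x r), ?_⟩
  rw [coe_eF]
  have := dep_of_op (D := eS (↑(Vr x r) : Set V)) (fun O => VX O x r C)
  simpa only [VX_congr] using this

lemma incr_HX (x : V) (r C : ℕ) : Incr {ω | HX (Op ω) x r C} := by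
  rintro ω ω' h ⟨l, y, z, h1, h2⟩
  exact ⟨l, y, z, h1.mono (op_mono h), h2⟩

lemma incr_VX (x : V) (r C : ℕ) : Incr {ω | VX (Op ω) x r C} := by
  rintro ω ω' h ⟨l, y, z, h1, h2⟩
  exact ⟨l, y, z, h1.mono (op_mono h), h2⟩

/-! ### The deterministic part -/

lemma meet {O : Set Edge} {x x' : V} {r r' C : ℕ} {l l' : List V} (h : IsHX O x r C l)
    (h' : IsVX O x' r' C l') (h1 : x.1 ≤ x'.1) (h2 : x'.1 + r' ≤ x.1 + 3 * r) (h3 : x'.2 ≤ x.2)
    (h4 : x.2 + r ≤ x'.2 + 3 * r') : ∃ v, v ∈ l ∧ v ∈ l' := by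
  obtain ⟨y, z, hP, hR, hy, hz, -⟩ := h
  obtain ⟨y', z', hP', hR', hy', hz', -⟩ := h'
  refine cross_meet (a := x'.1) (b := x'.1 + r') (c := x.2) (d := x.2 + r) hP.1 hP'.1 ?_ ?_ ?_ ?_
    ?_ ?_
  · intro v hv
    have := hR v hv
    rw [Hr, mem_rect] at this
    omega
  · omega
  · omega
  · intro v hv
    have := hR' v hv
    rw [Vr, mem_rect] at this
    omega
  · omega
  · omega

lemma conn_all {O : Set Edge} {Q : Set V} {x y z : V} {l : List V} (h : IsW O x y l)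
    (hQ : ∀ v ∈ l, v ∈ Q) {v : V} (hv : v ∈ l) (hz : Conn (O ∩ eS Q) z v) {w : V} (hw : w ∈ l) :
    Conn (O ∩ eS Q) z w := by
  have h' := h.restrict hQ
  obtain ⟨l1, l2, h1, h2, -⟩ := h'.split hv
  obtain ⟨l3, l4, h3, h4, -⟩ := h'.split hw
  exact hz.trans (Conn.trans (Conn.symm ⟨l1, h1⟩) ⟨l3, h3⟩)

lemma eS_step {O : Set Edge} {R : Set V} {x y : V} (h : Adj x y) (hx : x ∈ R) (hy : y ∈ R)
    (hO : eS R ⊆ O) : Step (O ∩ eS R) x y :=
  ⟨h, hO ((edgeOf_mem_eS h).2 ⟨hx, hy⟩), (edgeOf_mem_eS h).2 ⟨hx, hy⟩⟩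

lemma rect_right {O : Set Edge} {a b c d : ℤ} (hO : eS (↑(rect a b c d) : Set V) ⊆ O) (k : ℕ)
    (s t : ℤ) (h1 : (s, t) ∈ rect a b c d) (h2 : (s + k, t) ∈ rect a b c d) :
    Conn (O ∩ eS (↑(rect a b c d) : Set V)) (s, t) (s + k, t) := by
  induction k with
  | zero => simpa using Conn.refl _ _
  | succ k ih =>
    have h3 : (s + k, t) ∈ rect a b c d := by
      rw [mem_rect] at *
      push_cast at h2
      simp only at *
      omega
    refine (ih h3).trans (Step.conn (eS_step ?_ (Finset.mem_coe.2 h3) (Finset.mem_coe.2 h2) hO))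
    have := adj_right (s + (k : ℤ), t)
    push_cast
    rw [← add_assoc]
    exact this

lemma rect_up {O : Set Edge} {a b c d : ℤ} (hO : eS (↑(rect a b c d) : Set V) ⊆ O) (k : ℕ)
    (s t : ℤ) (h1 : (s, t) ∈ rect a b c d) (h2 : (s, t + k) ∈ rect a b c d) :
    Conn (O ∩ eS (↑(rect a b c d) : Set V)) (s, t) (s, t + k) := by
  induction k with
  | zero => simpa using Conn.refl _ _
  | succ k ih =>
    have h3 : (s, t + k) ∈ rect a b c d := by
      rw [mem_rect] at *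
      push_cast at h2
      simp only at *
      omega
    refine (ih h3).trans (Step.conn (eS_step ?_ (Finset.mem_coe.2 h3) (Finset.mem_coe.2 h2) hO))
    have := adj_up (s, t + (k : ℤ))
    push_cast
    rw [← add_assoc]
    exact this

lemma rect_conn {O : Set Edge} {a b c d : ℤ} (hO : eS (↑(rect a b c d) : Set V) ⊆ O) {x y : V}
    (hx : x ∈ rect a b c d) (hy : y ∈ rect a b c d) :
    Conn (O ∩ eS (↑(rect a b c d) : Set V)) x y := by
  obtain ⟨s, t⟩ := x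
  obtain ⟨s', t'⟩ := y
  have hm : (s', t) ∈ rect a b c d := by
    rw [mem_rect] at *
    simp only at *
    omega
  have h1 : Conn (O ∩ eS (↑(rect a b c d) : Set V)) (s, t) (s', t) := by
    rcases le_total s s' with h | h
    · obtain ⟨k, hk⟩ := Int.eq_ofNat_of_zero_le (sub_nonneg.2 h)
      obtain rfl : s' = s + k := by omega
      exact rect_right hO k s t hx hm
    · obtain ⟨k, hk⟩ := Int.eq_ofNat_of_zero_le (sub_nonneg.2 h)
      obtain rfl : s = s' + k := by omega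
      exact (rect_right hO k s' t hm hx).symm
  have h2 : Conn (O ∩ eS (↑(rect a b c d) : Set V)) (s', t) (s', t') := by
    rcases le_total t t' with h | h
    · obtain ⟨k, hk⟩ := Int.eq_ofNat_of_zero_le (sub_nonneg.2 h)
      obtain rfl : t' = t + k := by omega
      exact rect_up hO k s' t hm hy
    · obtain ⟨k, hk⟩ := Int.eq_ofNat_of_zero_le (sub_nonneg.2 h)
      obtain rfl : t = t' + k := by omega
      exact (rect_up hO k s' t' hy hm).symm
  exact h1.trans h2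

theorem det {O : Set Edge} {C : ℕ} {Q : Set V} {z : V} {r : ℕ → ℕ} {pH pV : ℕ → V}
    (hQH : ∀ i, ∀ v ∈ Hr (pH i) (r i), v ∈ Q) (hQV : ∀ i, ∀ v ∈ Vr (pV i) (r i), v ∈ Q)
    (m1 : ∀ i, (pH i).1 ≤ (pV i).1 ∧ (pV i).1 + r i ≤ (pH i).1 + 3 * r i ∧
      (pV i).2 ≤ (pH i).2 ∧ (pH i).2 + r i ≤ (pV i).2 + 3 * r i)
    (m2 : ∀ i, (pH (i + 1)).1 ≤ (pV i).1 ∧ (pV i).1 + r i ≤ (pH (i + 1)).1 + 3 * r (i + 1) ∧
      (pV i).2 ≤ (pH (i + 1)).2 ∧ (pH (i + 1)).2 + r (i + 1) ≤ (pV i).2 + 3 * r i)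
    (hz : z ∈ rect (pV 0).1 ((pV 0).1 + r 0) (pV 0).2 ((pV 0).2 + r 0))
    (hS : eS (↑(rect (pV 0).1 ((pV 0).1 + r 0) (pV 0).2 ((pV 0).2 + r 0)) : Set V) ⊆ O)
    (I : ℕ) (hH : ∀ i ≤ I, HX O (pH i) (r i) C) (hV : ∀ i ≤ I, VX O (pV i) (r i) C) :
    ∀ l, IsVX O (pV I) (r I) C l → ∀ v ∈ l, Conn (O ∩ eS Q) z v := by
  induction I with
  | zero =>
    intro l hl v hv
    obtain ⟨y, w, hP, hR, hy, hw, -⟩ := hl
    have hy' : y ∈ rect (pV 0).1 ((pV 0).1 + r 0) (pV 0).2 ((pV 0).2 + r 0) := by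
      have := hR y hP.1.left_mem
      rw [Vr, mem_rect] at this
      rw [mem_rect]
      omega
    refine conn_all hP.1 (fun v hv => hQV 0 v (hR v hv)) hP.1.left_mem ?_ hv
    refine (rect_conn hS hz hy').mono (Set.inter_subset_inter_right _ ?_)
    have hsub : ∀ v, v ∈ (↑(rect (pV 0).1 ((pV 0).1 + r 0) (pV 0).2 ((pV 0).2 + r 0)) : Set V) →
        v ∈ Q := by
      intro v hv
      apply hQV 0
      rw [Finset.mem_coe, mem_rect] at hv
      rw [Vr, mem_rect]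
      omega
    exact fun e he => ⟨hsub _ he.1, hsub _ he.2⟩
  | succ I ih =>
    obtain ⟨l1, h1⟩ := hV I (by omega)
    obtain ⟨l2, h2⟩ := hH (I + 1) le_rfl
    intro l hl v hv
    have ih' := ih (fun i hi => hH i (by omega)) (fun i hi => hV i (by omega)) l1 h1
    obtain ⟨v1, ha, hb⟩ := meet h2 h1 (m2 I).1 (m2 I).2.1 (m2 I).2.2.1 (m2 I).2.2.2
    have c1 := ih' v1 hb
    obtain ⟨v2, ha2, hb2⟩ := meet h2 hl (m1 (I + 1)).1 (m1 (I + 1)).2.1 (m1 (I + 1)).2.2.1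
      (m1 (I + 1)).2.2.2
    obtain ⟨y, w, hP, hR, -⟩ := h2
    have c2 := conn_all hP.1 (fun v hv => hQH _ v (hR v hv)) ha c1 ha2
    obtain ⟨y', w', hP', hR', -⟩ := hl
    exact conn_all hP'.1 (fun v hv => hQV _ v (hR' v hv)) hb2 c2 hv

/-- Stop a walk when it hits the target `T`. -/
lemma stop {O : Set Edge} {R Q : Set V} {T : V → Prop}
    (hst : ∀ a b, a ∈ R → ¬ T a → b ∈ Q → Adj a b → b ∈ R) {x y : V} {l : List V}
    (h : IsW O x y l) (hx : x ∈ R) (hend : y ∈ R → T y) (hQ : ∀ v ∈ l, v ∈ Q) :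
    ∃ y' l', IsP O x y' l' ∧ (∀ v ∈ l', v ∈ R) ∧ T y' := by
  have key : ∃ y' l', IsW O x y' l' ∧ (∀ v ∈ l', v ∈ R) ∧ T y' := by
    induction l generalizing x with
    | nil => exact absurd rfl h.ne_nil
    | cons a t ih =>
      cases t with
      | nil =>
        obtain ⟨rfl, rfl⟩ := isW_single.1 h
        exact ⟨a, [a], isW_singleton _ _, by simpa using hx, hend hx⟩
      | cons b t =>
        obtain ⟨rfl, hs, h2⟩ := isW_cons_cons.1 h
        by_cases hT : T a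
        · exact ⟨a, [a], isW_singleton _ _, by simpa using hx, hT⟩
        · have hb : b ∈ R := hst a b hx hT (hQ b (by simp)) hs.1
          obtain ⟨y', l', h3, h4, h5⟩ := ih h2 hb (fun v hv => hQ v (List.mem_cons_of_mem _ hv))
          refine ⟨y', a :: l', h3.cons hs, ?_, h5⟩
          intro v hv
          rcases List.mem_cons.1 hv with rfl | hv
          · exact hx
          · exact h4 v hv
  obtain ⟨y', l', h1, h2, h3⟩ := key
  obtain ⟨l'', h4, h5, -⟩ := h1.exists_path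
  exact ⟨y', l'', h4, fun v hv => h2 v (h5 v hv), h3⟩

/-! ### The probabilistic part -/

lemma one_sub_sum_le_prod {ι : Type*} (s : Finset ι) (f : ι → ℝ) (h0 : ∀ i ∈ s, 0 ≤ f i)
    (h1 : ∀ i ∈ s, f i ≤ 1) : 1 - ∑ i ∈ s, (1 - f i) ≤ ∏ i ∈ s, f i := by
  classical
  induction s using Finset.induction_on with
  | empty => simp
  | insert a s ha ih =>
    rw [Finset.sum_insert ha, Finset.prod_insert ha]
    have h2 := ih (fun i hi => h0 i (Finset.mem_insert_of_mem hi))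
      (fun i hi => h1 i (Finset.mem_insert_of_mem hi))
    have h3 := h0 a (Finset.mem_insert_self _ _)
    have h4 := h1 a (Finset.mem_insert_self _ _)
    have h5 : 0 ≤ ∑ i ∈ s, (1 - f i) := Finset.sum_nonneg fun i hi => by
      have := h1 i (Finset.mem_insert_of_mem hi); linarith
    have h6 := mul_le_mul_of_nonneg_left h2 h3
    nlinarith

lemma PR_all_open (p : unitInterval) (D : Finset Edge) :
    p.1 ^ D.card ≤ PR p {ω | ∀ e ∈ D, ω e = true} := by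
  have h := PR_fkg_iInter p D (fun e => {ω : Cfg | ω e = true})
    (fun e _ ω ω' hω he => hω e he)
    (fun e _ => ⟨{e}, fun ω ω' hω => by
      have : ω e = ω' e := hω e (by simp)
      simp [this]⟩)
  have e1 : (⋂ e ∈ D, {ω : Cfg | ω e = true}) = {ω | ∀ e ∈ D, ω e = true} := by
    ext ω; simp
  rw [e1] at h
  refine le_trans (le_of_eq ?_) h
  rw [Finset.prod_congr rfl (fun e _ => PR_open p e), Finset.prod_const]

/-- The geometric choice of the first scale. -/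
lemma exists_scale (C : ℕ) (hC : 1 ≤ C) (c : ℝ) (hc : 0 < c) :
    ∃ ρ : ℕ, 1 ≤ ρ ∧ ∀ I : ℕ,
      ∑ i ∈ Finset.range (I + 1), 2 * (C * Real.exp (-(c * ((2 ^ i * ρ : ℕ) : ℝ)))) ≤ 1 / 2 := by
  have hC' : (1 : ℝ) ≤ C := by exact_mod_cast hC
  have ht : Filter.Tendsto (fun n : ℕ => Real.exp (-(c * (n : ℝ)))) Filter.atTop (nhds 0) := by
    refine Real.tendsto_exp_neg_atTop_nhds_zero.comp ?_
    exact Filter.Tendsto.const_mul_atTop hc tendsto_natCast_atTop_atTop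
  have hpos : (0 : ℝ) < 1 / (8 * C) := by positivity
  obtain ⟨ρ, hρ, hρ1⟩ := ((ht.eventually (gt_mem_nhds hpos)).and
    (Filter.eventually_ge_atTop 1)).exists
  refine ⟨ρ, hρ1, fun I => ?_⟩
  set q := Real.exp (-(c * (ρ : ℝ))) with hq
  have hq0 : 0 < q := Real.exp_pos _
  have hqC : C * q ≤ 1 / 8 := by
    have : C * q ≤ C * (1 / (8 * C)) := mul_le_mul_of_nonneg_left hρ.le (by positivity)
    refine this.trans (le_of_eq ?_)
    field_simp
  have hq8 : q ≤ 1 / 8 := by nlinarith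
  have hterm : ∀ i : ℕ, Real.exp (-(c * ((2 ^ i * ρ : ℕ) : ℝ))) ≤ q * q ^ i := by
    intro i
    rw [← pow_succ', hq, ← Real.exp_nat_mul]
    apply Real.exp_le_exp.2
    have h1 : (i + 1 : ℕ) ≤ 2 ^ i := Nat.lt_two_pow_self
    have h2 : ((i + 1 : ℕ) : ℝ) ≤ 2 ^ i := by exact_mod_cast h1
    have h3 : (0 : ℝ) ≤ c * ρ := by positivity
    push_cast at h2 ⊢
    nlinarith
  have hgeo : ∑ i ∈ Finset.range (I + 1), q ^ i ≤ 8 / 7 := by
    have h1 : (∑ i ∈ Finset.range (I + 1), q ^ i) * (q - 1) = q ^ (I + 1) - 1 :=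
      geom_sum_mul q (I + 1)
    have h2 : 0 ≤ q ^ (I + 1) := by positivity
    have h3 : 0 ≤ ∑ i ∈ Finset.range (I + 1), q ^ i := Finset.sum_nonneg fun i _ => by positivity
    nlinarith
  calc ∑ i ∈ Finset.range (I + 1), 2 * (C * Real.exp (-(c * ((2 ^ i * ρ : ℕ) : ℝ))))
      ≤ ∑ i ∈ Finset.range (I + 1), 2 * (C * (q * q ^ i)) := by
        refine Finset.sum_le_sum fun i _ => ?_
        have := hterm i
        gcongr
    _ = 2 * (C * q) * ∑ i ∈ Finset.range (I + 1), q ^ i := by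
        rw [Finset.mul_sum]
        refine Finset.sum_congr rfl fun i _ => by ring
    _ ≤ 2 * (1 / 8) * (8 / 7) := by
        gcongr
    _ ≤ 1 / 2 := by norm_num

/-- The common event: a small open square and crossings at all scales. -/
def good (ρ C : ℕ) (pH pV : ℕ → V) (I : ℕ) : Set Cfg :=
  {ω | ∀ e ∈ eF (rect (pV 0).1 ((pV 0).1 + ρ) (pV 0).2 ((pV 0).2 + ρ)), ω e = true} ∩
    ⋂ i ∈ Finset.range (I + 1),
      ({ω | HX (Op ω) (pH i) (2 ^ i * ρ) C} ∩ {ω | VX (Op ω) (pV i) (2 ^ i * ρ) C})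

lemma rect_card (a b : ℤ) (ρ : ℕ) : (rect a (a + ρ) b (b + ρ)).card = (ρ + 1) ^ 2 := by
  unfold rect
  rw [Finset.card_product, Int.card_Icc, Int.card_Icc]
  have h1 : (a + ρ + 1 - a).toNat = ρ + 1 := by omega
  have h2 : (b + ρ + 1 - b).toNat = ρ + 1 := by omega
  rw [h1, h2]; ring

lemma PR_good (p : unitInterval) {C : ℕ} {c : ℝ}
    (hcross : ∀ r : ℕ, 1 ≤ r → ∀ x : V,
      1 - C * Real.exp (-(c * r)) ≤ PR p {ω | HX (Op ω) x r C} ∧
      1 - C * Real.exp (-(c * r)) ≤ PR p {ω | VX (Op ω) x r C})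
    {ρ : ℕ} (hρ : 1 ≤ ρ) (hsum : ∀ I : ℕ,
      ∑ i ∈ Finset.range (I + 1), 2 * (C * Real.exp (-(c * ((2 ^ i * ρ : ℕ) : ℝ)))) ≤ 1 / 2)
    (pH pV : ℕ → V) (I : ℕ) :
    p.1 ^ (2 * (ρ + 1) ^ 2) * (1 / 2) ≤ PR p (good ρ C pH pV I) := by
  have hp0 := p.2.1
  have hp1 := p.2.2
  set A : ℕ → Set Cfg := fun i =>
    {ω | HX (Op ω) (pH i) (2 ^ i * ρ) C} ∩ {ω | VX (Op ω) (pV i) (2 ^ i * ρ) C} with hA
  have hAi : ∀ i, Incr (A i) := fun i => Fkg.Incr.inter (incr_HX _ _ _) (incr_VX _ _ _)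
  have hAf : ∀ i, FD (A i) := fun i => Fkg.FD.inter (fd_HX _ _ _) (fd_VX _ _ _)
  have hAp : ∀ i, 1 - PR p (A i) ≤ 2 * (C * Real.exp (-(c * ((2 ^ i * ρ : ℕ) : ℝ)))) := by
    intro i
    have h1 : 1 ≤ 2 ^ i * ρ := Nat.one_le_iff_ne_zero.2 (by positivity)
    obtain ⟨h2, -⟩ := hcross (2 ^ i * ρ) h1 (pH i)
    obtain ⟨-, h3⟩ := hcross (2 ^ i * ρ) h1 (pV i)
    have h4 := PR_fkg p (incr_HX (pH i) (2 ^ i * ρ) C) (incr_VX (pV i) (2 ^ i * ρ) C)
      (fd_HX _ _ _) (fd_VX _ _ _)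
    have h5 := PR_le_one p {ω | HX (Op ω) (pH i) (2 ^ i * ρ) C}
    have h6 := PR_le_one p {ω | VX (Op ω) (pV i) (2 ^ i * ρ) C}
    have h7 : PR p (A i) = PR p ({ω | HX (Op ω) (pH i) (2 ^ i * ρ) C} ∩
      {ω | VX (Op ω) (pV i) (2 ^ i * ρ) C}) := rfl
    nlinarith
  obtain ⟨hBi, hBf⟩ := Fkg.biInter (Finset.range (I + 1)) A (fun i _ => hAi i) (fun i _ => hAf i)
  have hB : 1 / 2 ≤ PR p (⋂ i ∈ Finset.range (I + 1), A i) := by
    have h1 := PR_fkg_iInter p (Finset.range (I + 1)) A (fun i _ => hAi i) (fun i _ => hAf i)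
    have h2 := one_sub_sum_le_prod (Finset.range (I + 1)) (fun i => PR p (A i))
      (fun i _ => PR_nonneg p _) (fun i _ => PR_le_one p _)
    have h3 : ∑ i ∈ Finset.range (I + 1), (1 - PR p (A i)) ≤ 1 / 2 :=
      (Finset.sum_le_sum fun i _ => hAp i).trans (hsum I)
    linarith
  set S := rect (pV 0).1 ((pV 0).1 + ρ) (pV 0).2 ((pV 0).2 + ρ) with hS
  have hY := PR_all_open p (eF S)
  have hcard : (eF S).card ≤ 2 * (ρ + 1) ^ 2 := by
    have := eF_card_le S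
    rw [hS, rect_card] at this
    exact this
  have hY2 : p.1 ^ (2 * (ρ + 1) ^ 2) ≤ PR p {ω | ∀ e ∈ eF S, ω e = true} :=
    (pow_le_pow_of_le_one hp0 hp1 hcard).trans hY
  have hYi : Incr {ω : Cfg | ∀ e ∈ eF S, ω e = true} := fun ω ω' h hω e he => h e (hω e he)
  have hYf : FD {ω : Cfg | ∀ e ∈ eF S, ω e = true} := by
    refine ⟨eF S, fun ω ω' hω => ?_⟩
    refine forall₂_congr fun e he => ?_
    rw [hω e he]
  have hfin := PR_fkg p hYi hBi hYf hBf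
  have hmul : p.1 ^ (2 * (ρ + 1) ^ 2) * (1 / 2) ≤
      PR p {ω | ∀ e ∈ eF S, ω e = true} * PR p (⋂ i ∈ Finset.range (I + 1), A i) :=
    mul_le_mul hY2 hB (by norm_num) (PR_nonneg p _)
  exact hmul.trans hfin

lemma good_conn {ρ C : ℕ} {pH pV : ℕ → V} {Q : Set V} {z : V}
    (hQH : ∀ i, ∀ v ∈ Hr (pH i) (2 ^ i * ρ), v ∈ Q) (hQV : ∀ i, ∀ v ∈ Vr (pV i) (2 ^ i * ρ), v ∈ Q)
    (m1 : ∀ i, (pH i).1 ≤ (pV i).1 ∧ (pV i).1 + (2 ^ i * ρ : ℕ) ≤ (pH i).1 + 3 * (2 ^ i * ρ : ℕ) ∧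
      (pV i).2 ≤ (pH i).2 ∧ (pH i).2 + (2 ^ i * ρ : ℕ) ≤ (pV i).2 + 3 * (2 ^ i * ρ : ℕ))
    (m2 : ∀ i, (pH (i + 1)).1 ≤ (pV i).1 ∧
      (pV i).1 + (2 ^ i * ρ : ℕ) ≤ (pH (i + 1)).1 + 3 * (2 ^ (i + 1) * ρ : ℕ) ∧
      (pV i).2 ≤ (pH (i + 1)).2 ∧
      (pH (i + 1)).2 + (2 ^ (i + 1) * ρ : ℕ) ≤ (pV i).2 + 3 * (2 ^ i * ρ : ℕ))
    (hz : z ∈ rect (pV 0).1 ((pV 0).1 + ρ) (pV 0).2 ((pV 0).2 + ρ))
    {I : ℕ} {ω : Cfg} (hω : ω ∈ good ρ C pH pV I) :
    ∃ w : V, w.2 = (pV I).2 + 3 * (2 ^ I * ρ : ℕ) ∧ Conn (Op ω ∩ eS Q) z w := by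
  obtain ⟨h1, h2⟩ := hω
  have h3 : ∀ i ≤ I, HX (Op ω) (pH i) (2 ^ i * ρ) C ∧ VX (Op ω) (pV i) (2 ^ i * ρ) C := by
    intro i hi
    have := Set.mem_iInter₂.1 h2 i (Finset.mem_range.2 (by omega))
    exact this
  obtain ⟨l, hl⟩ := (h3 I le_rfl).2
  have h4 := det (O := Op ω) (C := C) (Q := Q) (z := z) (r := fun i => 2 ^ i * ρ) (pH := pH)
    (pV := pV) hQH hQV m1 m2 (by simpa using hz) (by
      intro e he
      apply h1 e
      rw [mem_eF]
      simpa [eS] using he) I (fun i hi => (h3 i hi).1) (fun i hi => (h3 i hi).2) l hl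
  obtain ⟨y, w, hP, hR, hy, hw, -⟩ := hl
  exact ⟨w, hw, h4 w hP.1.right_mem⟩

end Arms

open Arms

/-- (P2). -/
theorem arms (p : unitInterval) (hp : 1 / 2 < p.1) :
    ∃ θ : ℝ, 0 < θ ∧ ∀ (z : V) (n : ℕ), θ ≤ PR p {ω | NEarm (Op ω) z n} ∧
      θ ≤ PR p {ω | NWarm (Op ω) z n} := by
  obtain ⟨C, c, hC, hc, hcross⟩ := crossing p hp
  obtain ⟨ρ, hρ, hsum⟩ := exists_scale C hC c hc
  refine ⟨p.1 ^ (2 * (ρ + 1) ^ 2) * (1 / 2), by
    have : 0 < p.1 := by linarith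
    positivity, ?_⟩
  intro z n
  -- the scale `I = n`: `2 ^ n * ρ ≥ n`
  have hn : n ≤ 2 ^ n * ρ := by
    have h1 : n < 2 ^ n := Nat.lt_two_pow_self
    nlinarith
  have hpow : ∀ i, 2 ^ (i + 1) * ρ = 2 * (2 ^ i * ρ) := fun i => by ring
  constructor
  · refine (PR_good p hcross hρ hsum (fun _ => z) (fun _ => z) n).trans (PR_mono p ?_)
    intro ω hω
    obtain ⟨w, hw, l, hl⟩ := good_conn (Q := {v | z.1 ≤ v.1 ∧ z.2 ≤ v.2}) (z := z)
      (by
        intro i v hv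
        rw [Hr, mem_rect] at hv
        exact ⟨hv.1, hv.2.2.1⟩)
      (by
        intro i v hv
        rw [Vr, mem_rect] at hv
        exact ⟨hv.1, hv.2.2.1⟩)
      (by intro i; generalize 2 ^ i * ρ = r; omega)
      (by intro i; rw [hpow]; generalize 2 ^ i * ρ = r; push_cast; omega)
      (by rw [mem_rect]; omega) hω
    have hQ := hl.mem_of_eS (show z ∈ {v : V | z.1 ≤ v.1 ∧ z.2 ≤ v.2} from ⟨le_rfl, le_rfl⟩)
    obtain ⟨y, l', h1, h2, h3⟩ := stop (R := (↑(rect z.1 (z.1 + n) z.2 (z.2 + n)) : Set V))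
      (Q := {v | z.1 ≤ v.1 ∧ z.2 ≤ v.2}) (T := fun y => y.1 = z.1 + n ∨ y.2 = z.2 + n)
      (by
        intro a b ha hT hb hab
        rw [Finset.mem_coe, mem_rect] at *
        obtain ⟨hb1, hb2⟩ := hb
        have := adj_cases hab
        obtain ⟨a1, a2⟩ := a
        obtain ⟨b1, b2⟩ := b
        simp only [Prod.mk.injEq] at *
        omega) (hl.mono Set.inter_subset_left)
      (by rw [Finset.mem_coe, mem_rect]; omega)
      (by
        intro hw'
        rw [Finset.mem_coe, mem_rect] at hw'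
        right
        generalize 2 ^ n * ρ = r at *
        omega) hQ
    exact ⟨y, l', h1, h2, h3⟩
  · refine (PR_good p hcross hρ hsum (fun i => (z.1 - 3 * (2 ^ i * ρ : ℕ), z.2))
      (fun i => (z.1 - (2 ^ i * ρ : ℕ), z.2)) n).trans (PR_mono p ?_)
    intro ω hω
    obtain ⟨w, hw, l, hl⟩ := good_conn (Q := {v | v.1 ≤ z.1 ∧ z.2 ≤ v.2}) (z := z)
      (by
        intro i v hv
        rw [Hr, mem_rect] at hv
        simp only at hv
        refine ⟨?_, hv.2.2.1⟩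
        omega)
      (by
        intro i v hv
        rw [Vr, mem_rect] at hv
        simp only at hv
        refine ⟨?_, hv.2.2.1⟩
        omega)
      (by intro i; simp only; generalize 2 ^ i * ρ = r; omega)
      (by intro i; simp only; rw [hpow]; generalize 2 ^ i * ρ = r; push_cast; omega)
      (by rw [mem_rect]; simp only [pow_zero, one_mul]; omega) hω
    have hQ := hl.mem_of_eS (show z ∈ {v : V | v.1 ≤ z.1 ∧ z.2 ≤ v.2} from ⟨le_rfl, le_rfl⟩)
    obtain ⟨y, l', h1, h2, h3⟩ := stop (R := (↑(rect (z.1 - n) z.1 z.2 (z.2 + n)) : Set V))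
      (Q := {v | v.1 ≤ z.1 ∧ z.2 ≤ v.2}) (T := fun y => y.1 = z.1 - n ∨ y.2 = z.2 + n)
      (by
        intro a b ha hT hb hab
        rw [Finset.mem_coe, mem_rect] at *
        obtain ⟨hb1, hb2⟩ := hb
        have := adj_cases hab
        obtain ⟨a1, a2⟩ := a
        obtain ⟨b1, b2⟩ := b
        simp only [Prod.mk.injEq] at *
        omega) (hl.mono Set.inter_subset_left)
      (by rw [Finset.mem_coe, mem_rect]; omega)
      (by
        intro hw'
        rw [Finset.mem_coe, mem_rect] at hw'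
        right
        simp only at hw
        generalize 2 ^ n * ρ = r at *
        omega) hQ
    exact ⟨y, l', h1, h2, h3⟩

end Pool.Agent.SAWP
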