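import Pool.Agent.SAWP.Meas

/-!
# SAWP: planar duality (module P5)

Unit faces `[i,i+1]×[j,j+1]` are identified with the vertices `(i,j)` of a second copy of the
lattice. The edge `e = {(i,j),(i,j+1)} = ((i,j),true)` separates the faces `(i-1,j)` and `(i,j)`;
the edge `((i,j),false)` separates the faces `(i,j-1)` and `(i,j)`. `star e` is the dual edge.
The dual configuration: `star e` is open iff `e` is closed.

`dual_exists`: if the rectangle `[0,a]×[0,b]` has no open left-right crossing then there is a dual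
open path of faces from row `-1` to row `b` inside `[0,a-1]×[-1,b]`.
Proof: let `S` be the set of vertices of the rectangle joined inside it by open edges to the left
side `x₁=0` (the side itself is in `S`); no vertex with `x₁=a` is in `S`.  Let `D` be the set of
edges inside the rectangle between `S` and its complement; they are closed, so their duals are open.
Each face `(i,j)`, `0≤i<a, 0≤j<b`, has an even number of its four edges in `D`.  A face `(i,-1)` has at most one `D`-edge, `((i,0),false)`, and the number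
of these is odd (along the bottom row one goes from `S` to the complement). Let `C` be the set of faces reachable from the
faces `(i,-1)` by crossing `D`-edges.  If `C` contains no face `(i,b)`, count pairs (face in `C`,
`D`-edge of it) mod 2: each `D`-edge with one side in `C` has both sides in `C` (vertical edges on
the left and right sides of the rectangle are not in `D`), so the count is even; on the other hand it
is odd.  Contradiction.
-/

set_option autoImplicit false

open MeasureTheory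

namespace Pool.Agent.SAWP

/-- The dual edge. -/
def star : Edge → Edge
  | ((i, j), true) => ((i - 1, j), false)
  | ((i, j), false) => ((i, j - 1), true)

/-- The inverse of `star`. -/
def unstar : Edge → Edge
  | ((i, j), false) => ((i + 1, j), true)
  | ((i, j), true) => ((i, j + 1), false)

/-- `star` as a permutation of the edges. -/
def starE : Edge ≃ Edge where
  toFun := star
  invFun := unstar
  left_inv := by rintro ⟨⟨i, j⟩, t⟩; cases t <;> simp [star, unstar]
  right_inv := by rintro ⟨⟨i, j⟩, t⟩; cases t <;> simp [star, unstar]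

/-- The dual configuration. -/
def dualC (ω : Cfg) : Cfg := fun d => !(ω (unstar d))

/-- Law of the dual configuration. -/
theorem PR_dual (p : unitInterval) {A : Set Cfg} (hA : MeasurableSet A) :
    PR p {ω | dualC ω ∈ A} = PR (unitInterval.symm p) A := by
  have hm : Measurable (fun ω : Cfg => (fun e => !(ω e) : Cfg)) := by
    refine measurable_pi_lambda _ fun e => ?_
    exact (measurable_of_countable (fun b : Bool => !b)).comp (measurable_pi_apply e)
  rw [← PR_flip p hA]
  exact PR_perm p starE.symm (A := {ω | (fun e => !(ω e)) ∈ A}) (hm hA)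

namespace DualX

/-! ### the parity argument -/

section Parity

variable {a b : ℕ} {s c : ℕ → ℕ → ZMod 2}

lemma row (h1 : ∀ j ≤ b, s 0 j = 1) (h2 : ∀ j ≤ b, s a j = 0) (ha : 1 ≤ a)
    (hv : ∀ i, i + 1 < a → ∀ j < b, (s (i + 1) j + s (i + 1) (j + 1)) * c i (j + 1) =
      (s (i + 1) j + s (i + 1) (j + 1)) * c (i + 1) (j + 1)) {j : ℕ} (hj : j < b) :
    ∑ i ∈ Finset.range a, c i (j + 1) * ((s i j + s i (j + 1)) + (s (i + 1) j + s (i + 1) (j + 1)))
      = 0 := by
  have key : ∀ k, k < a → ∑ i ∈ Finset.range k,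
      c i (j + 1) * ((s i j + s i (j + 1)) + (s (i + 1) j + s (i + 1) (j + 1))) =
      c k (j + 1) * (s k j + s k (j + 1)) := by
    intro k
    induction k with
    | zero =>
      intro _
      rw [Finset.range_zero, Finset.sum_empty, h1 j hj.le, h1 (j + 1) hj,
        CharTwo.add_self_eq_zero, mul_zero]
    | succ k ih =>
      intro hk
      rw [Finset.sum_range_succ, ih (by omega)]
      have h3 := hv k hk j hj
      have h4 : c k (j + 1) * (s k j + s k (j + 1)) + c k (j + 1) * (s k j + s k (j + 1)) = 0 :=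
        CharTwo.add_self_eq_zero _
      linear_combination h4 + h3
  obtain ⟨a, rfl⟩ : ∃ a', a = a' + 1 := ⟨a - 1, by omega⟩
  rw [Finset.sum_range_succ, key a (by omega), h2 j hj.le, h2 (j + 1) hj]
  have h4 : c a (j + 1) * (s a j + s a (j + 1)) + c a (j + 1) * (s a j + s a (j + 1)) = 0 :=
    CharTwo.add_self_eq_zero _
  linear_combination h4

lemma col (hh : ∀ i < a, ∀ j ≤ b, (s i j + s (i + 1) j) * c i j =
      (s i j + s (i + 1) j) * c i (j + 1)) {i : ℕ} (hi : i < a) {k : ℕ} (hk : k ≤ b) :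
    ∑ j ∈ Finset.range k, c i (j + 1) * ((s i j + s (i + 1) j) + (s i (j + 1) + s (i + 1) (j + 1)))
      = (s i 0 + s (i + 1) 0) * c i 0 + (s i k + s (i + 1) k) * c i k := by
  induction k with
  | zero => rw [Finset.range_zero, Finset.sum_empty, CharTwo.add_self_eq_zero]
  | succ k ih =>
    rw [Finset.sum_range_succ, ih (by omega)]
    have h3 := hh i hi k (by omega)
    have h4 : (s i k + s (i + 1) k) * c i (k + 1) + (s i k + s (i + 1) k) * c i (k + 1) = 0 :=
      CharTwo.add_self_eq_zero _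
    linear_combination h4 + h3

theorem parity (ha : 1 ≤ a) (h1 : ∀ j ≤ b, s 0 j = 1) (h2 : ∀ j ≤ b, s a j = 0)
    (hc0 : ∀ i < a, c i 0 = 1) (hcb : ∀ i < a, c i (b + 1) = 0)
    (hh : ∀ i < a, ∀ j ≤ b, (s i j + s (i + 1) j) * c i j = (s i j + s (i + 1) j) * c i (j + 1))
    (hv : ∀ i, i + 1 < a → ∀ j < b, (s (i + 1) j + s (i + 1) (j + 1)) * c i (j + 1) =
      (s (i + 1) j + s (i + 1) (j + 1)) * c (i + 1) (j + 1)) : False := by
  have e1 : ∑ i ∈ Finset.range a, ∑ j ∈ Finset.range b, c i (j + 1) *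
      ((s i j + s (i + 1) j) + (s i (j + 1) + s (i + 1) (j + 1))) =
      ∑ i ∈ Finset.range a, (s i 0 + s (i + 1) 0) := by
    refine Finset.sum_congr rfl fun i hi => ?_
    have hi := Finset.mem_range.1 hi
    rw [col hh hi le_rfl, hc0 i hi, hh i hi b le_rfl, hcb i hi]
    ring
  have e2 : ∑ i ∈ Finset.range a, ∑ j ∈ Finset.range b, c i (j + 1) *
      ((s i j + s (i + 1) j) + (s i (j + 1) + s (i + 1) (j + 1))) = 0 := by
    rw [Finset.sum_comm]
    refine Finset.sum_eq_zero fun j hj => ?_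
    rw [← row h1 h2 ha hv (Finset.mem_range.1 hj)]
    refine Finset.sum_congr rfl fun i _ => ?_
    ring
  have e3 : ∀ k, ∑ i ∈ Finset.range k, (s i 0 + s (i + 1) 0) = s 0 0 + s k 0 := by
    intro k
    induction k with
    | zero => rw [Finset.range_zero, Finset.sum_empty, CharTwo.add_self_eq_zero]
    | succ k ih =>
      rw [Finset.sum_range_succ, ih]
      have h4 : s k 0 + s k 0 = 0 := CharTwo.add_self_eq_zero _
      linear_combination h4
  rw [e2, e3, h1 0 (Nat.zero_le _), h2 0 (Nat.zero_le _), add_zero] at e1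
  exact zero_ne_one e1

end Parity

lemma conn_step {O : Set Edge} {R : Set V} {x u v : V} (h : Conn (O ∩ eS R) x u) (hu : u ∈ R)
    (hv : v ∈ R) (ha : Adj u v) (ho : edgeOf u v ∈ O) : Conn (O ∩ eS R) x v :=
  h.trans (Step.conn ⟨ha, ho, (edgeOf_mem_eS ha).2 ⟨hu, hv⟩⟩)

/-- the indicator with values in `ZMod 2` -/
noncomputable def ind (P : Prop) : ZMod 2 := open Classical in if P then 1 else 0

lemma ind_true {P : Prop} (h : P) : ind P = 1 := by simp [ind, h]
lemma ind_false {P : Prop} (h : ¬ P) : ind P = 0 := by simp [ind, h]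

lemma ind_congr {P Q : Prop} (h : P ↔ Q) : ind P = ind Q := by
  by_cases hP : P
  · rw [ind_true hP, ind_true (h.1 hP)]
  · rw [ind_false hP, ind_false fun hQ => hP (h.2 hQ)]

lemma ind_mul {P Q A B : Prop} (h : ¬ (P ↔ Q) → (A ↔ B)) :
    (ind P + ind Q) * ind A = (ind P + ind Q) * ind B := by
  by_cases hPQ : P ↔ Q
  · rw [ind_congr hPQ, CharTwo.add_self_eq_zero, zero_mul, zero_mul]
  · rw [ind_congr (h hPQ)]

end DualX

open DualX in
/-- Existence of a blocking dual path. -/
theorem dual_exists (ω : Cfg) {a b : ℕ} (ha : 1 ≤ a)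
    (h : ¬ ∃ x y l, IsP (Op ω) x y l ∧ (∀ v ∈ l, v ∈ rect 0 a 0 b) ∧ x.1 = 0 ∧ y.1 = a) :
    ∃ x y l, IsP (Op (dualC ω)) x y l ∧ (∀ v ∈ l, v ∈ rect 0 (a - 1) (-1) b) ∧
      x.2 = -1 ∧ y.2 = b := by
  classical
  set R : Set V := ↑(rect 0 a 0 b) with hR
  set R' : Set V := ↑(rect 0 ((a : ℤ) - 1) (-1) b) with hR'
  have mR : ∀ x : V, x ∈ R ↔ 0 ≤ x.1 ∧ x.1 ≤ a ∧ 0 ≤ x.2 ∧ x.2 ≤ b := by
    intro x; rw [hR, Finset.mem_coe, mem_rect]
  have mR' : ∀ x : V, x ∈ R' ↔ 0 ≤ x.1 ∧ x.1 ≤ a - 1 ∧ -1 ≤ x.2 ∧ x.2 ≤ b := by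
    intro x; rw [hR', Finset.mem_coe, mem_rect]
  by_contra hcon
  -- the two sets
  let S : V → Prop := fun v => ∃ x, x ∈ R ∧ x.1 = 0 ∧ Conn (Op ω ∩ eS R) x v
  let C : V → Prop := fun v => ∃ x, x ∈ R' ∧ x.2 = -1 ∧ Conn (Op (dualC ω) ∩ eS R') x v
  have hSR : ∀ v, S v → v ∈ R := fun v ⟨x, hx, _, hc⟩ => hc.mem_of_eS hx
  have hCR : ∀ v, C v → v ∈ R' := fun v ⟨x, hx, _, hc⟩ => hc.mem_of_eS hx
  have hSa : ∀ v, S v → v.1 ≠ a := by
    rintro v ⟨x, hx, hx0, hc⟩ hva
    obtain ⟨l, hl⟩ := hc.exists_path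
    refine h ⟨x, v, l, hl.mono Set.inter_subset_left, fun u hu => ?_, hx0, hva⟩
    exact hl.1.mem_of_eS hx u hu
  have hCb : ∀ v, C v → v.2 ≠ b := by
    rintro v ⟨x, hx, hx0, hc⟩ hva
    obtain ⟨l, hl⟩ := hc.exists_path
    refine hcon ⟨x, v, l, hl.mono Set.inter_subset_left, fun u hu => ?_, hx0, hva⟩
    exact hl.1.mem_of_eS hx u hu
  have hSstep : ∀ u v, S u → v ∈ R → Adj u v → ω (edgeOf u v) = true → S v := by
    rintro u v hu hv huv ho
    have huR := hSR u hu
    obtain ⟨x, hx, hx0, hc⟩ := hu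
    exact ⟨x, hx, hx0, conn_step hc huR hv huv ho⟩
  have hCstep : ∀ u v, C u → v ∈ R' → Adj u v → dualC ω (edgeOf u v) = true → C v := by
    rintro u v hu hv huv ho
    have huR := hCR u hu
    obtain ⟨x, hx, hx0, hc⟩ := hu
    exact ⟨x, hx, hx0, conn_step hc huR hv huv ho⟩
  have hSiff : ∀ u v, u ∈ R → v ∈ R → Adj u v → ω (edgeOf u v) = true → (S u ↔ S v) := by
    intro u v hu hv huv ho
    exact ⟨fun hs => hSstep u v hs hv huv ho,
      fun hs => hSstep v u hs hu huv.symm (by rw [edgeOf_comm]; exact ho)⟩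
  have hCiff : ∀ u v, u ∈ R' → v ∈ R' → Adj u v → dualC ω (edgeOf u v) = true → (C u ↔ C v) := by
    intro u v hu hv huv ho
    exact ⟨fun hs => hCstep u v hs hv huv ho,
      fun hs => hCstep v u hs hu huv.symm (by rw [edgeOf_comm]; exact ho)⟩
  refine parity (a := a) (b := b) (s := fun i j => ind (S ((i : ℤ), (j : ℤ))))
    (c := fun i j => ind (C ((i : ℤ), (j : ℤ) - 1))) ha ?_ ?_ ?_ ?_ ?_ ?_
  · intro j hj
    refine ind_true ⟨_, (mR _).2 ?_, ?_, Conn.refl _ _⟩
    · simp only [Nat.cast_zero]; omega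
    · simp
  · intro j hj
    exact ind_false fun hS => hSa _ hS rfl
  · intro i hi
    refine ind_true ⟨_, (mR' _).2 ?_, ?_, Conn.refl _ _⟩
    · simp only [Nat.cast_zero]; omega
    · simp
  · intro i hi
    refine ind_false fun hC => hCb _ hC ?_
    simp
  · intro i hi j hj
    refine ind_mul fun hne => ?_
    have e1 : edgeOf ((i : ℤ), (j : ℤ)) (((i + 1 : ℕ) : ℤ), (j : ℤ)) = (((i : ℤ), (j : ℤ)), false) := by
      have := edgeOf_right ((i : ℤ), (j : ℤ))
      push_cast
      exact this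
    have a1 : Adj ((i : ℤ), (j : ℤ)) (((i + 1 : ℕ) : ℤ), (j : ℤ)) := by
      have := adj_right ((i : ℤ), (j : ℤ))
      push_cast
      exact this
    have hcl : ω (((i : ℤ), (j : ℤ)), false) = false := by
      by_contra hop
      rw [Bool.not_eq_false] at hop
      apply hne
      refine hSiff _ _ ((mR _).2 ?_) ((mR _).2 ?_) a1 (by rw [e1]; exact hop)
      · simp only; omega
      · simp only; omega
    have e2 : (((i : ℤ), ((j + 1 : ℕ) : ℤ) - 1) : V) = ((i : ℤ), ((j : ℤ) - 1) + 1) := by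
      push_cast; ext <;> simp
    rw [e2]
    refine hCiff _ _ ((mR' _).2 ?_) ((mR' _).2 ?_) (adj_up ((i : ℤ), (j : ℤ) - 1)) ?_
    · simp only; omega
    · simp only; omega
    · rw [edgeOf_up ((i : ℤ), (j : ℤ) - 1)]
      simp only [dualC, unstar, sub_add_cancel, hcl, Bool.not_false]
  · intro i hi j hj
    refine ind_mul fun hne => ?_
    have e1 : edgeOf (((i + 1 : ℕ) : ℤ), (j : ℤ)) (((i + 1 : ℕ) : ℤ), ((j + 1 : ℕ) : ℤ)) =
        ((((i + 1 : ℕ) : ℤ), (j : ℤ)), true) := by
      have := edgeOf_up (((i + 1 : ℕ) : ℤ), (j : ℤ))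
      push_cast at this ⊢
      exact this
    have a1 : Adj (((i + 1 : ℕ) : ℤ), (j : ℤ)) (((i + 1 : ℕ) : ℤ), ((j + 1 : ℕ) : ℤ)) := by
      have := adj_up (((i + 1 : ℕ) : ℤ), (j : ℤ))
      push_cast at this ⊢
      exact this
    have hcl : ω ((((i + 1 : ℕ) : ℤ), (j : ℤ)), true) = false := by
      by_contra hop
      rw [Bool.not_eq_false] at hop
      apply hne
      refine hSiff _ _ ((mR _).2 ?_) ((mR _).2 ?_) a1 (by rw [e1]; exact hop)
      · simp only; omega
      · simp only; omega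
    have e2 : ((((i + 1 : ℕ) : ℤ), ((j + 1 : ℕ) : ℤ) - 1) : V) = ((i : ℤ) + 1, (j : ℤ)) := by
      push_cast; ext <;> simp
    have e3 : (((i : ℤ), ((j + 1 : ℕ) : ℤ) - 1) : V) = ((i : ℤ), (j : ℤ)) := by
      push_cast; ext <;> simp
    rw [e2, e3]
    refine hCiff _ _ ((mR' _).2 ?_) ((mR' _).2 ?_) (adj_right ((i : ℤ), (j : ℤ))) ?_
    · simp only; omega
    · simp only; omega
    · rw [edgeOf_right ((i : ℤ), (j : ℤ))]
      push_cast at hcl
      simp only [dualC, unstar, hcl, Bool.not_false]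

end Pool.Agent.SAWP
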