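import Pool.Agent.SAWP.Perc.Planar
import Pool.Agent.SAWP.Perc.Dual

/-!
# SAWP: the blocking lemma for the four arms (module P6)

`Kset k` = edges with at least one endpoint in `[-k,k]²`; their dual edges are exactly the dual
edges inside the square of faces `[-k-1,k]²` (`star_mem`).

`block`: there are no open walk `W` in `[-n,n]²` without edges of `Kset k` from `(-k-1,j)` to
`(k+1,j')`, `|j|,|j'| ≤ k`, and dual-open walks `lT`, `lB` of faces, not using dual edges inside
the face square `[-k-1,k]²`, from a face `(i,k)` resp. `(i',-k-1)` (`-k-1 ≤ i,i' ≤ k`) to faces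
outside `[-n,n-1]²`.

Proof (parity, `par` and `par_telescope` of module P4).  For a face `(i,j₀)` let
`f(i,j₀) = #{steps of W along {(i,y),(i+1,y)}, y ≤ j₀} + [-k ≤ i ≤ k ∧ j' ≤ j₀] + [i = -k-1 ∧ j ≤ j₀]`
mod 2 (the last two terms are the contribution of the closing path `(k+1,j') → (-k,j') → (-k,j) →
(-k-1,j)`, all of whose edges are in `Kset k`).
Moving up: `f(i,j₀+1)+f(i,j₀)` = #steps of `W` along `{(i,j₀+1),(i+1,j₀+1)}` + [that edge is one of
the horizontal closing edges].  Moving right: `f(i,j₀)+f(i-1,j₀)` = #steps of `W` along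
`{(i,j₀),(i,j₀+1)}` + `[i = -k ∧ min j j' ≤ j₀ < max j j']` (telescope `h z = [z₁=i ∧ z₂≤j₀]` along
`W`, whose end values are `[i=-k-1 ∧ j≤j₀]` and `[i=k+1 ∧ j'≤j₀]`).
Hence `f` is constant along `lT` and `lB`: they cross only closed edges not in `Kset k`.
`f = 0` at faces outside `[-n,n-1]²` (left, right, below: nothing counted, note `k+1 ≤ n`; above:
all steps of `W` in the column are counted, telescope `h z=[z₁≤i]`, plus the closing terms: even).
So `f(i_T,k) = 0 = f(i_B,-k-1)`.  But going down column `i_T` from the face `(i_T,k)` to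
`(i_T,-k-1)` crosses only edges `{(i_T,y),(i_T+1,y)}`, `|y| ≤ k`, in `Kset k` (not used by `W`), and
exactly one closing edge: `f(i_T,-k-1) = f(i_T,k)+1`; and along the row `-k-1` of faces `f` is
constant (crossed edges `{(x,-k-1),(x,-k)}`, `|x|≤k`, are in `Kset k` and not closing edges).
Contradiction.
-/

set_option autoImplicit false

namespace Pool.Agent.SAWP

/-- Edges touching the box `[-k,k]²`. -/
def Kset (k : ℕ) : Set Edge := {e | nrm (src e) ≤ k ∨ nrm (tgt e) ≤ k}

/-- The square of faces `[-k-1,k]²`. -/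
noncomputable def fsq (k : ℕ) : Finset V := rect (-(k : ℤ) - 1) k (-(k : ℤ) - 1) k

theorem star_mem (k : ℕ) (e : Edge) : star e ∈ eS (↑(fsq k) : Set V) ↔ e ∈ Kset k := by
  obtain ⟨⟨i, j⟩, t⟩ := e
  cases t
  · simp only [star, eS, Set.mem_setOf_eq, src, tgt, fsq, Finset.mem_coe, mem_rect, Kset, nrm,
      if_true, Bool.false_eq_true, if_false]
    constructor
    · rintro ⟨⟨h1, h2, h3, h4⟩, h5, h6, h7, h8⟩
      omega
    · intro h
      omega
  · simp only [star, eS, Set.mem_setOf_eq, src, tgt, fsq, Finset.mem_coe, mem_rect, Kset, nrm,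
      if_true, Bool.false_eq_true, if_false]
    constructor
    · rintro ⟨⟨h1, h2, h3, h4⟩, h5, h6, h7, h8⟩
      omega
    · intro h
      omega

namespace Block

lemma par_congr {R : V → V → Prop} {P Q : V → V → Bool} :
    ∀ {l : List V}, l.IsChain R → (∀ a b, a ∈ l → b ∈ l → R a b → P a b = Q a b) →
      par P l = par Q l
  | [], _, _ => rfl
  | [_], _, _ => rfl
  | a :: b :: t, hl, h => by
    rw [List.isChain_cons_cons] at hl
    simp only [par]
    rw [h a b (by simp) (by simp) hl.1,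
      par_congr hl.2 (fun x y hx hy hR => h x y (List.mem_cons_of_mem _ hx)
        (List.mem_cons_of_mem _ hy) hR)]

lemma par_xor (P Q : V → V → Bool) : ∀ l : List V,
    par (fun a b => xor (P a b) (Q a b)) l = xor (par P l) (par Q l)
  | [] => rfl
  | [_] => rfl
  | a :: b :: t => by
    simp only [par]
    rw [par_xor P Q (b :: t)]
    cases P a b <;> cases Q a b <;> cases par P (b :: t) <;> cases par Q (b :: t) <;> rfl

lemma par_zero : ∀ l : List V, par (fun _ _ => false) l = false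
  | [] => rfl
  | [_] => rfl
  | a :: b :: t => by
    simp only [par]
    rw [par_zero (b :: t)]; rfl

/-- Steps in the column `i | i+1` at height `≤ j`. -/
def cst (i j : ℤ) (a b : V) : Bool :=
  decide (a.2 = b.2 ∧ a.2 ≤ j ∧ ((a.1 = i ∧ b.1 = i + 1) ∨ (a.1 = i + 1 ∧ b.1 = i)))

/-- Steps along `{(i,j),(i+1,j)}`. -/
def ust (i j : ℤ) (a b : V) : Bool :=
  decide (a.2 = j ∧ b.2 = j ∧ ((a.1 = i ∧ b.1 = i + 1) ∨ (a.1 = i + 1 ∧ b.1 = i)))

/-- Steps along `{(i,j),(i,j+1)}`. -/
def vst (i j : ℤ) (a b : V) : Bool :=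
  decide (a.1 = i ∧ b.1 = i ∧ ((a.2 = j ∧ b.2 = j + 1) ∨ (a.2 = j + 1 ∧ b.2 = j)))

/-- The crossing function of the closed curve. -/
def ff (k : ℕ) (jL jR : ℤ) (W : List V) (i j : ℤ) : Bool :=
  xor (par (cst i j) W) (xor (decide (-(k : ℤ) ≤ i ∧ i ≤ k ∧ jR ≤ j))
    (decide (i = -(k : ℤ) - 1 ∧ jL ≤ j)))

lemma cst_up (i j : ℤ) (a b : V) : xor (cst i (j + 1) a b) (cst i j a b) = ust i (j + 1) a b := by
  unfold cst ust
  by_cases h1 : a.2 = b.2 ∧ ((a.1 = i ∧ b.1 = i + 1) ∨ (a.1 = i + 1 ∧ b.1 = i))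
  · by_cases h2 : a.2 ≤ j
    · rw [decide_eq_true (by omega), decide_eq_true (by omega), decide_eq_false (by omega)]; rfl
    · by_cases h3 : a.2 = j + 1
      · rw [decide_eq_true (by omega), decide_eq_false (by omega), decide_eq_true (by omega)]; rfl
      · rw [decide_eq_false (by omega), decide_eq_false (by omega), decide_eq_false (by omega)]; rfl
  · rw [decide_eq_false (by omega), decide_eq_false (by omega), decide_eq_false (by omega)]; rfl

lemma par_up (i j : ℤ) (W : List V) :
    xor (par (cst i (j + 1)) W) (par (cst i j) W) = par (ust i (j + 1)) W := by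
  rw [← par_xor]
  congr 1
  funext a b
  exact cst_up i j a b

lemma col_id {a b : V} (hab : Adj a b) (i j : ℤ) :
    xor (decide (a.1 = i ∧ a.2 ≤ j)) (decide (b.1 = i ∧ b.2 ≤ j)) =
      xor (cst (i - 1) j a b) (xor (cst i j a b) (vst i j a b)) := by
  obtain ⟨a1, a2⟩ := a
  obtain ⟨b1, b2⟩ := b
  have key : ∀ p q r s t : Prop, ∀ [Decidable p] [Decidable q] [Decidable r] [Decidable s]
      [Decidable t], ((¬ (p ↔ q)) ↔ (r ↔ (s ↔ t))) →
      xor (decide p) (decide q) = xor (decide r) (xor (decide s) (decide t)) := by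
    intro p q r s t _ _ _ _ _ h
    by_cases p <;> by_cases q <;> by_cases r <;> by_cases s <;> by_cases t <;>
      simp_all
  unfold cst vst
  apply key
  rcases adj_cases hab with h | h | h | h <;> simp only [Prod.mk.injEq] at h <;>
    obtain ⟨h1, h2⟩ := h <;> subst h1 <;> subst h2 <;> simp only
  · by_cases e2 : b2 ≤ j
    · by_cases e1 : a1 = i
      · subst e1; simp [e2]; try omega
      · by_cases e3 : a1 = i - 1
        · subst e3; simp [e2]; try omega
        · have e4 : ¬ a1 + 1 = i := by omega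
          simp [e1, e2, e3, e4]
    · simp [e2]; try omega
  · by_cases e1 : b1 = i
    · by_cases e2 : a2 ≤ j
      · by_cases e3 : a2 = j
        · simp [e1, e3]
        · have e4 : a2 + 1 ≤ j := by omega
          simp [e1, e2, e3, e4]
          omega
      · have e4 : ¬ a2 + 1 ≤ j := by omega
        simp [e1, e2, e4]
        omega
    · simp [e1]
  · by_cases e2 : a2 ≤ j
    · by_cases e1 : b1 = i
      · subst e1; simp [e2]; try omega
      · by_cases e3 : b1 = i - 1
        · subst e3; simp [e2]; try omega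
        · have e4 : ¬ b1 + 1 = i := by omega
          simp [e1, e2, e3, e4]
    · simp [e2]; try omega
  · by_cases e1 : a1 = i
    · by_cases e2 : b2 ≤ j
      · by_cases e3 : b2 = j
        · simp [e1, e3]
        · have e4 : b2 + 1 ≤ j := by omega
          simp [e1, e2, e3, e4]
          omega
      · have e4 : ¬ b2 + 1 ≤ j := by omega
        simp [e1, e2, e4]
        omega
    · simp [e1]

lemma par_col {O : Set Edge} {x y : V} {W : List V} (hW : IsW O x y W) (i j : ℤ) :
    xor (par (cst (i - 1) j) W) (xor (par (cst i j) W) (par (vst i j) W)) =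
      xor (decide (x.1 = i ∧ x.2 ≤ j)) (decide (y.1 = i ∧ y.2 ≤ j)) := by
  rw [← par_xor, ← par_xor, ← par_telescope (fun z => decide (z.1 = i ∧ z.2 ≤ j)) hW]
  refine (par_congr hW.1 (fun a b _ _ h => ?_)).symm
  exact col_id h.1 i j

lemma ust_false {O : Set Edge} {x y : V} {W : List V} (hW : IsW O x y W) {i j : ℤ}
    (h : ((i, j), false) ∉ O) : par (ust i j) W = false := by
  rw [← par_zero W]
  refine par_congr hW.1 (fun a b _ _ hs => ?_)
  unfold ust
  rw [decide_eq_false_iff_not]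
  rintro ⟨h1, h2, h3⟩
  apply h
  have := hs.2
  obtain ⟨a1, a2⟩ := a
  obtain ⟨b1, b2⟩ := b
  simp only at h1 h2 h3
  subst h1; subst h2
  rcases h3 with ⟨h3, h4⟩ | ⟨h3, h4⟩
  · subst h3; subst h4
    rwa [show ((a1 + 1, b2) : V) = ((a1, b2).1 + 1, (a1, b2).2) from rfl, edgeOf_right] at this
  · subst h3; subst h4
    rwa [edgeOf_comm, show ((b1 + 1, b2) : V) = ((b1, b2).1 + 1, (b1, b2).2) from rfl,
      edgeOf_right] at this

lemma vst_false {O : Set Edge} {x y : V} {W : List V} (hW : IsW O x y W) {i j : ℤ}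
    (h : ((i, j), true) ∉ O) : par (vst i j) W = false := by
  rw [← par_zero W]
  refine par_congr hW.1 (fun a b _ _ hs => ?_)
  unfold vst
  rw [decide_eq_false_iff_not]
  rintro ⟨h1, h2, h3⟩
  apply h
  have := hs.2
  obtain ⟨a1, a2⟩ := a
  obtain ⟨b1, b2⟩ := b
  simp only at h1 h2 h3
  subst h1; subst h2
  rcases h3 with ⟨h3, h4⟩ | ⟨h3, h4⟩
  · subst h3; subst h4
    rwa [show ((b1, a2 + 1) : V) = ((b1, a2).1, (b1, a2).2 + 1) from rfl, edgeOf_up] at this
  · subst h3; subst h4
    rwa [edgeOf_comm, show ((b1, b2 + 1) : V) = ((b1, b2).1, (b1, b2).2 + 1) from rfl,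
      edgeOf_up] at this

section
variable {k n : ℕ} {ω : Cfg} {W : List V} {xL xR : V}
  (hW : IsW (Op ω \ Kset k) xL xR W)
  (hL1 : xL.1 = -(k : ℤ) - 1) (hL2 : |xL.2| ≤ (k : ℤ))
  (hR1 : xR.1 = (k : ℤ) + 1) (hR2 : |xR.2| ≤ (k : ℤ))

include hW hL1 hL2 hR1 hR2

/-- Moving up across an edge not used by `W` and not in `Kset`. -/
lemma ff_up {i j : ℤ} (h1 : ((i, j + 1), false) ∉ Op ω \ Kset k)
    (h2 : ((i, j + 1), false) ∉ Kset k) :
    ff k xL.2 xR.2 W i (j + 1) = ff k xL.2 xR.2 W i j := by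
  have h3 := par_up i j W
  rw [ust_false hW h1] at h3
  have h4 : par (cst i (j + 1)) W = par (cst i j) W := by
    revert h3
    cases par (cst i (j + 1)) W <;> cases par (cst i j) W <;> simp
  have h5 : ¬ (|i| ≤ (k : ℤ) ∧ |j + 1| ≤ (k : ℤ)) := by
    intro h
    apply h2
    left
    simp only [src, nrm]
    rw [abs_le] at h
    rw [abs_le] at h
    omega
  have h6 : ¬ (|i + 1| ≤ (k : ℤ) ∧ |j + 1| ≤ (k : ℤ)) := by
    intro h
    apply h2
    right
    simp only [tgt, nrm, Bool.false_eq_true, if_false]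
    rw [abs_le] at h
    rw [abs_le] at h
    omega
  rw [abs_le] at hL2 hR2
  simp only [abs_le] at h5 h6
  unfold ff
  rw [h4]
  congr 2
  · rw [decide_eq_decide]
    constructor
    · rintro ⟨ha, hb, hc⟩
      refine ⟨ha, hb, ?_⟩
      by_contra hne
      apply h5
      omega
    · rintro ⟨ha, hb, hc⟩
      exact ⟨ha, hb, by omega⟩
  · rw [decide_eq_decide]
    constructor
    · rintro ⟨ha, hb⟩
      refine ⟨ha, ?_⟩
      by_contra hne
      apply h6
      omega
    · rintro ⟨ha, hb⟩
      exact ⟨ha, by omega⟩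

/-- Moving right, general formula. -/
lemma ff_right {i j : ℤ} (h1 : ((i, j), true) ∉ Op ω \ Kset k)
    (h2 : i = -(k : ℤ) → (xL.2 ≤ j ↔ xR.2 ≤ j)) :
    ff k xL.2 xR.2 W i j = ff k xL.2 xR.2 W (i - 1) j := by
  have h3 := par_col hW i j
  rw [vst_false hW h1] at h3
  have h4 : par (cst i j) W = xor (par (cst (i - 1) j) W)
      (xor (decide (xL.1 = i ∧ xL.2 ≤ j)) (decide (xR.1 = i ∧ xR.2 ≤ j))) := by
    rw [← h3]
    cases par (cst (i - 1) j) W <;> cases par (cst i j) W <;> rfl
  unfold ff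
  rw [h4, hL1, hR1]
  have key : xor (xor (decide (-(k : ℤ) - 1 = i ∧ xL.2 ≤ j)) (decide ((k : ℤ) + 1 = i ∧ xR.2 ≤ j)))
      (xor (decide (-(k : ℤ) ≤ i ∧ i ≤ k ∧ xR.2 ≤ j)) (decide (i = -(k : ℤ) - 1 ∧ xL.2 ≤ j))) =
      xor (decide (-(k : ℤ) ≤ i - 1 ∧ i - 1 ≤ k ∧ xR.2 ≤ j))
        (decide (i - 1 = -(k : ℤ) - 1 ∧ xL.2 ≤ j)) := by
    by_cases e1 : i = -(k : ℤ) - 1
    · by_cases e2 : xL.2 ≤ j
      · rw [decide_eq_true (by omega), decide_eq_false (by omega), decide_eq_false (by omega),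
          decide_eq_true (by omega), decide_eq_false (by omega), decide_eq_false (by omega)]; rfl
      · rw [decide_eq_false (by omega), decide_eq_false (by omega), decide_eq_false (by omega),
          decide_eq_false (by omega), decide_eq_false (by omega), decide_eq_false (by omega)]
        rfl
    · by_cases e3 : i = (k : ℤ) + 1
      · by_cases e2 : xR.2 ≤ j
        · rw [decide_eq_false (by omega), decide_eq_true (by omega), decide_eq_false (by omega),
            decide_eq_false (by omega), decide_eq_true (by omega), decide_eq_false (by omega)]; rfl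
        · rw [decide_eq_false (by omega), decide_eq_false (by omega), decide_eq_false (by omega),
            decide_eq_false (by omega), decide_eq_false (by omega), decide_eq_false (by omega)]
          rfl
      · by_cases e4 : i = -(k : ℤ)
        · have h5 := h2 e4
          by_cases e2 : xR.2 ≤ j
          · rw [decide_eq_false (by omega), decide_eq_false (by omega), decide_eq_true (by omega),
              decide_eq_false (by omega), decide_eq_false (by omega), decide_eq_true (by omega)]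
            rfl
          · rw [decide_eq_false (by omega), decide_eq_false (by omega), decide_eq_false (by omega),
              decide_eq_false (by omega), decide_eq_false (by omega), decide_eq_false (by omega)]
            rfl
        · by_cases e5 : -(k : ℤ) ≤ i ∧ i ≤ k ∧ xR.2 ≤ j
          · rw [decide_eq_false (by omega), decide_eq_false (by omega), decide_eq_true (by omega),
              decide_eq_false (by omega), decide_eq_true (by omega), decide_eq_false (by omega)]
            rfl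
          · rw [decide_eq_false (by omega), decide_eq_false (by omega), decide_eq_false (by omega),
              decide_eq_false (by omega), decide_eq_false (by omega), decide_eq_false (by omega)]
            rfl
  rw [Bool.xor_assoc, key]

lemma ff_step {φ ψ : V} (h : Step (Op (dualC ω) \ eS (↑(fsq k) : Set V)) φ ψ) :
    ff k xL.2 xR.2 W φ.1 φ.2 = ff k xL.2 xR.2 W ψ.1 ψ.2 := by
  obtain ⟨hadj, hop, hnot⟩ := h
  have hcl : ∀ d : Edge, d = edgeOf φ ψ → unstar d ∉ Op ω ∧ unstar d ∉ Kset k := by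
    intro d hd
    rw [← hd] at hop hnot
    constructor
    · intro h
      simp only [Op, Set.mem_setOf_eq, dualC] at hop h
      rw [h] at hop
      simp at hop
    · intro h
      rw [← star_mem] at h
      have : star (unstar d) = d := starE.right_inv d
      rw [this] at h
      exact hnot h
  rw [abs_le] at hL2 hR2
  rcases adj_cases hadj with h | h | h | h
  · -- right
    subst h
    have hc := hcl (φ, false) (edgeOf_right φ).symm
    obtain ⟨i, j⟩ := φ
    simp only [unstar] at hc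
    have := ff_right hW hL1 (abs_le.2 hL2) hR1 (abs_le.2 hR2) (i := i + 1) (j := j)
      (fun h => hc.1 h.1) ?_
    · simpa using this.symm
    · intro hi
      have h5 : ¬ (nrm (i + 1, j) ≤ k) := fun h => hc.2 (Or.inl h)
      have h6 : ¬ (nrm (i + 1, j + 1) ≤ k) := fun h => hc.2 (Or.inr (by simpa [tgt] using h))
      simp only [nrm] at h5 h6
      omega
  · subst h
    have hc := hcl (φ, true) (edgeOf_up φ).symm
    obtain ⟨i, j⟩ := φ
    simp only [unstar] at hc
    exact (ff_up hW hL1 (abs_le.2 hL2) hR1 (abs_le.2 hR2) (i := i) (j := j)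
      (fun h => hc.1 h.1) hc.2).symm
  · subst h
    have hc := hcl (ψ, false) (by rw [edgeOf_comm]; exact (edgeOf_right ψ).symm)
    obtain ⟨i, j⟩ := ψ
    simp only [unstar] at hc
    have := ff_right hW hL1 (abs_le.2 hL2) hR1 (abs_le.2 hR2) (i := i + 1) (j := j)
      (fun h => hc.1 h.1) ?_
    · simpa using this
    · intro hi
      have h5 : ¬ (nrm (i + 1, j) ≤ k) := fun h => hc.2 (Or.inl h)
      have h6 : ¬ (nrm (i + 1, j + 1) ≤ k) := fun h => hc.2 (Or.inr (by simpa [tgt] using h))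
      simp only [nrm] at h5 h6
      omega
  · subst h
    have hc := hcl (ψ, true) (by rw [edgeOf_comm]; exact (edgeOf_up ψ).symm)
    obtain ⟨i, j⟩ := ψ
    simp only [unstar] at hc
    exact ff_up hW hL1 (abs_le.2 hL2) hR1 (abs_le.2 hR2) (i := i) (j := j)
      (fun h => hc.1 h.1) hc.2

lemma ff_chain : ∀ {l : List V} {φ ψ : V},
    IsW (Op (dualC ω) \ eS (↑(fsq k) : Set V)) φ ψ l →
    ff k xL.2 xR.2 W φ.1 φ.2 = ff k xL.2 xR.2 W ψ.1 ψ.2
  | [], φ, ψ, h => by simp [IsW] at h
  | [a], φ, ψ, h => by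
    simp only [IsW, List.head?_cons, Option.some.injEq, List.getLast?_singleton] at h
    rw [← h.2.1, ← h.2.2]
  | a :: b :: t, φ, ψ, h => by
    obtain ⟨h1, h2, h3⟩ := h
    rw [List.isChain_cons_cons] at h1
    simp only [List.head?_cons, Option.some.injEq] at h2
    subst h2
    rw [ff_step hW hL1 hL2 hR1 hR2 h1.1]
    refine ff_chain (l := b :: t) ⟨h1.2, by simp, ?_⟩
    rw [← h3, List.getLast?_cons_cons]

lemma ff_out (hkn : k < n) (hWn : ∀ v ∈ W, nrm v ≤ n) {ψ : V}
    (hψ : ψ ∉ rect (-(n : ℤ)) (n - 1) (-(n : ℤ)) (n - 1)) :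
    ff k xL.2 xR.2 W ψ.1 ψ.2 = false := by
  obtain ⟨i, j⟩ := ψ
  rw [mem_rect] at hψ
  simp only at hψ ⊢
  rw [abs_le] at hL2 hR2
  by_cases h1 : i < -(n : ℤ) ∨ (n : ℤ) ≤ i ∨ j < -(n : ℤ)
  · have hc : par (cst i j) W = false := by
      rw [← par_zero W]
      refine par_congr hW.1 (fun a b ha hb _ => ?_)
      have ha' := hWn a ha
      have hb' := hWn b hb
      simp only [nrm] at ha' hb'
      unfold cst
      rw [decide_eq_false_iff_not]
      omega
    unfold ff
    rw [hc, decide_eq_false (by omega), decide_eq_false (by omega)]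
    rfl
  · have h2 : (n : ℤ) ≤ j := by omega
    have hc : par (cst i j) W = xor (decide (xL.1 ≤ i)) (decide (xR.1 ≤ i)) := by
      rw [← par_telescope (fun z => decide (z.1 ≤ i)) hW]
      refine par_congr hW.1 (fun a b ha hb hs => ?_)
      have ha' := hWn a ha
      have hb' := hWn b hb
      simp only [nrm] at ha' hb'
      obtain ⟨a1, a2⟩ := a
      obtain ⟨b1, b2⟩ := b
      unfold cst
      simp only at ha' hb' ⊢
      rcases adj_cases hs.1 with h | h | h | h <;> simp only [Prod.mk.injEq] at h <;>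
        obtain ⟨h3, h4⟩ := h <;> subst h3 <;> subst h4
      · by_cases e : a1 = i
        · rw [decide_eq_true (by omega), decide_eq_true (by omega), decide_eq_false (by omega)]; rfl
        · rw [decide_eq_false (by omega),
            show decide (a1 ≤ i) = decide (a1 + 1 ≤ i) from decide_eq_decide.2 (by omega)]
          simp
      · rw [decide_eq_false (by omega)]
        simp
      · by_cases e : b1 = i
        · rw [decide_eq_true (by omega), decide_eq_false (by omega), decide_eq_true (by omega)]; rfl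
        · rw [decide_eq_false (by omega),
            show decide (b1 + 1 ≤ i) = decide (b1 ≤ i) from decide_eq_decide.2 (by omega)]
          simp
      · rw [decide_eq_false (by omega)]
        simp
    unfold ff
    rw [hc, hL1, hR1]
    by_cases e1 : i < -(k : ℤ) - 1
    · rw [decide_eq_false (by omega), decide_eq_false (by omega), decide_eq_false (by omega),
        decide_eq_false (by omega)]; rfl
    · by_cases e2 : i = -(k : ℤ) - 1
      · rw [decide_eq_true (by omega), decide_eq_false (by omega), decide_eq_false (by omega),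
          decide_eq_true (by omega)]; rfl
      · by_cases e3 : i ≤ k
        · rw [decide_eq_true (by omega), decide_eq_false (by omega), decide_eq_true (by omega),
            decide_eq_false (by omega)]; rfl
        · rw [decide_eq_true (by omega), decide_eq_true (by omega), decide_eq_false (by omega),
            decide_eq_false (by omega)]; rfl

/-- In the columns of the face square nothing of `W` is between the rows `-k-1` and `k`. -/
lemma ff_down {i : ℤ} (h1 : -(k : ℤ) - 1 ≤ i) (h2 : i ≤ k) :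
    ff k xL.2 xR.2 W i (-(k : ℤ) - 1) = !(ff k xL.2 xR.2 W i k) := by
  rw [abs_le] at hL2 hR2
  have hc : par (cst i (-(k : ℤ) - 1)) W = par (cst i k) W := by
    refine par_congr hW.1 (fun a b ha hb hs => ?_)
    unfold cst
    rw [decide_eq_decide]
    constructor
    · rintro ⟨h3, h4, h5⟩
      exact ⟨h3, by omega, h5⟩
    · rintro ⟨h3, h4, h5⟩
      refine ⟨h3, ?_, h5⟩
      by_contra hne
      apply hs.2.2
      rcases edgeOf_ends hs.1 with ⟨e1, e2⟩ | ⟨e1, e2⟩
      · simp only [Kset, Set.mem_setOf_eq, e1, e2, nrm]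
        omega
      · simp only [Kset, Set.mem_setOf_eq, e1, e2, nrm]
        omega
  unfold ff
  rw [hc, decide_eq_false (show ¬(-(k : ℤ) ≤ i ∧ i ≤ k ∧ xR.2 ≤ -(k : ℤ) - 1) by omega),
    decide_eq_false (show ¬(i = -(k : ℤ) - 1 ∧ xL.2 ≤ -(k : ℤ) - 1) by omega)]
  by_cases e : i = -(k : ℤ) - 1
  · rw [decide_eq_false (show ¬(-(k : ℤ) ≤ i ∧ i ≤ k ∧ xR.2 ≤ (k : ℤ)) by omega),
      decide_eq_true (show (i = -(k : ℤ) - 1 ∧ xL.2 ≤ (k : ℤ)) by omega)]
    cases par (cst i k) W <;> rfl
  · rw [decide_eq_true (show (-(k : ℤ) ≤ i ∧ i ≤ k ∧ xR.2 ≤ (k : ℤ)) by omega),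
      decide_eq_false (show ¬(i = -(k : ℤ) - 1 ∧ xL.2 ≤ (k : ℤ)) by omega)]
    cases par (cst i k) W <;> rfl

lemma ff_row1 {i : ℤ} (h1 : -(k : ℤ) ≤ i) (h2 : i ≤ k) :
    ff k xL.2 xR.2 W i (-(k : ℤ) - 1) = ff k xL.2 xR.2 W (i - 1) (-(k : ℤ) - 1) := by
  have hL2' := abs_le.1 hL2
  have hR2' := abs_le.1 hR2
  refine ff_right hW hL1 hL2 hR1 hR2 ?_ ?_
  · intro h
    apply h.2
    right
    simp only [tgt, nrm, if_true]
    omega
  · intro _
    omega

lemma ff_row (m : ℕ) (h2 : (m : ℤ) ≤ 2 * k + 1) :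
    ff k xL.2 xR.2 W (-(k : ℤ) - 1 + m) (-(k : ℤ) - 1) =
      ff k xL.2 xR.2 W (-(k : ℤ) - 1) (-(k : ℤ) - 1) := by
  induction m with
  | zero => simp
  | succ m ih =>
    rw [← ih (by push_cast at h2; omega)]
    have := ff_row1 hW hL1 hL2 hR1 hR2 (i := -(k : ℤ) - 1 + ((m + 1 : ℕ) : ℤ))
      (by push_cast; omega) (by push_cast at h2 ⊢; omega)
    rw [this]
    congr 1
    push_cast; ring

lemma ff_row' {i : ℤ} (h1 : -(k : ℤ) - 1 ≤ i) (h2 : i ≤ k) :
    ff k xL.2 xR.2 W i (-(k : ℤ) - 1) = ff k xL.2 xR.2 W (-(k : ℤ) - 1) (-(k : ℤ) - 1) := by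
  have := ff_row hW hL1 hL2 hR1 hR2 (i + k + 1).toNat (by omega)
  rw [← this]
  congr 1
  omega

end

end Block

open Block in
theorem block {k n : ℕ} (hkn : k < n) {ω : Cfg} {W lT lB : List V} {xL xR φT ψT φB ψB : V}
    (hW : IsW (Op ω \ Kset k) xL xR W) (hWn : ∀ v ∈ W, nrm v ≤ n)
    (hL1 : xL.1 = -(k : ℤ) - 1) (hL2 : |xL.2| ≤ (k : ℤ))
    (hR1 : xR.1 = (k : ℤ) + 1) (hR2 : |xR.2| ≤ (k : ℤ))
    (hT : IsW (Op (dualC ω) \ eS (↑(fsq k) : Set V)) φT ψT lT)
    (hT1 : φT.2 = (k : ℤ)) (hT2 : φT ∈ fsq k)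
    (hT3 : ψT ∉ rect (-(n : ℤ)) (n - 1) (-(n : ℤ)) (n - 1))
    (hB : IsW (Op (dualC ω) \ eS (↑(fsq k) : Set V)) φB ψB lB)
    (hB1 : φB.2 = -(k : ℤ) - 1) (hB2 : φB ∈ fsq k)
    (hB3 : ψB ∉ rect (-(n : ℤ)) (n - 1) (-(n : ℤ)) (n - 1)) : False := by
  have t1 := ff_chain hW hL1 hL2 hR1 hR2 hT
  have t2 := ff_out hW hL1 hL2 hR1 hR2 hkn hWn hT3
  have b1 := ff_chain hW hL1 hL2 hR1 hR2 hB
  have b2 := ff_out hW hL1 hL2 hR1 hR2 hkn hWn hB3
  rw [t2, hT1] at t1
  rw [b2, hB1] at b1
  rw [fsq, mem_rect] at hT2 hB2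
  have d := ff_down hW hL1 hL2 hR1 hR2 (i := φT.1) hT2.1 hT2.2.1
  rw [t1, ff_row' hW hL1 hL2 hR1 hR2 hT2.1 hT2.2.1] at d
  rw [ff_row' hW hL1 hL2 hR1 hR2 hB2.1 hB2.2.1, d] at b1
  simp at b1

end Pool.Agent.SAWP
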