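import Pool.Agent.SAWP.Meas

/-!
# SAWP: Russo's formula and monotonicity in `p` (module P2)

`pol D f q = ∑_{T ⊆ D} q^|T| (1-q)^(|D|-|T|) f T`.
Proof of `hasDerivAt_pol`: induction on `D` with
`pol (insert e D) f q = q * pol D (fun T => f (insert e T)) q + (1-q) * pol D f q` for `e ∉ D`
(note that in `pol D` only `T ⊆ D` matter, so `T.erase e = T`), product rule.
Monotonicity: derivative `≥ 0` on `[0,1]`, or the coupling (thinning) of module P3.
-/

set_option autoImplicit false

open MeasureTheory

namespace Pool.Agent.SAWP

namespace Russo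

theorem pol_congr {D : Finset Edge} {f g : Finset Edge → ℝ} {q : ℝ}
    (h : ∀ T ⊆ D, f T = g T) : pol D f q = pol D g q := by
  unfold pol
  refine Finset.sum_congr rfl fun T hT => ?_
  rw [h T (Finset.mem_powerset.1 hT)]

theorem pol_sub (D : Finset Edge) (f g : Finset Edge → ℝ) (q : ℝ) :
    pol D (fun T => f T - g T) q = pol D f q - pol D g q := by
  unfold pol
  rw [← Finset.sum_sub_distrib]
  refine Finset.sum_congr rfl fun T _ => ?_
  ring

theorem pol_nonneg {D : Finset Edge} {f : Finset Edge → ℝ} {q : ℝ} (h0 : 0 ≤ q) (h1 : q ≤ 1)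
    (h : ∀ T ⊆ D, 0 ≤ f T) : 0 ≤ pol D f q := by
  unfold pol
  refine Finset.sum_nonneg fun T hT => ?_
  have h2 : 0 ≤ 1 - q := by linarith
  have h3 := h T (Finset.mem_powerset.1 hT)
  positivity

end Russo

theorem pol_insert {D : Finset Edge} {e : Edge} (he : e ∉ D) (f : Finset Edge → ℝ) (q : ℝ) :
    pol (insert e D) f q =
      q * pol D (fun T => f (insert e T)) q + (1 - q) * pol D f q := by
  unfold pol
  rw [Finset.sum_powerset_insert he, Finset.mul_sum, Finset.mul_sum, add_comm]
  congr 1
  · refine Finset.sum_congr rfl fun T hT => ?_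
    have hT' := Finset.mem_powerset.1 hT
    have heT : e ∉ T := fun h => he (hT' h)
    rw [Finset.card_insert_of_notMem he, Finset.card_insert_of_notMem heT,
      Nat.add_sub_add_right, pow_succ]
    ring
  · refine Finset.sum_congr rfl fun T hT => ?_
    have hT' := Finset.card_le_card (Finset.mem_powerset.1 hT)
    rw [Finset.card_insert_of_notMem he, Nat.sub_add_comm hT', pow_succ]
    ring

/-- Russo's formula. -/
theorem hasDerivAt_pol (D : Finset Edge) (f : Finset Edge → ℝ) (q : ℝ) :
    HasDerivAt (pol D f) (∑ e ∈ D, pol D (fun T => f (insert e T) - f (T.erase e)) q) q := by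
  induction D using Finset.induction_on generalizing f with
  | empty =>
    have h1 : pol ∅ f = fun _ => f ∅ := by
      funext x; simp [pol]
    rw [h1, Finset.sum_empty]
    exact hasDerivAt_const q (f ∅)
  | insert e D he ih =>
    have h1 : pol (insert e D) f =
        fun x => x * pol D (fun T => f (insert e T)) x + (1 - x) * pol D f x := by
      funext x; exact pol_insert he f x
    have h2 := ((hasDerivAt_id q).mul (ih (fun T => f (insert e T)))).add
      (((hasDerivAt_const q (1 : ℝ)).sub (hasDerivAt_id q)).mul (ih f))
    have h3 : ∑ d ∈ insert e D, pol (insert e D) (fun T => f (insert d T) - f (T.erase d)) q =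
        1 * pol D (fun T => f (insert e T)) q +
          q * ∑ d ∈ D, pol D (fun T => f (insert e (insert d T)) - f (insert e (T.erase d))) q +
        ((0 - 1) * pol D f q + (1 - q) * ∑ d ∈ D, pol D (fun T => f (insert d T) - f (T.erase d)) q)
        := by
      rw [Finset.sum_insert he, pol_insert he]
      have e1 : pol D (fun T => f (insert e (insert e T)) - f ((insert e T).erase e)) q =
          pol D (fun T => f (insert e T)) q - pol D f q := by
        rw [← Russo.pol_sub]
        refine Russo.pol_congr fun T hT => ?_
        have heT : e ∉ T := fun h => he (hT h)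
        rw [Finset.insert_idem, Finset.erase_insert heT]
      have e2 : pol D (fun T => f (insert e T) - f (T.erase e)) q =
          pol D (fun T => f (insert e T)) q - pol D f q := by
        rw [← Russo.pol_sub]
        refine Russo.pol_congr fun T hT => ?_
        have heT : e ∉ T := fun h => he (hT h)
        rw [Finset.erase_eq_of_notMem heT]
      have e3 : ∑ d ∈ D, pol (insert e D) (fun T => f (insert d T) - f (T.erase d)) q =
          q * ∑ d ∈ D, pol D (fun T => f (insert e (insert d T)) - f (insert e (T.erase d))) q +
          (1 - q) * ∑ d ∈ D, pol D (fun T => f (insert d T) - f (T.erase d)) q := by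
        rw [Finset.mul_sum, Finset.mul_sum, ← Finset.sum_add_distrib]
        refine Finset.sum_congr rfl fun d hd => ?_
        rw [pol_insert he]
        congr 2
        refine Russo.pol_congr fun T _ => ?_
        have hde : d ≠ e := by rintro rfl; exact he hd
        rw [Finset.insert_comm, Finset.erase_insert_of_ne hde.symm]
      rw [e1, e2, e3]
      ring
    rw [h3, h1]
    exact h2

theorem pol_mono_fun {D : Finset Edge} {f g : Finset Edge → ℝ} {q : ℝ} (h0 : 0 ≤ q) (h1 : q ≤ 1)
    (h : ∀ T ⊆ D, f T ≤ g T) : pol D f q ≤ pol D g q := by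
  have h2 := Russo.pol_nonneg (D := D) (f := fun T => g T - f T) h0 h1
    (fun T hT => sub_nonneg.2 (h T hT))
  rw [Russo.pol_sub] at h2
  linarith

/-- `pol D f q` is the expectation of `f` under the percolation measure (for events). -/
theorem pol_indicator (q : unitInterval) {D : Finset Edge} (P : Finset Edge → Prop) :
    pol D (fun T => by classical exact if P T then 1 else 0) q.1 =
      PR q {ω | P (by classical exact D.filter (fun e => ω e = true))} := by
  classical
  have hdep : Dep (↑D : Set Edge) {ω | P (D.filter (fun e => ω e = true))} := by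
    intro ω ω' h
    have : D.filter (fun e => ω e = true) = D.filter (fun e => ω' e = true) := by
      refine Finset.filter_congr fun e he => ?_
      rw [h e he]
    simp only [Set.mem_ofPred_eq, this]
  have h1 := PR_finite q hdep
  have h2 : PR q {ω | P (by classical exact D.filter (fun e => ω e = true))} =
      PR q {ω | P (D.filter (fun e => ω e = true))} := by
    congr 1
  rw [h2, h1]
  refine Russo.pol_congr fun T hT => ?_
  have h3 : D.filter (fun e => cfgOf T e = true) = T := by
    ext e
    simp only [Finset.mem_filter, cfgOf, decide_eq_true_eq]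
    exact ⟨fun h => h.2, fun h => ⟨hT h, h⟩⟩
  have h4 : cfgOf T ∈ {ω : Cfg | P (D.filter (fun e => ω e = true))} ↔ P T := by
    simp only [Set.mem_ofPred_eq, h3]
  by_cases hP : P T
  · rw [if_pos hP, if_pos (h4.2 hP)]
  · rw [if_neg hP, if_neg (fun h => hP (h4.1 h))]

/-- Monotonicity in the parameter. -/
theorem PR_mono_param {p q : unitInterval} (hpq : p ≤ q) {A : Set Cfg} (hA : Incr A) (hF : FD A) :
    PR p A ≤ PR q A := by
  classical
  obtain ⟨D, hD⟩ := hF
  rw [PR_finite p hD, PR_finite q hD]
  set f : Finset Edge → ℝ := fun T => if cfgOf T ∈ A then 1 else 0 with hf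
  have hmono : MonotoneOn (pol D f) (Set.Icc 0 1) := by
    refine monotoneOn_of_deriv_nonneg (convex_Icc 0 1)
      (fun x _ => (hasDerivAt_pol D f x).continuousAt.continuousWithinAt)
      (fun x _ => (hasDerivAt_pol D f x).differentiableAt.differentiableWithinAt) ?_
    intro x hx
    rw [interior_Icc] at hx
    rw [(hasDerivAt_pol D f x).deriv]
    refine Finset.sum_nonneg fun e _ => ?_
    refine Russo.pol_nonneg hx.1.le hx.2.le fun T _ => ?_
    have key : cfgOf (T.erase e) ∈ A → cfgOf (insert e T) ∈ A := by
      refine hA _ _ fun d hd => ?_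
      simp only [cfgOf, decide_eq_true_eq] at hd ⊢
      exact Finset.mem_insert_of_mem (Finset.mem_of_mem_erase hd)
    simp only [hf]
    by_cases h1 : cfgOf (T.erase e) ∈ A
    · rw [if_pos h1, if_pos (key h1), sub_self]
    · rw [if_neg h1, sub_zero]
      split_ifs <;> norm_num
  exact hmono ⟨p.2.1, p.2.2⟩ ⟨q.2.1, q.2.2⟩ hpq

end Pool.Agent.SAWP
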