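import Pool.Agent.SAWP.Perc.Events
import Pool.Agent.SAWP.Perc.Russo

/-!
# SAWP: counting boundary clusters (module P11)

Let `T_n(ω)` be the number of classes of the vertices `y` with `nrm y = n` under the relation joined by
open edges inside `Λ_n`.  `0 ≤ T_n ≤ #{nrm y = n} ≤ 8n` (`n ≥ 1`).  Opening the edge `e` can only merge
classes, and it does merge two of them when `D_n(e)` holds: `T_n(ω ∪ e) - T_n(ω \ e) ≤ -1_{Pivot n e}`.
With Russo's formula (`hasDerivAt_pol`, `D = eF (box 0 n)`, `f T = T_n (cfgOf T)`):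
`d/dq E_q T_n ≤ - ∑_{e ∈ D} P_q(Pivot n e) ≤ -c` on `[q₁,q₂]`, so `(q₂-q₁) c ≤ E_{q₁} T_n ≤ 8 n`.
-/

set_option autoImplicit false

open MeasureTheory

namespace Pool.Agent.SAWP

namespace Count

open Classical in
/-- The class of `y` inside the finite set `B`, for the connections along the edges of `O`. -/
noncomputable def cls (O : Set Edge) (B : Finset V) (y : V) : Finset V :=
  B.filter (fun z => Conn O y z)

open Classical in
/-- The number of classes of `B` for the connections along the edges of `O`. -/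
noncomputable def cnt (O : Set Edge) (B : Finset V) : ℕ := (B.image (cls O B)).card

open Classical in
/-- The map from classes for `O` to classes for a larger edge set `O'`. -/
noncomputable def grow (O' : Set Edge) (B : Finset V) (C : Finset V) : Finset V :=
  B.filter (fun z => ∃ y ∈ C, Conn O' y z)

lemma mem_cls {O : Set Edge} {B : Finset V} {y z : V} : z ∈ cls O B y ↔ z ∈ B ∧ Conn O y z := by
  simp [cls]

lemma grow_cls {O O' : Set Edge} (hO : O ⊆ O') {B : Finset V} {y : V} (hy : y ∈ B) :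
    grow O' B (cls O B y) = cls O' B y := by
  ext z
  simp only [grow, mem_cls, Finset.mem_filter]
  constructor
  · rintro ⟨h1, y', ⟨-, h2⟩, h3⟩
    exact ⟨h1, (h2.mono hO).trans h3⟩
  · rintro ⟨h1, h2⟩
    exact ⟨h1, y, ⟨hy, Conn.refl O y⟩, h2⟩

open Classical in
lemma image_grow {O O' : Set Edge} (hO : O ⊆ O') (B : Finset V) :
    (B.image (cls O B)).image (grow O' B) = B.image (cls O' B) := by
  rw [Finset.image_image]
  refine Finset.image_congr fun y hy => ?_
  exact grow_cls hO hy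

lemma cnt_anti {O O' : Set Edge} (hO : O ⊆ O') (B : Finset V) : cnt O' B ≤ cnt O B := by
  classical
  unfold cnt
  rw [← image_grow hO B]
  exact Finset.card_image_le

lemma cnt_lt {O O' : Set Edge} (hO : O ⊆ O') {B : Finset V} {u v : V} (hu : u ∈ B) (hv : v ∈ B)
    (h1 : ¬ Conn O u v) (h2 : Conn O' u v) : cnt O' B < cnt O B := by
  classical
  refine lt_of_le_of_ne (cnt_anti hO B) fun h => ?_
  unfold cnt at h
  rw [← image_grow hO B, Finset.card_image_iff] at h
  have h3 : cls O B u = cls O B v := by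
    refine h (Finset.mem_coe.2 (Finset.mem_image_of_mem _ hu))
      (Finset.mem_coe.2 (Finset.mem_image_of_mem _ hv)) ?_
    rw [grow_cls hO hu, grow_cls hO hv]
    ext z
    rw [mem_cls, mem_cls]
    exact ⟨fun h => ⟨h.1, h2.symm.trans h.2⟩, fun h => ⟨h.1, h2.trans h.2⟩⟩
  have h4 : v ∈ cls O B u := by rw [h3, mem_cls]; exact ⟨hv, Conn.refl O v⟩
  exact h1 (mem_cls.1 h4).2

lemma cnt_le_card (O : Set Edge) (B : Finset V) : cnt O B ≤ B.card := by
  classical
  exact Finset.card_image_le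

/-- The boundary vertices of `Λ_n`. -/
noncomputable def bd (n : ℕ) : Finset V := (box 0 n).filter (fun y => nrm y = n)

lemma mem_bd {n : ℕ} {y : V} : y ∈ bd n ↔ nrm y = n := by
  rw [bd, Finset.mem_filter, mem_box, sub_zero]
  constructor
  · exact fun h => h.2
  · exact fun h => ⟨h.le, h⟩

lemma bd_card {n : ℕ} (hn : 1 ≤ n) : (bd n).card ≤ 8 * n := by
  obtain ⟨m, rfl⟩ : ∃ m, n = m + 1 := ⟨n - 1, by omega⟩
  have h1 : bd (m + 1) ⊆ box 0 (m + 1) \ box 0 m := by
    intro y hy
    rw [mem_bd] at hy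
    rw [Finset.mem_sdiff, mem_box, mem_box, sub_zero, hy]
    omega
  have h2 : box 0 m ⊆ box 0 (m + 1) := by
    intro y hy
    rw [mem_box] at hy ⊢
    omega
  have h3 := Finset.card_le_card h1
  rw [Finset.card_sdiff_of_subset h2, box_card, box_card] at h3
  have h4 : (2 * (m + 1) + 1) ^ 2 = (2 * m + 1) ^ 2 + 8 * (m + 1) := by ring
  omega

/-- The number of boundary classes, as a function of the finite set of open edges. -/
noncomputable def fT (n : ℕ) (T : Finset Edge) : ℝ :=
  (cnt ((↑T : Set Edge) ∩ eS (↑(box 0 n) : Set V)) (bd n) : ℝ)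

lemma fT_nonneg (n : ℕ) (T : Finset Edge) : 0 ≤ fT n T := Nat.cast_nonneg _

lemma fT_le {n : ℕ} (hn : 1 ≤ n) (T : Finset Edge) : fT n T ≤ 8 * n := by
  unfold fT
  exact_mod_cast (cnt_le_card _ _).trans (bd_card hn)

lemma op_cfgOf (T : Finset Edge) : Op (cfgOf T) = (↑T : Set Edge) := by
  ext e
  simp [Op, cfgOf]

open Classical in
lemma step_le {n : ℕ} {e : Edge} (he : e ∈ eF (box 0 n)) (T : Finset Edge) :
    fT n (insert e T) - fT n (T.erase e) ≤ - (if cfgOf T ∈ Pivot n e then (1 : ℝ) else 0) := by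
  have hsub : (↑(T.erase e) : Set Edge) ∩ eS (↑(box 0 n) : Set V) ⊆
      (↑(insert e T) : Set Edge) ∩ eS (↑(box 0 n) : Set V) := by
    refine Set.inter_subset_inter_left _ ?_
    intro d hd
    rw [Finset.mem_coe] at hd ⊢
    exact Finset.mem_insert_of_mem (Finset.mem_of_mem_erase hd)
  by_cases hP : cfgOf T ∈ Pivot n e
  · rw [if_pos hP]
    obtain ⟨h1, ⟨y, hy, h2⟩, y', hy', h3⟩ := hP
    have e1 : (Op (cfgOf T) \ {e}) = (↑(T.erase e) : Set Edge) := by
      rw [op_cfgOf, Finset.coe_erase]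
    rw [e1] at h1 h2 h3
    have hst : Conn ((↑(insert e T) : Set Edge) ∩ eS (↑(box 0 n) : Set V)) (src e) (tgt e) := by
      have hm1 : e ∈ (↑(insert e T) : Set Edge) := by
        rw [Finset.mem_coe]; exact Finset.mem_insert_self _ _
      have hm2 : e ∈ eS (↑(box 0 n) : Set V) := by
        rw [← coe_eF, Finset.mem_coe]; exact he
      exact (step_of_edge (Set.mem_inter hm1 hm2)).conn
    have h4 := cnt_lt hsub (mem_bd.2 hy) (mem_bd.2 hy')
      (fun h => h1 ((h2.trans h).trans h3.symm))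
      (((h2.mono hsub).symm.trans hst).trans (h3.mono hsub))
    have h5 : fT n (insert e T) + 1 ≤ fT n (T.erase e) := by
      unfold fT
      exact_mod_cast h4
    linarith
  · rw [if_neg hP]
    have h4 := cnt_anti hsub (bd n)
    have h5 : fT n (insert e T) ≤ fT n (T.erase e) := by
      unfold fT
      exact_mod_cast h4
    linarith

lemma pol_const (D : Finset Edge) (a q : ℝ) : pol D (fun _ => a) q = a := by
  unfold pol
  rw [← Finset.sum_mul, Finset.sum_pow_mul_eq_add_pow]
  simp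

lemma pol_neg (D : Finset Edge) (f : Finset Edge → ℝ) (q : ℝ) :
    pol D (fun T => - f T) q = - pol D f q := by
  unfold pol
  rw [← Finset.sum_neg_distrib]
  refine Finset.sum_congr rfl fun T _ => ?_
  ring

lemma deriv_le {n : ℕ} {q : unitInterval} {c : ℝ}
    (h : c ≤ ∑ e ∈ eF (box 0 n), PR q (Pivot n e)) :
    deriv (pol (eF (box 0 n)) (fT n)) q.1 ≤ -c := by
  classical
  rw [(hasDerivAt_pol (eF (box 0 n)) (fT n) q.1).deriv]
  refine le_trans ?_ (neg_le_neg h)
  rw [← Finset.sum_neg_distrib]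
  refine Finset.sum_le_sum fun e he => ?_
  rw [PR_finite q (dep_Pivot n e), ← pol_neg]
  refine pol_mono_fun q.2.1 q.2.2 fun T _ => ?_
  exact step_le he T

end Count

theorem count_clusters {q₁ q₂ : unitInterval} (h12 : q₁ ≤ q₂) {n : ℕ} (hn : 1 ≤ n) {c : ℝ}
    (h : ∀ q : unitInterval, q₁ ≤ q → q ≤ q₂ → c ≤ ∑ e ∈ eF (box 0 n), PR q (Pivot n e)) :
    (q₂.1 - q₁.1) * c ≤ 8 * n := by
  have hd : ∀ x : ℝ, HasDerivAt (pol (eF (box 0 n)) (Count.fT n))
      (∑ e ∈ eF (box 0 n),
        pol (eF (box 0 n)) (fun T => Count.fT n (insert e T) - Count.fT n (T.erase e)) x) x :=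
    fun x => hasDerivAt_pol _ _ x
  have h1 := Convex.image_sub_le_mul_sub_of_deriv_le (convex_Icc q₁.1 q₂.1)
    (f := pol (eF (box 0 n)) (Count.fT n)) (C := -c)
    (fun x _ => (hd x).continuousAt.continuousWithinAt)
    (fun x _ => (hd x).differentiableAt.differentiableWithinAt)
    (by
      intro x hx
      rw [interior_Icc] at hx
      have hx0 : 0 ≤ x := q₁.2.1.trans hx.1.le
      have hx1 : x ≤ 1 := hx.2.le.trans q₂.2.2
      exact Count.deriv_le (q := ⟨x, hx0, hx1⟩) (h ⟨x, hx0, hx1⟩ hx.1.le hx.2.le))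
    q₁.1 ⟨le_rfl, h12⟩ q₂.1 ⟨h12, le_rfl⟩ h12
  have h2 : 0 ≤ pol (eF (box 0 n)) (Count.fT n) q₂.1 :=
    Russo.pol_nonneg q₂.2.1 q₂.2.2 fun T _ => Count.fT_nonneg n T
  have h3 : pol (eF (box 0 n)) (Count.fT n) q₁.1 ≤ 8 * n := by
    refine (pol_mono_fun q₁.2.1 q₁.2.2 (g := fun _ => (8 * n : ℝ)) fun T _ => ?_).trans_eq
      (Count.pol_const _ _ _)
    exact Count.fT_le hn T
  linarith

end Pool.Agent.SAWP
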