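import Pool.Agent.SAWP.Meas

/-!
# SAWP: thinning and finite energy (module P3)

Thinning: if every open edge of a `p`-configuration is kept with probability `s` independently,
one gets a `ps`-configuration:
`pol D f (p*s) = ∑_{U ⊆ D} p^|U| (1-p)^(|D|-|U|) * pol U f s` (induction on `D`, or
`Finset.prod_add`).
Consequence (`PR_thin`): let `A` be increasing, and suppose that closing at most `k` edges of the
configuration destroys `A`; given such a `p`-configuration with its set `K` of `≤ k` edges, with
probability `≥ (1-s)^k` all open edges of `K` are removed by the thinning, and then `A` fails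
(closing more edges keeps `A` false).
Finite energy: resample the edges of the finite set `K`.
-/

set_option autoImplicit false

open MeasureTheory

namespace Pool.Agent.SAWP

/-- The configuration `ω` with the edges of `K` closed. -/
noncomputable def closeE (ω : Cfg) (K : Finset Edge) : Cfg :=
  fun e => by classical exact if e ∈ K then false else ω e

theorem pol_thin (D : Finset Edge) (f : Finset Edge → ℝ) (p s : ℝ) :
    pol D f (p * s) = ∑ U ∈ D.powerset, p ^ U.card * (1 - p) ^ (D.card - U.card) * pol U f s := by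
  classical
  unfold pol
  simp only [Finset.mul_sum]
  rw [Finset.sum_comm' (t' := D.powerset) (s' := fun T => Finset.Icc T D)]
  · refine Finset.sum_congr rfl fun T hT => ?_
    have hTD : T ⊆ D := Finset.mem_powerset.1 hT
    rw [Finset.Icc_eq_image_powerset hTD, Finset.sum_image]
    · have h1 : ∀ W ∈ (D \ T).powerset, p ^ (T ∪ W).card * (1 - p) ^ (D.card - (T ∪ W).card) *
          (s ^ T.card * (1 - s) ^ ((T ∪ W).card - T.card) * f T) =
          (p * s) ^ T.card * f T *
            ((p * (1 - s)) ^ W.card * (1 - p) ^ ((D \ T).card - W.card)) := by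
        intro W hW
        have hWD := Finset.mem_powerset.1 hW
        have hdis : Disjoint T W := by
          rw [Finset.disjoint_left]
          intro e he he'
          exact (Finset.mem_sdiff.1 (hWD he')).2 he
        have e1 : (T ∪ W).card = T.card + W.card := Finset.card_union_of_disjoint hdis
        have e2 : (D \ T).card = D.card - T.card := Finset.card_sdiff_of_subset hTD
        have e3 : D.card - (T ∪ W).card = (D \ T).card - W.card := by rw [e1, e2]; omega
        rw [e3, e1, Nat.add_sub_cancel_left, pow_add, mul_pow, mul_pow]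
        ring
      rw [Finset.sum_congr rfl h1, ← Finset.mul_sum, Finset.sum_pow_mul_eq_add_pow,
        Finset.card_sdiff_of_subset hTD]
      have e4 : p * (1 - s) + (1 - p) = 1 - p * s := by ring
      rw [e4]
      ring
    · intro W hW W' hW' h
      have hW1 := Finset.mem_powerset.1 hW
      have hW2 := Finset.mem_powerset.1 hW'
      ext e
      by_cases he : e ∈ T
      · constructor
        · intro h1; exact absurd he (Finset.mem_sdiff.1 (hW1 h1)).2
        · intro h1; exact absurd he (Finset.mem_sdiff.1 (hW2 h1)).2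
      · have h2 := Finset.ext_iff.1 h e
        simpa [he] using h2
  · intro U T
    simp only [Finset.mem_powerset, Finset.mem_Icc]
    constructor
    · rintro ⟨h1, h2⟩; exact ⟨⟨h2, h1⟩, h2.trans h1⟩
    · rintro ⟨⟨h1, h2⟩, -⟩; exact ⟨h2, h1⟩

lemma pol_mono {D : Finset Edge} {f g : Finset Edge → ℝ} {q : ℝ} (h0 : 0 ≤ q) (h1 : q ≤ 1)
    (h : ∀ T ⊆ D, f T ≤ g T) : pol D f q ≤ pol D g q := by
  unfold pol
  refine Finset.sum_le_sum fun T hT => ?_
  have : 0 ≤ 1 - q := by linarith
  exact mul_le_mul_of_nonneg_left (h T (Finset.mem_powerset.1 hT)) (by positivity)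

/-- Thinning inequality: `p' = p s`. -/
theorem PR_thin {p p' : unitInterval} {s : ℝ} (hs0 : 0 ≤ s) (hs1 : s ≤ 1) (hp : p'.1 = p.1 * s)
    {A : Set Cfg} (hA : Incr A) (hF : FD A) (k : ℕ) :
    (1 - s) ^ k * PR p {ω | ∃ K : Finset Edge, K.card ≤ k ∧ closeE ω K ∉ A} ≤ PR p' Aᶜ := by
  classical
  obtain ⟨F, hF⟩ := hF
  have hB : Dep (↑F : Set Edge) {ω | ∃ K : Finset Edge, K.card ≤ k ∧ closeE ω K ∉ A} := by
    intro ω ω' h
    refine exists_congr fun K => and_congr_right fun _ => not_congr (hF _ _ fun e he => ?_)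
    unfold closeE
    rw [h e he]
  rw [PR_finite p hB, PR_finite p' hF.compl, hp, pol_thin, pol, Finset.mul_sum]
  have hs' : 0 ≤ 1 - s := by linarith
  have hp0 := p.2.1
  have hp1 : 0 ≤ 1 - p.1 := by have := p.2.2; linarith
  refine Finset.sum_le_sum fun U _ => ?_
  have key : (1 - s) ^ k *
      (if cfgOf U ∈ {ω | ∃ K : Finset Edge, K.card ≤ k ∧ closeE ω K ∉ A} then (1 : ℝ) else 0) ≤
      pol U (fun T => if cfgOf T ∈ Aᶜ then 1 else 0) s := by
    split_ifs with hU
    · obtain ⟨K, hK, hKA⟩ := hU
      rw [mul_one]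
      have hsub : (U \ K).powerset ⊆ U.powerset :=
        Finset.powerset_mono.2 Finset.sdiff_subset
      have h1 : ∀ T ∈ (U \ K).powerset, cfgOf T ∈ Aᶜ := by
        intro T hT hTA
        refine hKA (hA _ _ (fun e he => ?_) hTA)
        have he' : e ∈ T := by simpa [cfgOf] using he
        have h2 := Finset.mem_sdiff.1 (Finset.mem_powerset.1 hT he')
        simp [closeE, cfgOf, h2.1, h2.2]
      have h2 : ∑ T ∈ (U \ K).powerset, s ^ T.card * (1 - s) ^ (U.card - T.card) ≤
          pol U (fun T => if cfgOf T ∈ Aᶜ then 1 else 0) s := by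
        unfold pol
        calc ∑ T ∈ (U \ K).powerset, s ^ T.card * (1 - s) ^ (U.card - T.card)
            = ∑ T ∈ (U \ K).powerset, s ^ T.card * (1 - s) ^ (U.card - T.card) *
              (if cfgOf T ∈ Aᶜ then (1 : ℝ) else 0) := by
              refine Finset.sum_congr rfl fun T hT => ?_
              rw [if_pos (h1 T hT), mul_one]
          _ ≤ _ := by
              refine Finset.sum_le_sum_of_subset_of_nonneg hsub fun T _ _ => ?_
              have : (0 : ℝ) ≤ if cfgOf T ∈ Aᶜ then (1 : ℝ) else 0 := by
                split_ifs <;> norm_num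
              positivity
      refine le_trans ?_ h2
      have h3 : ∀ T ∈ (U \ K).powerset, s ^ T.card * (1 - s) ^ (U.card - T.card) =
          (1 - s) ^ (U ∩ K).card * (s ^ T.card * (1 - s) ^ ((U \ K).card - T.card)) := by
        intro T hT
        have h4 : T.card ≤ (U \ K).card := Finset.card_le_card (Finset.mem_powerset.1 hT)
        have h5 : (U \ K).card + (U ∩ K).card = U.card := Finset.card_sdiff_add_card_inter U K
        have h6 : U.card - T.card = (U ∩ K).card + ((U \ K).card - T.card) := by omega
        rw [h6, pow_add]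
        ring
      rw [Finset.sum_congr rfl h3, ← Finset.mul_sum, Finset.sum_pow_mul_eq_add_pow,
        add_sub_cancel, one_pow, mul_one]
      exact pow_le_pow_of_le_one hs' (by linarith)
        ((Finset.card_le_card Finset.inter_subset_right).trans hK)
    · rw [mul_zero]
      unfold pol
      refine Finset.sum_nonneg fun T _ => ?_
      have : (0 : ℝ) ≤ if cfgOf T ∈ Aᶜ then (1 : ℝ) else 0 := by
        split_ifs <;> norm_num
      positivity
  have h7 := mul_le_mul_of_nonneg_left key
    (show 0 ≤ p.1 ^ U.card * (1 - p.1) ^ (F.card - U.card) by positivity)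
  convert h7 using 1
  · ring
  · congr 2
    funext T
    congr

/-- One-edge finite energy. -/
lemma PR_energy_one (p : unitInterval) (e : Edge) {B : Set Cfg} (hB : FD B) :
    FD {ω | ∃ ω' ∈ B, ∀ e', e' ≠ e → ω' e' = ω e'} ∧
    min p.1 (1 - p.1) * PR p {ω | ∃ ω' ∈ B, ∀ e', e' ≠ e → ω' e' = ω e'} ≤ PR p B := by
  classical
  obtain ⟨F, hF⟩ := hB
  let Bc : Bool → Set Cfg := fun b => {ω | Function.update ω e b ∈ B}
  have hdep : ∀ b, Dep (↑(F.erase e) : Set Edge) (Bc b) := by
    intro b ω ω' h
    refine hF _ _ fun e' he' => ?_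
    by_cases hee : e' = e
    · subst hee; simp
    · rw [Function.update_of_ne hee, Function.update_of_ne hee]
      exact h e' (Finset.mem_coe.2 (Finset.mem_erase.2 ⟨hee, he'⟩))
  have hU : {ω : Cfg | ∃ ω' ∈ B, ∀ e', e' ≠ e → ω' e' = ω e'} = Bc true ∪ Bc false := by
    ext ω
    constructor
    · rintro ⟨ω', h1, h2⟩
      have h3 : ω' = Function.update ω e (ω' e) := by
        funext e'
        by_cases hee : e' = e
        · subst hee; simp
        · rw [Function.update_of_ne hee, h2 e' hee]
      rw [h3] at h1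
      cases hb : ω' e
      · right; rw [hb] at h1; exact h1
      · left; rw [hb] at h1; exact h1
    · rintro (h | h)
      · exact ⟨_, h, fun e' hee => Function.update_of_ne hee _ _⟩
      · exact ⟨_, h, fun e' hee => Function.update_of_ne hee _ _⟩
  have hFDc : ∀ b, FD (Bc b) := fun b => ⟨_, hdep b⟩
  have hE : ∀ b : Bool, Dep (↑({e} : Finset Edge) : Set Edge) {ω : Cfg | ω e = b} := by
    intro b ω ω' h
    have := h e (by simp)
    simp only [Set.mem_ofPred_eq, this]
  have hdisj : Disjoint (↑(F.erase e) : Set Edge) (↑({e} : Finset Edge) : Set Edge) := by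
    rw [Set.disjoint_left]
    intro e' h1 h2
    rw [Finset.coe_singleton, Set.mem_singleton_iff] at h2
    rw [h2] at h1
    exact (Finset.mem_erase.1 (Finset.mem_coe.1 h1)).1 rfl
  have hind : ∀ b : Bool, PR p (Bc b ∩ {ω | ω e = b}) = PR p (Bc b) * PR p {ω | ω e = b} :=
    fun b => PR_indep p (hdep b) (hE b) hdisj (hFDc b) ⟨_, hE b⟩
  have hint : ∀ b : Bool, Bc b ∩ {ω | ω e = b} = B ∩ {ω | ω e = b} := by
    intro b
    ext ω
    simp only [Set.mem_inter_iff, Set.mem_ofPred_eq, Bc]
    refine and_congr_left fun h => ?_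
    have : Function.update ω e b = ω := by rw [← h]; exact Function.update_eq_self _ _
    rw [this]
  have hclosed : PR p {ω : Cfg | ω e = false} = 1 - p.1 := by
    have h1 : {ω : Cfg | ω e = false} = {ω : Cfg | ω e = true}ᶜ := by
      ext ω; simp
    rw [h1, PR_compl p (FD.measurableSet ⟨_, hE true⟩), PR_open]
  have hsplit : PR p B = PR p (B ∩ {ω | ω e = true}) + PR p (B ∩ {ω | ω e = false}) := by
    have h1 : {ω : Cfg | ω e = false} = {ω : Cfg | ω e = true}ᶜ := by
      ext ω; simp
    rw [h1]
    unfold PR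
    exact (measureReal_inter_add_sdiff (FD.measurableSet ⟨_, hE true⟩)).symm
  refine ⟨?_, ?_⟩
  · rw [hU]
    exact ⟨_, (hdep true).union (hdep false)⟩
  · rw [hU, hsplit, ← hint, ← hint, hind, hind, PR_open, hclosed]
    have h1 := PR_union_le p (Bc true) (Bc false)
    have h2 := PR_nonneg p (Bc true)
    have h3 := PR_nonneg p (Bc false)
    have hp0 := p.2.1
    have hp1 : 0 ≤ 1 - p.1 := by have := p.2.2; linarith
    have h4 : min p.1 (1 - p.1) ≤ p.1 := min_le_left _ _
    have h5 : min p.1 (1 - p.1) ≤ 1 - p.1 := min_le_right _ _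
    have h6 : 0 ≤ min p.1 (1 - p.1) := le_min hp0 hp1
    nlinarith [mul_le_mul_of_nonneg_left h1 h6, mul_le_mul_of_nonneg_right h4 h2,
      mul_le_mul_of_nonneg_right h5 h3]

/-- Finite energy: if every `ω ∈ A` can be changed on the edges of `K` only to a configuration in
`B`, then `min(p,1-p)^|K| P(A) ≤ P(B)`. -/
theorem PR_energy (p : unitInterval) (K : Finset Edge) {A B : Set Cfg} (hA : FD A) (hB : FD B)
    (h : ∀ ω ∈ A, ∃ ω' ∈ B, ∀ e, e ∉ K → ω' e = ω e) :
    (min p.1 (1 - p.1)) ^ K.card * PR p A ≤ PR p B := by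
  classical
  induction K using Finset.induction_on generalizing B with
  | empty =>
    rw [Finset.card_empty, pow_zero, one_mul]
    refine PR_mono p fun ω hω => ?_
    obtain ⟨ω', h1, h2⟩ := h ω hω
    have : ω' = ω := funext fun e => h2 e (Finset.notMem_empty e)
    rwa [← this]
  | insert e K he ih =>
    obtain ⟨h1, h2⟩ := PR_energy_one p e hB
    have h3 := ih h1 (fun ω hω => by
      obtain ⟨ω', h4, h5⟩ := h ω hω
      refine ⟨Function.update ω' e (ω e), ⟨ω', h4, fun e' hee =>
        (Function.update_of_ne hee _ _).symm⟩, fun e' he' => ?_⟩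
      by_cases hee : e' = e
      · subst hee; simp
      · rw [Function.update_of_ne hee]
        exact h5 e' (by
          rw [Finset.mem_insert]
          rintro (h6 | h6)
          · exact hee h6
          · exact he' h6))
    have hp0 := p.2.1
    have hp1 : 0 ≤ 1 - p.1 := by have := p.2.2; linarith
    have h6 : 0 ≤ min p.1 (1 - p.1) := le_min hp0 hp1
    rw [Finset.card_insert_of_notMem he, pow_succ']
    calc min p.1 (1 - p.1) * min p.1 (1 - p.1) ^ K.card * PR p A
        = min p.1 (1 - p.1) * (min p.1 (1 - p.1) ^ K.card * PR p A) := by ring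
      _ ≤ min p.1 (1 - p.1) * PR p {ω | ∃ ω' ∈ B, ∀ e', e' ≠ e → ω' e' = ω e'} :=
          mul_le_mul_of_nonneg_left h3 h6
      _ ≤ PR p B := h2

end Pool.Agent.SAWP
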