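import Pool.Agent.SAWP.Perc.ExpDecay
import Pool.Agent.SAWP.Perc.Thin
import Pool.Agent.SAWP.Perc.Dual
import Pool.Agent.SAWP.NetDefs

/-!
# SAWP: short crossings of `3r × r` rectangles (module P13)

`p > 1/2`.  Choose `p' ∈ (1/2, p)`, `s = p'/p`.
(a) `P_{p'}(no open left-right crossing of [0,3r]×[0,r]) ≤ 3r * P_{1-p'}(0 ↔ ∂Λ_{r+1})` by `dual_exists`, `PR_dual`
(a dual path from `(i,-1)` to `(i',r)` reaches sup-distance `r+1` from its start; stop at the first vertex at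
distance exactly `r+1`, inside the box `box (i,-1) (r+1)`; translation `PR_perm`), which is
`≤ 3 r C e^{-c(r+1)} ≤ C' e^{-c'r}` (`exp_decay`, `1-p' < 1/2`).
(b) `PR_thin`: `(1-s)^k P_p(∃ K, |K| ≤ k, closing K destroys all crossings) ≤ C' e^{-c'r}`; with `k = ⌊c'' r⌋`,
`(1-s)^{-k} ≤ e^{c' r/2}`: `P_p(min cut ≤ k) ≤ C' e^{-c' r/2}`.
(c) If no set of `≤ k` edges is a cut (in particular there is a crossing): let `ℓ` be the least number of steps of an open
crossing inside the rectangle. For `0 ≤ i < ℓ` let `K_i` be the set of open edges of the rectangle joining a vertex at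
open distance `≤ i` (inside the rectangle, from the left side) to a vertex at distance `> i`.  Every crossing uses
an edge of each `K_i`, so closing `K_i` destroys all crossings: `|K_i| > k`.  They are disjoint, so
`ℓ (k+1) ≤ #eF ≤ 2(3r+1)(r+1) ≤ 16 r²` and `ℓ ≤ C₁ r` as `k + 1 > c'' r`.
The vertical version follows by transposition (`PR_perm`); translation invariance gives all positions.
-/

set_option autoImplicit false

open MeasureTheory

namespace Pool.Agent.SAWP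

namespace CrossX

/-! ### maps of walks -/

lemma isW_map {O O' : Set Edge} {f : V → V} (hf : ∀ u v, Step O u v → Step O' (f u) (f v))
    {x y : V} {l : List V} (h : IsW O x y l) : IsW O' (f x) (f y) (l.map f) := by
  refine ⟨?_, ?_, ?_⟩
  · rw [List.isChain_map]
    exact h.1.imp fun a b => hf a b
  · rw [List.head?_map, h.2.1]; rfl
  · rw [List.getLast?_map, h.2.2]; rfl

lemma isP_map {O O' : Set Edge} {f : V → V} (hf : ∀ u v, Step O u v → Step O' (f u) (f v))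
    (hi : Function.Injective f) {x y : V} {l : List V} (h : IsP O x y l) :
    IsP O' (f x) (f y) (l.map f) := ⟨isW_map hf h.1, h.2.map hi⟩

lemma len_map (f : V → V) (l : List V) : len (l.map f) = len l := by simp [len]

/-- translation of edges -/
def tr (z : V) : Edge ≃ Edge where
  toFun e := (e.1 + z, e.2)
  invFun e := (e.1 - z, e.2)
  left_inv e := by simp
  right_inv e := by simp

/-- transposition of edges -/
def sw : Edge ≃ Edge where
  toFun e := (e.1.swap, !e.2)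
  invFun e := (e.1.swap, !e.2)
  left_inv e := by simp
  right_inv e := by simp

lemma adj_tr {u v : V} (z : V) (h : Adj u v) : Adj (u + z) (v + z) := by
  unfold Adj at *
  simpa using h

lemma edgeOf_tr (u v z : V) : edgeOf (u + z) (v + z) = tr z (edgeOf u v) := by
  simp only [edgeOf, tr, Equiv.coe_fn_mk, Prod.fst_add, Prod.snd_add, min_add_add_right,
    add_left_inj]
  rfl

lemma adj_sw {u v : V} (h : Adj u v) : Adj u.swap v.swap := by
  unfold Adj at *
  simp only [Prod.fst_swap, Prod.snd_swap]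
  rw [add_comm]; exact h

lemma edgeOf_sw {u v : V} (h : Adj u v) : edgeOf u.swap v.swap = sw (edgeOf u v) := by
  simp only [edgeOf, sw, Equiv.coe_fn_mk, Prod.fst_swap, Prod.snd_swap, Prod.swap_prod_mk]
  congr 1
  have : (u.2 = v.2) ↔ ¬ (u.1 = v.1) := by
    rcases adj_cases h with h | h | h | h
    · rw [h]; simp
    · rw [h]; simp
    · rw [h]; simp
    · rw [h]; simp
  simp [this]

lemma step_tr {ω : Cfg} {z u v : V} (h : Step (Op (fun e => ω (tr z e))) u v) :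
    Step (Op ω) (u + z) (v + z) := by
  refine ⟨adj_tr z h.1, ?_⟩
  rw [edgeOf_tr]
  exact h.2

lemma step_tr' {ω : Cfg} {z u v : V} (h : Step (Op ω) u v) :
    Step (Op (fun e => ω (tr z e))) (u - z) (v - z) := by
  refine ⟨by simpa [sub_eq_add_neg] using adj_tr (-z) h.1, ?_⟩
  have h1 := edgeOf_tr (u - z) (v - z) z
  rw [sub_add_cancel, sub_add_cancel] at h1
  change ω (tr z (edgeOf (u - z) (v - z))) = true
  rw [← h1]
  exact h.2

lemma step_sw {ω : Cfg} {u v : V} (h : Step (Op (fun e => ω (sw e))) u v) :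
    Step (Op ω) u.swap v.swap := by
  refine ⟨adj_sw h.1, ?_⟩
  rw [edgeOf_sw h.1]
  exact h.2

/-! ### arms -/

/-- translate of `armEv` -/
def armAt (z : V) (n : ℕ) : Set Cfg :=
  {ω | ∃ y, nrm (y - z) = n ∧ Conn (Op ω ∩ eS (↑(box z n) : Set V)) z y}

lemma nrm_step {u v x : V} (h : Adj u v) : nrm (v - x) ≤ nrm (u - x) + 1 := by
  have h4 := h
  simp only [nrm, Prod.fst_sub, Prod.snd_sub, Adj] at *
  have h5 := abs_le.1 (show |u.1 - v.1| ≤ 1 by have := abs_nonneg (u.2 - v.2); omega)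
  have h6 := abs_le.1 (show |u.2 - v.2| ≤ 1 by have := abs_nonneg (u.1 - v.1); omega)
  have h7 := le_max_left (u.1 - x.1).natAbs (u.2 - x.2).natAbs
  have h8 := le_max_right (u.1 - x.1).natAbs (u.2 - x.2).natAbs
  refine max_le ?_ ?_ <;> omega

lemma arm_of_conn {ω : Cfg} {x y : V} {n : ℕ} (hn : 1 ≤ n) (h : Conn (Op ω) x y)
    (hy : n ≤ nrm (y - x)) : ω ∈ armAt x n := by
  by_contra hcon
  have key : Conn (Op ω ∩ eS (↑(box x n) : Set V)) x y ∧ nrm (y - x) < n := by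
    refine Conn.induction h (P := fun v => Conn (Op ω ∩ eS (↑(box x n) : Set V)) x v ∧
      nrm (v - x) < n) ?_ ?_
    · refine ⟨Conn.refl _ _, ?_⟩
      simp [nrm]; omega
    · rintro a b ⟨ha, ha'⟩ hab
      have hb : nrm (b - x) ≤ n := (nrm_step hab.1).trans ha'
      have hc : Conn (Op ω ∩ eS (↑(box x n) : Set V)) x b := by
        refine ha.trans (Step.conn ⟨hab.1, hab.2, (edgeOf_mem_eS hab.1).2 ⟨?_, ?_⟩⟩)
        · exact mem_box.2 ha'.le
        · exact mem_box.2 hb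
      refine ⟨hc, lt_of_le_of_ne hb fun he => hcon ⟨b, he, hc⟩⟩
  exact absurd key.2 (not_lt.2 hy)

lemma armAt_sub (z : V) (n : ℕ) : armAt z n ⊆ {ω | (fun e => ω (tr z e)) ∈ armEv n} := by
  rintro ω ⟨y, hy, l, hl⟩
  refine ⟨y - z, hy, l.map (fun v => v - z), ?_⟩
  have h2 : IsW (Op (fun e => ω (tr z e)) ∩ eS (↑(box 0 n) : Set V)) (z - z) (y - z)
      (l.map (fun v => v - z)) := by
    refine isW_map (f := fun v => v - z) ?_ hl
    intro u v huv
    have h3 : Step (Op (fun e => ω (tr z e))) (u - z) (v - z) := step_tr' ⟨huv.1, huv.2.1⟩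
    have h4 := (edgeOf_mem_eS huv.1).1 huv.2.2
    refine ⟨h3.1, h3.2, (edgeOf_mem_eS h3.1).2 ⟨?_, ?_⟩⟩
    · have := mem_box.1 h4.1
      exact mem_box.2 (by simpa using this)
    · have := mem_box.1 h4.2
      exact mem_box.2 (by simpa using this)
  rwa [sub_self] at h2

lemma PR_armAt (q : unitInterval) (z : V) (n : ℕ) : PR q (armAt z n) ≤ PR q (armEv n) := by
  rw [← PR_perm q (tr z) (measurableSet_of_dep (dep_armEv n))]
  exact PR_mono q (armAt_sub z n)

/-! ### crossings -/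

/-- left-right crossing of `[0,a]×[0,b]` -/
def Xev (a b : ℕ) : Set Cfg := {ω | ∃ x y l, IsP (Op ω) x y l ∧ (∀ v ∈ l, v ∈ rect 0 a 0 b) ∧
  x.1 = 0 ∧ y.1 = a}

lemma incr_Xev (a b : ℕ) : Incr (Xev a b) := by
  rintro ω ω' h ⟨x, y, l, h1, h2, h3, h4⟩
  exact ⟨x, y, l, h1.mono (op_mono h), h2, h3, h4⟩

lemma dep_Xev (a b : ℕ) : Dep (↑(eF (rect 0 a 0 b)) : Set Edge) (Xev a b) := by
  rw [coe_eF]
  have h := dep_of_op (D := eS (↑(rect 0 a 0 b) : Set V)) (fun O => ∃ x y l, IsP O x y l ∧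
    (∀ v ∈ l, v ∈ rect 0 a 0 b) ∧ x.1 = 0 ∧ y.1 = a)
  have e : Xev a b = {ω | ∃ x y l, IsP (Op ω ∩ eS (↑(rect 0 a 0 b) : Set V)) x y l ∧
    (∀ v ∈ l, v ∈ rect 0 a 0 b) ∧ x.1 = 0 ∧ y.1 = a} := by
    ext ω
    constructor
    · rintro ⟨x, y, l, h1, h2, h3, h4⟩
      exact ⟨x, y, l, h1.restrict h2, h2, h3, h4⟩
    · rintro ⟨x, y, l, h1, h2, h3, h4⟩
      exact ⟨x, y, l, h1.mono Set.inter_subset_left, h2, h3, h4⟩
  rw [e]
  exact h

/-- (a) no crossing is unlikely -/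
lemma no_cross (p : unitInterval) (r : ℕ) (hr : 1 ≤ r) :
    PR p (Xev (3 * r) r)ᶜ ≤ 3 * r * PR (unitInterval.symm p) (armEv (r + 1)) := by
  have hsub : (Xev (3 * r) r)ᶜ ⊆ {ω | dualC ω ∈
      {ω : Cfg | ∃ i ∈ Finset.range (3 * r),
        (fun e => ω (tr ((i : ℤ), -1) e)) ∈ armEv (r + 1)}} := by
    intro ω hω
    obtain ⟨x, y, l, h1, h2, h3, h4⟩ := dual_exists ω (a := 3 * r) (b := r) (by omega) hω
    have hx := mem_rect.1 (h2 x h1.1.left_mem)
    have hxe : x = (((x.1.toNat : ℕ) : ℤ), -1) := by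
      ext
      · simp only; omega
      · exact h3
    refine ⟨x.1.toNat, Finset.mem_range.2 (by omega), ?_⟩
    apply armAt_sub
    rw [← hxe]
    refine arm_of_conn (by omega) ⟨l, h1.1⟩ ?_
    have : ((y - x).2).natAbs = r + 1 := by
      rw [Prod.snd_sub, h3, h4]; omega
    rw [← this]
    exact le_max_right _ _
  have hmeas : MeasurableSet {ω : Cfg | ∃ i ∈ Finset.range (3 * r),
        (fun e => ω (tr ((i : ℤ), -1) e)) ∈ armEv (r + 1)} := by
    have : {ω : Cfg | ∃ i ∈ Finset.range (3 * r),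
        (fun e => ω (tr ((i : ℤ), -1) e)) ∈ armEv (r + 1)} =
        ⋃ i ∈ Finset.range (3 * r), {ω : Cfg | (fun e => ω (tr ((i : ℤ), -1) e)) ∈ armEv (r + 1)} := by
      ext ω; simp
    rw [this]
    refine Finset.measurableSet_biUnion _ fun i _ => ?_
    have hm : Measurable (fun (ω : Cfg) (e : Edge) => ω (tr ((i : ℤ), -1) e)) := by fun_prop
    exact hm (measurableSet_of_dep (dep_armEv (r + 1)))
  refine (PR_mono p hsub).trans ?_
  rw [PR_dual p hmeas]
  have : {ω : Cfg | ∃ i ∈ Finset.range (3 * r),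
        (fun e => ω (tr ((i : ℤ), -1) e)) ∈ armEv (r + 1)} =
        ⋃ i ∈ Finset.range (3 * r), {ω : Cfg | (fun e => ω (tr ((i : ℤ), -1) e)) ∈ armEv (r + 1)} := by
    ext ω; simp
  rw [this]
  refine (PR_biUnion_le _ _ _).trans (le_of_eq ?_)
  have h5 : ∀ i ∈ Finset.range (3 * r), PR (unitInterval.symm p)
      {ω : Cfg | (fun e => ω (tr ((i : ℤ), -1) e)) ∈ armEv (r + 1)} =
      PR (unitInterval.symm p) (armEv (r + 1)) :=
    fun i _ => PR_perm (unitInterval.symm p) (tr ((i : ℤ), -1))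
      (measurableSet_of_dep (dep_armEv (r + 1)))
  rw [Finset.sum_congr rfl h5, Finset.sum_const, Finset.card_range, nsmul_eq_mul]
  push_cast
  ring

/-! ### cuts -/

/-- reachable from the left side in at most `i` steps -/
def Dl (O : Set Edge) (R : Set V) (i : ℕ) (v : V) : Prop :=
  ∃ x l, x ∈ R ∧ x.1 = 0 ∧ IsW O x v l ∧ len l ≤ i

lemma Dl.mono {O : Set Edge} {R : Set V} {i j : ℕ} (h : i ≤ j) {v : V} (hv : Dl O R i v) :
    Dl O R j v := by
  obtain ⟨x, l, h1, h2, h3, h4⟩ := hv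
  exact ⟨x, l, h1, h2, h3, h4.trans h⟩

lemma Dl.step {O : Set Edge} {R : Set V} {i : ℕ} {u v : V} (hu : Dl O R i u) (h : Step O u v) :
    Dl O R (i + 1) v := by
  obtain ⟨x, l, h1, h2, h3, h4⟩ := hu
  have h5 : IsW O u v [u, v] := (isW_singleton O v).cons h
  refine ⟨x, l ++ [u, v].tail, h1, h2, h3.append h5, ?_⟩
  rw [len_append_tail h3 h5]
  simp only [len, List.length_cons, List.length_nil] at *
  omega

open Classical in
/-- the `i`-th cut -/
noncomputable def cut (ω : Cfg) (a b i : ℕ) : Finset Edge :=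
  (eF (rect 0 a 0 b)).filter fun e => ω e = true ∧
    ¬ (Dl (Op ω ∩ eS ↑(rect 0 a 0 b)) ↑(rect 0 a 0 b) i (src e) ↔
      Dl (Op ω ∩ eS ↑(rect 0 a 0 b)) ↑(rect 0 a 0 b) i (tgt e))

lemma mem_cut_of_step {ω : Cfg} {a b i : ℕ} {u v : V}
    (hs : Step (Op ω ∩ eS ↑(rect 0 a 0 b)) u v)
    (hu : Dl (Op ω ∩ eS ↑(rect 0 a 0 b)) ↑(rect 0 a 0 b) i u)
    (hv : ¬ Dl (Op ω ∩ eS ↑(rect 0 a 0 b)) ↑(rect 0 a 0 b) i v) : edgeOf u v ∈ cut ω a b i := by
  classical
  rw [cut, Finset.mem_filter]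
  refine ⟨?_, hs.2.1, ?_⟩
  · rw [← Finset.mem_coe, coe_eF]; exact hs.2.2
  · rcases edgeOf_ends hs.1 with ⟨h1, h2⟩ | ⟨h1, h2⟩
    · rw [h1, h2]; exact fun h => hv (h.1 hu)
    · rw [h1, h2]; exact fun h => hv (h.2 hu)

lemma cut_disj {ω : Cfg} {a b i j : ℕ} (hij : i < j) : Disjoint (cut ω a b i) (cut ω a b j) := by
  classical
  rw [Finset.disjoint_left]
  intro e he he'
  rw [cut, Finset.mem_filter] at he he'
  obtain ⟨h1, h2, h3⟩ := he
  obtain ⟨-, -, h4⟩ := he'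
  have hst : Step (Op ω ∩ eS ↑(rect 0 a 0 b)) (src e) (tgt e) := by
    refine step_of_edge ⟨h2, ?_⟩
    rw [← coe_eF]; exact h1
  apply h4
  by_cases hs : Dl (Op ω ∩ eS ↑(rect 0 a 0 b)) ↑(rect 0 a 0 b) i (src e)
  · exact ⟨fun _ => (hs.step hst).mono hij, fun _ => hs.mono hij.le⟩
  · by_cases ht : Dl (Op ω ∩ eS ↑(rect 0 a 0 b)) ↑(rect 0 a 0 b) i (tgt e)
    · exact ⟨fun _ => ht.mono hij.le, fun _ => (ht.step hst.symm).mono hij⟩
    · exact absurd (iff_of_false hs ht) h3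

/-- a crossing of length `ℓ` where `ℓ (k+1) ≤ #edges` if no `k` edges block -/
theorem short_cross {ω : Cfg} {a b k : ℕ}
    (h : ∀ K : Finset Edge, K.card ≤ k → closeE ω K ∈ Xev a b) :
    ∃ x y l, IsP (Op ω) x y l ∧ (∀ v ∈ l, v ∈ rect 0 a 0 b) ∧ x.1 = 0 ∧ y.1 = a ∧
      len l * (k + 1) ≤ (eF (rect 0 a 0 b)).card := by
  classical
  set O : Set Edge := Op ω ∩ eS ↑(rect 0 a 0 b) with hO
  have hop : ∀ K, Op (closeE ω K) ⊆ Op ω := by
    intro K e he
    have he : closeE ω K e = true := he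
    unfold closeE at he
    split_ifs at he with h1
    exact he
  have hex : ∃ n : ℕ, ∃ x y l, IsP (Op ω) x y l ∧ (∀ v ∈ l, v ∈ rect 0 a 0 b) ∧ x.1 = 0 ∧
      y.1 = a ∧ len l = n := by
    obtain ⟨x, y, l, h1, h2, h3, h4⟩ := h ∅ (by simp)
    exact ⟨len l, x, y, l, h1.mono (hop _), h2, h3, h4, rfl⟩
  obtain ⟨x, y, l, h1, h2, h3, h4, h5⟩ := Nat.find_spec hex
  have hmin := fun m hm => Nat.find_min hex (m := m) hm
  set n := Nat.find hex with hn
  refine ⟨x, y, l, h1, h2, h3, h4, ?_⟩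
  rw [h5]
  have hcard : ∀ i ∈ Finset.range n, k + 1 ≤ (cut ω a b i).card := by
    intro i hi
    have hi := Finset.mem_range.1 hi
    by_contra hlt
    obtain ⟨x', y', l', g1, g2, g3, g4⟩ := h (cut ω a b i) (by omega)
    have g5 := g1.restrict (R := (↑(rect 0 a 0 b) : Set V)) g2
    have hD : Dl O ↑(rect 0 a 0 b) i y' := by
      refine Conn.induction ⟨l', g5.1⟩ (P := fun v => Dl O ↑(rect 0 a 0 b) i v) ?_ ?_
      · exact ⟨x', [x'], g2 x' g1.1.left_mem, g3, isW_singleton _ _, by simp [len]⟩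
      · intro u v hu huv
        by_contra hv
        have hs : Step O u v := ⟨huv.1, hop _ huv.2.1, huv.2.2⟩
        have hc := mem_cut_of_step hs hu hv
        have hcl := huv.2.1
        change closeE ω (cut ω a b i) (edgeOf u v) = true at hcl
        unfold closeE at hcl
        simp [hc] at hcl
    obtain ⟨x'', l'', f1, f2, f3, f4⟩ := hD
    obtain ⟨l₃, q1, q2, q3⟩ := f3.exists_path
    have q4 := q1.1.mem_of_eS (R := (↑(rect 0 a 0 b) : Set V)) f1
    exact hmin (len l₃) (by omega) ⟨x'', y', l₃, q1.mono Set.inter_subset_left, q4, f2, g4, rfl⟩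
  have hdis : ∀ i ∈ Finset.range n, ∀ j ∈ Finset.range n, i ≠ j →
      Disjoint (cut ω a b i) (cut ω a b j) := by
    intro i _ j _ hij
    rcases lt_or_gt_of_ne hij with h | h
    · exact cut_disj h
    · exact (cut_disj h).symm
  have hsub : (Finset.range n).biUnion (cut ω a b) ⊆ eF (rect 0 a 0 b) := by
    intro e he
    obtain ⟨i, _, he⟩ := Finset.mem_biUnion.1 he
    exact (Finset.mem_filter.1 he).1
  calc n * (k + 1) = ∑ i ∈ Finset.range n, (k + 1) := by
        rw [Finset.sum_const, Finset.card_range, smul_eq_mul]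
    _ ≤ ∑ i ∈ Finset.range n, (cut ω a b i).card := Finset.sum_le_sum hcard
    _ = ((Finset.range n).biUnion (cut ω a b)).card := (Finset.card_biUnion hdis).symm
    _ ≤ _ := Finset.card_le_card hsub

lemma rect_card (r : ℕ) : (eF (rect 0 ((3 * r : ℕ) : ℤ) 0 r)).card ≤ 2 * ((3 * r + 1) * (r + 1)) := by
  refine (eF_card_le _).trans ?_
  unfold rect
  rw [Finset.card_product, Int.card_Icc, Int.card_Icc]
  have h1 : (((3 * r : ℕ) : ℤ) + 1 - 0).toNat = 3 * r + 1 := by omega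
  have h2 : ((r : ℤ) + 1 - 0).toNat = r + 1 := by omega
  rw [h1, h2]

/-- horizontal crossings at the origin give crossings everywhere -/
lemma HX_tr {ω : Cfg} {x : V} {r C : ℕ} (h : HX (Op (fun e => ω (tr x e))) 0 r C) :
    HX (Op ω) x r C := by
  obtain ⟨l, y, z, h1, h2, h3, h4, h5⟩ := h
  refine ⟨l.map (fun v => v + x), y + x, z + x,
    isP_map (fun u v => step_tr) (add_left_injective x) h1, ?_, ?_, ?_, ?_⟩
  · intro v hv
    obtain ⟨u, hu, rfl⟩ := List.mem_map.1 hv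
    have := h2 u hu
    simp only [Hr, mem_rect, Prod.fst_zero, Prod.snd_zero, Prod.fst_add, Prod.snd_add] at this ⊢
    omega
  · simp only [Prod.fst_add, Prod.fst_zero] at h3 ⊢; omega
  · simp only [Prod.fst_add, Prod.fst_zero] at h4 ⊢; omega
  · rw [len_map]; exact h5

lemma VX_tr {ω : Cfg} {x : V} {r C : ℕ} (h : HX (Op (fun e => ω (tr x (sw e)))) 0 r C) :
    VX (Op ω) x r C := by
  obtain ⟨l, y, z, h1, h2, h3, h4, h5⟩ := h
  refine ⟨l.map (fun v => v.swap + x), y.swap + x, z.swap + x,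
    isP_map (f := fun v => v.swap + x) (fun u v huv => step_tr (ω := ω) (z := x) (step_sw huv))
      (fun u v huv => Prod.swap_injective (add_left_injective x huv)) h1, ?_, ?_, ?_, ?_⟩
  · intro v hv
    obtain ⟨u, hu, rfl⟩ := List.mem_map.1 hv
    have := h2 u hu
    simp only [Hr, Vr, mem_rect, Prod.fst_zero, Prod.snd_zero, Prod.fst_add, Prod.snd_add,
      Prod.fst_swap, Prod.snd_swap] at this ⊢
    omega
  · simp only [Prod.snd_add, Prod.fst_zero, Prod.snd_swap] at h3 ⊢; omega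
  · simp only [Prod.snd_add, Prod.fst_zero, Prod.snd_swap] at h4 ⊢; omega
  · rw [len_map]; exact h5

lemma dep_HX (r C : ℕ) : Dep (↑(eF (Hr 0 r)) : Set Edge) {ω | HX (Op ω) 0 r C} := by
  rw [coe_eF]
  have h := dep_of_op (D := eS (↑(Hr 0 r) : Set V)) (fun O => HX O 0 r C)
  have e : {ω : Cfg | HX (Op ω) 0 r C} = {ω | HX (Op ω ∩ eS (↑(Hr 0 r) : Set V)) 0 r C} := by
    ext ω
    constructor
    · rintro ⟨l, x, y, h1, h2, h3⟩
      exact ⟨l, x, y, h1.restrict h2, h2, h3⟩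
    · rintro ⟨l, x, y, h1, h2, h3⟩
      exact ⟨l, x, y, h1.mono Set.inter_subset_left, h2, h3⟩
  rw [e]
  exact h

lemma reduce (p : unitInterval) (r C : ℕ) (x : V) :
    PR p {ω | HX (Op ω) 0 r C} ≤ PR p {ω | HX (Op ω) x r C} ∧
    PR p {ω | HX (Op ω) 0 r C} ≤ PR p {ω | VX (Op ω) x r C} := by
  have hm := measurableSet_of_dep (dep_HX r C)
  constructor
  · conv_lhs => rw [← PR_perm p (tr x) hm]
    exact PR_mono p fun ω hω => HX_tr hω
  · conv_lhs => rw [← PR_perm p (sw.trans (tr x)) hm]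
    exact PR_mono p fun ω hω => VX_tr hω

end CrossX

/-- (P1) for all positions and both orientations. -/
theorem crossing (p : unitInterval) (hp : 1 / 2 < p.1) :
    ∃ C : ℕ, ∃ c : ℝ, 1 ≤ C ∧ 0 < c ∧ ∀ r : ℕ, 1 ≤ r → ∀ x : V,
      1 - C * Real.exp (-(c * r)) ≤ PR p {ω | HX (Op ω) x r C} ∧
      1 - C * Real.exp (-(c * r)) ≤ PR p {ω | VX (Op ω) x r C} := by
  classical
  have hp1 := p.2.2
  obtain ⟨p', hp'⟩ : ∃ p' : unitInterval, p'.1 = (p.1 + 1 / 2) / 2 :=
    ⟨⟨(p.1 + 1 / 2) / 2, by constructor <;> linarith⟩, rfl⟩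
  obtain ⟨s, hs⟩ : ∃ s : ℝ, s = p'.1 / p.1 := ⟨_, rfl⟩
  have hp0 : 0 < p.1 := by linarith
  have hs0 : 0 < s := by rw [hs]; apply div_pos _ hp0; rw [hp']; linarith
  have hs1 : s < 1 := by rw [hs, div_lt_one hp0, hp']; linarith
  have hps : p'.1 = p.1 * s := by rw [hs]; field_simp
  obtain ⟨C₀, c₀, hC₀, hc₀, hdec⟩ := exp_decay (unitInterval.symm p')
    (by rw [unitInterval.coe_symm_eq, hp']; linarith)
  obtain ⟨c₁, hc₁⟩ : ∃ c₁ : ℝ, c₁ = c₀ / 2 := ⟨_, rfl⟩
  have hc₁0 : 0 < c₁ := by rw [hc₁]; linarith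
  obtain ⟨D, hD⟩ : ∃ D : ℝ, D = 3 * C₀ / c₁ := ⟨_, rfl⟩
  have hD0 : 0 < D := by rw [hD]; positivity
  obtain ⟨L, hL⟩ : ∃ L : ℝ, L = -Real.log (1 - s) := ⟨_, rfl⟩
  have hL0 : 0 < L := by
    rw [hL]
    have := Real.log_neg (by linarith : 0 < 1 - s) (by linarith)
    linarith
  obtain ⟨c₂, hc₂⟩ : ∃ c₂ : ℝ, c₂ = c₁ / (2 * L) := ⟨_, rfl⟩
  have hc₂0 : 0 < c₂ := by rw [hc₂]; positivity
  obtain ⟨C, hC⟩ : ∃ C : ℕ, C = max 1 (max ⌈16 / c₂⌉₊ ⌈D⌉₊) := ⟨_, rfl⟩
  have hC1 : 1 ≤ C := by rw [hC]; exact le_max_left _ _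
  have hC2 : 16 / c₂ ≤ C := by
    refine (Nat.le_ceil _).trans ?_
    rw [hC]
    exact_mod_cast (le_max_left _ _).trans (le_max_right _ _)
  have hC3 : D ≤ C := by
    refine (Nat.le_ceil _).trans ?_
    rw [hC]
    exact_mod_cast (le_max_right _ _).trans (le_max_right _ _)
  refine ⟨C, c₁ / 2, hC1, by linarith, fun r hr x => ?_⟩
  have hr0 : (1 : ℝ) ≤ r := by exact_mod_cast hr
  suffices hmain : 1 - C * Real.exp (-(c₁ / 2 * r)) ≤ PR p {ω | HX (Op ω) 0 r C} from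
    ⟨hmain.trans (CrossX.reduce p r C x).1, hmain.trans (CrossX.reduce p r C x).2⟩
  -- no crossing at `p'`
  have hno : PR p' (CrossX.Xev (3 * r) r)ᶜ ≤ D * Real.exp (-(c₁ * r)) := by
    refine (CrossX.no_cross p' r hr).trans ?_
    have h1 := hdec (r + 1)
    have h2 : Real.exp (-(c₀ * ((r + 1 : ℕ) : ℝ))) ≤ Real.exp (-(c₁ * r)) * Real.exp (-(c₁ * r)) := by
      rw [← Real.exp_add]
      apply Real.exp_le_exp.2
      push_cast
      rw [hc₁]
      nlinarith
    have h3 : (r : ℝ) * Real.exp (-(c₁ * r)) ≤ 1 / c₁ := by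
      rw [Real.exp_neg, ← div_eq_mul_inv, div_le_div_iff₀ (Real.exp_pos _) hc₁0]
      have := Real.add_one_le_exp (c₁ * r)
      nlinarith
    have h4 : PR (unitInterval.symm p') (armEv (r + 1)) ≤
        C₀ * (Real.exp (-(c₁ * r)) * Real.exp (-(c₁ * r))) :=
      h1.trans (mul_le_mul_of_nonneg_left h2 hC₀.le)
    calc 3 * (r : ℝ) * PR (unitInterval.symm p') (armEv (r + 1))
        ≤ 3 * (r : ℝ) * (C₀ * (Real.exp (-(c₁ * r)) * Real.exp (-(c₁ * r)))) :=
          mul_le_mul_of_nonneg_left h4 (by positivity)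
      _ = 3 * C₀ * Real.exp (-(c₁ * r)) * ((r : ℝ) * Real.exp (-(c₁ * r))) := by ring
      _ ≤ 3 * C₀ * Real.exp (-(c₁ * r)) * (1 / c₁) :=
          mul_le_mul_of_nonneg_left h3 (by positivity)
      _ = D * Real.exp (-(c₁ * r)) := by rw [hD]; ring
  -- small cuts at `p`
  obtain ⟨k, hk⟩ : ∃ k : ℕ, k = ⌊c₂ * r⌋₊ := ⟨_, rfl⟩
  have hk1 : (k : ℝ) ≤ c₂ * r := by rw [hk]; exact Nat.floor_le (by positivity)
  have hk2 : c₂ * r < k + 1 := by rw [hk]; exact Nat.lt_floor_add_one _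
  have hFD : FD (CrossX.Xev (3 * r) r) := ⟨_, CrossX.dep_Xev (3 * r) r⟩
  have hthin := PR_thin hs0.le hs1.le hps (CrossX.incr_Xev (3 * r) r) hFD k
  set B : Set Cfg := {ω | ∃ K : Finset Edge, K.card ≤ k ∧ closeE ω K ∉ CrossX.Xev (3 * r) r}
    with hB
  have hBd : Dep (↑(eF (rect 0 ((3 * r : ℕ) : ℤ) 0 r)) : Set Edge) B := by
    intro ω ω' h
    refine exists_congr fun K => and_congr_right fun _ =>
      not_congr (CrossX.dep_Xev (3 * r) r _ _ fun e he => ?_)
    unfold closeE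
    rw [h e he]
  have hpow : Real.exp (-(c₁ / 2 * r)) ≤ (1 - s) ^ k := by
    have h1 : (1 - s) ^ k = Real.exp (-(L * k)) := by
      have h2 : 1 - s = Real.exp (-L) := by
        rw [hL, neg_neg, Real.exp_log (by linarith)]
      rw [h2, ← Real.exp_nat_mul]
      congr 1
      ring
    rw [h1]
    apply Real.exp_le_exp.2
    have h3 : L * k ≤ L * (c₂ * r) := mul_le_mul_of_nonneg_left hk1 hL0.le
    have h4 : L * (c₂ * r) = c₁ / 2 * r := by rw [hc₂]; field_simp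
    linarith
  have hBp : PR p B ≤ D * Real.exp (-(c₁ / 2 * r)) := by
    have h1 : Real.exp (-(c₁ / 2 * r)) * PR p B ≤ D * Real.exp (-(c₁ * r)) :=
      (mul_le_mul_of_nonneg_right hpow (PR_nonneg _ _)).trans (hthin.trans hno)
    have h2 : D * Real.exp (-(c₁ * r)) =
        Real.exp (-(c₁ / 2 * r)) * (D * Real.exp (-(c₁ / 2 * r))) := by
      have : Real.exp (-(c₁ * r)) = Real.exp (-(c₁ / 2 * r)) * Real.exp (-(c₁ / 2 * r)) := by
        rw [← Real.exp_add]; congr 1; ring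
      rw [this]; ring
    rw [h2] at h1
    exact le_of_mul_le_mul_left h1 (Real.exp_pos _)
  have hsub : Bᶜ ⊆ {ω | HX (Op ω) 0 r C} := by
    intro ω hω
    have h1 : ∀ K : Finset Edge, K.card ≤ k → closeE ω K ∈ CrossX.Xev (3 * r) r := by
      intro K hK
      by_contra hc
      exact hω ⟨K, hK, hc⟩
    obtain ⟨x, y, l, g1, g2, g3, g4, g5⟩ := CrossX.short_cross h1
    refine ⟨l, x, y, g1, ?_, ?_, ?_, ?_⟩
    · intro v hv
      have := g2 v hv
      simp only [Hr, mem_rect, Prod.fst_zero, Prod.snd_zero] at this ⊢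
      push_cast at this
      omega
    · rw [g3]; rfl
    · rw [g4, Prod.fst_zero]; push_cast; ring
    · have h2 := g5.trans (CrossX.rect_card r)
      have h3 : (len l : ℝ) * (k + 1) ≤ 2 * ((3 * r + 1) * (r + 1)) := by exact_mod_cast h2
      have h4 : (len l : ℝ) * (c₂ * r) ≤ 16 * r * r := by
        have h5 : (len l : ℝ) * (c₂ * r) ≤ (len l : ℝ) * (k + 1) :=
          mul_le_mul_of_nonneg_left hk2.le (Nat.cast_nonneg _)
        nlinarith
      have h6 : (len l : ℝ) * c₂ ≤ 16 * r := by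
        have h7 : ((len l : ℝ) * c₂) * r ≤ (16 * r) * r := by linarith
        exact le_of_mul_le_mul_right h7 (by linarith)
      have h8 : (len l : ℝ) ≤ 16 / c₂ * r := by
        rw [div_mul_eq_mul_div, le_div_iff₀ hc₂0]; exact h6
      have h9 : (len l : ℝ) ≤ C * r := h8.trans (mul_le_mul_of_nonneg_right hC2 (by linarith))
      exact_mod_cast h9
  have hcomp := PR_compl p (measurableSet_of_dep hBd)
  have hfin := PR_mono p hsub
  rw [hcomp] at hfin
  have h10 : D * Real.exp (-(c₁ / 2 * r)) ≤ C * Real.exp (-(c₁ / 2 * r)) :=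
    mul_le_mul_of_nonneg_right hC3 (Real.exp_pos _).le
  linarith

end Pool.Agent.SAWP
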