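import Pool.Agent.SAWP.Perc.Events

/-!
# SAWP: Duminil-Copin and Tassion, part 1 (module P7)

If `φ_q(S) < 1` for a finite set `S` containing `0` then `P_q(0 ↔ ∂Λ_n)` decays exponentially.

Proof.  Let `S ⊆ Λ_L`, `n > L + 1`.  On `{0 ↔ ∂Λ_n}` let `C` be the cluster of `0` in `S` (vertices
joined to `0` by open edges inside `S`).  Take an open path from `0` to `∂Λ_n` and its last vertex
`x` in `C`; the next vertex `y` is not in `S` (otherwise `y ∈ C`), the edge `xy` is open, and `y` is joined to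
`∂Λ_n` by a path avoiding `C`.  So
`P(0 ↔ ∂Λ_n) ≤ ∑_{x∈S} ∑_{y ∈ nbr x \ S} ∑_{C ∋ x} P(C_S(0) = C, xy open, y ↔ ∂Λ_n off C)`.
`{C_S(0) = C}` depends on the edges inside `S` touching `C`, the second event on the edge `xy` (not
inside `S`), the third one on the edges with no endpoint in `C`: independent, and
`P(y ↔ ∂Λ_n off C) ≤ P(y ↔ distance n-L-1 from y) = P(armEv (n-L-1))` (translation, `PR_perm`; a path from
`y` to `∂Λ_n` contains a path from `y` to sup-distance exactly `n-L-1` inside `box y (n-L-1)`).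
Summing over `C`: `P(armEv n) ≤ φ_q(S) P(armEv (n-L-1))`; iterate.
-/

set_option autoImplicit false

open MeasureTheory

namespace Pool.Agent.SAWP

namespace Dct1

/-! ### Clusters in `S` -/

open Classical in
/-- the cluster of `0` in `S` -/
noncomputable def clus (S : Finset V) (ω : Cfg) : Finset V :=
  S.filter (fun v => Conn (Op ω ∩ eS (↑S : Set V)) 0 v)

lemma mem_clus {S : Finset V} {ω : Cfg} {v : V} :
    v ∈ clus S ω ↔ v ∈ S ∧ Conn (Op ω ∩ eS (↑S : Set V)) 0 v := by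
  simp only [clus, Finset.mem_filter]

/-- `{C_S(0) = C}` -/
def clusEv (S C : Finset V) : Set Cfg := {ω | clus S ω = C}

/-- the edges inside `S` touching `C` -/
def tE (S C : Finset V) : Set Edge := {e | e ∈ eS (↑S : Set V) ∧ (src e ∈ C ∨ tgt e ∈ C)}

lemma edge_mem_tE {S C : Finset V} {a b : V} (h : Adj a b) (he : edgeOf a b ∈ eS (↑S : Set V))
    (ha : a ∈ C) : edgeOf a b ∈ tE S C := by
  refine ⟨he, ?_⟩
  rcases edgeOf_ends h with ⟨h1, h2⟩ | ⟨h1, h2⟩
  · left; rw [h1]; exact ha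
  · right; rw [h2]; exact ha

lemma clus_congr {S : Finset V} (h0 : (0 : V) ∈ S) {ω ω' : Cfg}
    (hω : ∀ e ∈ tE S (clus S ω), ω e = ω' e) : clus S ω' = clus S ω := by
  have h00 : (0 : V) ∈ clus S ω := mem_clus.2 ⟨h0, Conn.refl _ _⟩
  ext v
  constructor
  · intro hv
    refine (mem_clus.1 hv).2.induction (P := fun v => v ∈ clus S ω) h00 ?_
    intro a b ha hs
    have h1 := hω _ (edge_mem_tE hs.1 hs.2.2 ha)
    have h2 : Step (Op ω ∩ eS (↑S : Set V)) a b := ⟨hs.1, by
      change ω (edgeOf a b) = true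
      rw [h1]; exact hs.2.1, hs.2.2⟩
    exact mem_clus.2 ⟨((edgeOf_mem_eS hs.1).1 hs.2.2).2, (mem_clus.1 ha).2.trans h2.conn⟩
  · intro hv
    have key : v ∈ clus S ω ∧ Conn (Op ω' ∩ eS (↑S : Set V)) 0 v := by
      refine (mem_clus.1 hv).2.induction
        (P := fun v => v ∈ clus S ω ∧ Conn (Op ω' ∩ eS (↑S : Set V)) 0 v)
        ⟨h00, Conn.refl _ _⟩ ?_
      intro a b ha hs
      have h1 := hω _ (edge_mem_tE hs.1 hs.2.2 ha.1)
      have h2 : Step (Op ω' ∩ eS (↑S : Set V)) a b := ⟨hs.1, by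
        change ω' (edgeOf a b) = true
        rw [← h1]; exact hs.2.1, hs.2.2⟩
      exact ⟨mem_clus.2 ⟨((edgeOf_mem_eS hs.1).1 hs.2.2).2,
        (mem_clus.1 ha.1).2.trans hs.conn⟩, ha.2.trans h2.conn⟩
    exact mem_clus.2 ⟨(mem_clus.1 hv).1, key.2⟩

lemma dep_clusEv {S : Finset V} (h0 : (0 : V) ∈ S) (C : Finset V) :
    Dep (tE S C) (clusEv S C) := by
  intro ω ω' hω
  constructor
  · intro h
    have h' : clus S ω = C := h
    have := clus_congr h0 (ω := ω) (ω' := ω') (by rw [h']; exact hω)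
    exact this.trans h'
  · intro h
    have h' : clus S ω' = C := h
    have := clus_congr h0 (ω := ω') (ω' := ω) (by rw [h']; exact fun e he => (hω e he).symm)
    exact this.trans h'

lemma fd_clusEv {S : Finset V} (h0 : (0 : V) ∈ S) (C : Finset V) : FD (clusEv S C) :=
  ⟨eF S, (dep_clusEv h0 C).mono (by rw [coe_eF]; exact fun e he => he.1)⟩

/-! ### The part of the path after the cluster -/

/-- `y ↔ ∂Λ_n` off `C` -/
def offEv (n : ℕ) (C : Finset V) (y : V) : Set Cfg :=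
  {ω | ∃ z, nrm z = n ∧
    Conn (Op ω ∩ (eS (↑(box 0 n) : Set V) ∩ eS ((↑C : Set V)ᶜ))) y z}

lemma dep_offEv (n : ℕ) (C : Finset V) (y : V) :
    Dep (eS (↑(box 0 n) : Set V) ∩ eS ((↑C : Set V)ᶜ)) (offEv n C y) :=
  dep_of_op (fun O => ∃ z, nrm z = n ∧ Conn O y z)

lemma fd_offEv (n : ℕ) (C : Finset V) (y : V) : FD (offEv n C y) :=
  ⟨eF (box 0 n), (dep_offEv n C y).mono (by rw [coe_eF]; exact Set.inter_subset_left)⟩

lemma last_exit {O : Set Edge} {a b : V} {l : List V} (C : Set V) (h : IsW O a b l)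
    (hb : b ∉ C) (hl : ∃ v ∈ l, v ∈ C) :
    ∃ x y l', x ∈ C ∧ Step O x y ∧ IsW O y b l' ∧ ∀ v ∈ l', v ∉ C := by
  induction l generalizing a with
  | nil => exact absurd rfl h.ne_nil
  | cons c t ih =>
    cases t with
    | nil =>
      obtain ⟨rfl, rfl⟩ := isW_single.1 h
      obtain ⟨v, hv, hvC⟩ := hl
      rw [List.mem_singleton] at hv
      subst hv
      exact absurd hvC hb
    | cons d t =>
      obtain ⟨rfl, hs, h2⟩ := isW_cons_cons.1 h
      by_cases hd : ∃ v ∈ d :: t, v ∈ C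
      · exact ih h2 hd
      · push Not at hd
        obtain ⟨v, hv, hvC⟩ := hl
        rcases List.mem_cons.1 hv with rfl | hv
        · exact ⟨v, d, d :: t, hvC, hs, h2, hd⟩
        · exact absurd hvC (hd v hv)

lemma cover {S : Finset V} (h0 : (0 : V) ∈ S) {n : ℕ} (hn : ∀ v ∈ S, nrm v < n) {ω : Cfg}
    (hω : ω ∈ armEv n) : ∃ x ∈ S, ∃ y ∈ nbr x \ S, x ∈ clus S ω ∧ ω (edgeOf x y) = true ∧
      ω ∈ offEv n (clus S ω) y := by
  obtain ⟨z, hz, l, hl⟩ := hω
  have h00 : (0 : V) ∈ clus S ω := mem_clus.2 ⟨h0, Conn.refl _ _⟩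
  have hzC : z ∉ (↑(clus S ω) : Set V) := by
    intro h
    have := hn z (mem_clus.1 h).1
    omega
  obtain ⟨x, y, l', hx, hs, hl', hoff⟩ := last_exit (↑(clus S ω) : Set V) hl hzC
    ⟨0, hl.left_mem, h00⟩
  have hxS := (mem_clus.1 hx).1
  have hyS : y ∉ S := by
    intro hyS
    have hyC : y ∈ clus S ω := by
      refine mem_clus.2 ⟨hyS, (mem_clus.1 hx).2.trans (Step.conn ⟨hs.1, hs.2.1, ?_⟩)⟩
      exact (edgeOf_mem_eS hs.1).2 ⟨hxS, hyS⟩
    exact hoff y hl'.left_mem hyC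
  refine ⟨x, hxS, y, Finset.mem_sdiff.2 ⟨mem_nbr.2 hs.1, hyS⟩, hx, hs.2.1, z, hz, l', ?_⟩
  have h1 := hl'.restrict (R := ((↑(clus S ω) : Set V)ᶜ)) (fun v hv => hoff v hv)
  rwa [Set.inter_assoc] at h1

/-! ### Translation -/

/-- translation of edges -/
def sh (y : V) : Edge ≃ Edge := (Equiv.addRight y).prodCongr (Equiv.refl Bool)

lemma sh_apply (y : V) (e : Edge) : sh y e = (e.1 + y, e.2) := rfl

lemma edgeOf_add (a b y : V) : edgeOf (a + y) (b + y) = sh y (edgeOf a b) := by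
  rw [sh_apply]
  simp only [edgeOf, Prod.fst_add, Prod.snd_add, add_left_inj]
  refine Prod.ext (Prod.ext ?_ ?_) rfl
  · exact min_add_add_right _ _ _
  · exact min_add_add_right _ _ _

lemma adj_add {a b : V} (y : V) : Adj (a + y) (b + y) ↔ Adj a b := by
  simp [Adj]

lemma conn_map {O O' : Set Edge} (f : V → V) (hf : ∀ a b, Step O a b → Step O' (f a) (f b))
    {x z : V} (h : Conn O x z) : Conn O' (f x) (f z) :=
  h.induction (P := fun v => Conn O' (f x) (f v)) (Conn.refl _ _)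
    fun a b ha hs => ha.trans (hf a b hs).conn

lemma nrm_add_le (a b : V) : nrm (a + b) ≤ nrm a + nrm b := by
  simp only [nrm, Prod.fst_add, Prod.snd_add]
  have h1 := le_max_left a.1.natAbs a.2.natAbs
  have h2 := le_max_right a.1.natAbs a.2.natAbs
  have h3 := le_max_left b.1.natAbs b.2.natAbs
  have h4 := le_max_right b.1.natAbs b.2.natAbs
  refine max_le ?_ ?_ <;> omega

lemma nrm_adj {a b c : V} (h : Adj a b) : nrm (b - c) ≤ nrm (a - c) + 1 := by
  have h4 := h
  simp only [nrm, Prod.fst_sub, Prod.snd_sub, Adj] at *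
  have h5 := abs_le.1 (show |a.1 - b.1| ≤ 1 by have := abs_nonneg (a.2 - b.2); omega)
  have h6 := abs_le.1 (show |a.2 - b.2| ≤ 1 by have := abs_nonneg (a.1 - b.1); omega)
  have h7 := le_max_left (a.1 - c.1).natAbs (a.2 - c.2).natAbs
  have h8 := le_max_right (a.1 - c.1).natAbs (a.2 - c.2).natAbs
  refine max_le ?_ ?_ <;> omega

/-- a walk from `y` reaching sup-distance `≥ m` reaches sup-distance `m` inside the box -/
lemma exists_exit {O : Set Edge} {a z : V} {l : List V} (y : V) (m : ℕ) (h : IsW O a z l)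
    (ha : nrm (a - y) ≤ m) (hz : m ≤ nrm (z - y)) :
    ∃ z', nrm (z' - y) = m ∧ Conn (O ∩ eS (↑(box y m) : Set V)) a z' := by
  induction l generalizing a with
  | nil => exact absurd rfl h.ne_nil
  | cons c t ih =>
    by_cases hc : nrm (a - y) = m
    · exact ⟨a, hc, Conn.refl _ _⟩
    cases t with
    | nil =>
      obtain ⟨rfl, rfl⟩ := isW_single.1 h
      omega
    | cons d t =>
      obtain ⟨rfl, hs, h2⟩ := isW_cons_cons.1 h
      have hd := nrm_adj (c := y) hs.1
      obtain ⟨z', hz', hcn⟩ := ih h2 (by omega)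
      refine ⟨z', hz', Conn.trans (Step.conn ⟨hs.1, hs.2, ?_⟩) hcn⟩
      refine (edgeOf_mem_eS hs.1).2 ⟨?_, ?_⟩
      · exact mem_box.2 (by omega)
      · exact mem_box.2 (by omega)

lemma offEv_le (q : unitInterval) {n m : ℕ} (C : Finset V) {y : V} (hy : nrm y + m ≤ n) :
    PR q (offEv n C y) ≤ PR q (armEv m) := by
  have hmeas : MeasurableSet (armEv m) := measurableSet_of_dep (dep_armEv m)
  rw [← PR_perm q (sh y) hmeas]
  refine PR_mono q ?_
  rintro ω ⟨z, hz, l, hl⟩
  have hdist : m ≤ nrm (z - y) := by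
    have h1 := nrm_add_le (z - y) y
    rw [sub_add_cancel] at h1
    omega
  obtain ⟨z', hz', hc⟩ := exists_exit y m hl (by simp [nrm]) hdist
  refine ⟨z' - y, hz', ?_⟩
  have h1 := conn_map (O' := Op (fun e => ω (sh y e)) ∩ eS (↑(box 0 m) : Set V))
    (fun v => v - y) ?_ hc
  · simpa using h1
  · intro a b hs
    have hadj : Adj (a - y) (b - y) := by
      have := adj_add (a := a - y) (b := b - y) y
      rw [sub_add_cancel, sub_add_cancel] at this
      exact this.1 hs.1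
    refine ⟨hadj, ?_, ?_⟩
    · change ω (sh y (edgeOf (a - y) (b - y))) = true
      rw [← edgeOf_add, sub_add_cancel, sub_add_cancel]
      exact hs.2.1.1
    · have h2 := (edgeOf_mem_eS hs.1).1 hs.2.2
      refine (edgeOf_mem_eS hadj).2 ⟨?_, ?_⟩
      · have := mem_box.1 h2.1
        exact mem_box.2 (by rw [sub_zero]; exact this)
      · have := mem_box.1 h2.2
        exact mem_box.2 (by rw [sub_zero]; exact this)

/-! ### The one-step inequality -/

lemma indep3 (q : unitInterval) {S : Finset V} (h0 : (0 : V) ∈ S) {n : ℕ} {C : Finset V}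
    {x y : V} (hx : x ∈ C) (hxy : Adj x y) (hyS : y ∉ S) :
    PR q (clusEv S C ∩ {ω | ω (edgeOf x y) = true} ∩ offEv n C y)
      = PR q (clusEv S C) * q.1 * PR q (offEv n C y) := by
  have hdE : Dep {edgeOf x y} {ω : Cfg | ω (edgeOf x y) = true} := by
    intro ω ω' hω
    have := hω (edgeOf x y) rfl
    simp only [Set.mem_ofPred_eq, this]
  have hfE : FD {ω : Cfg | ω (edgeOf x y) = true} :=
    ⟨{edgeOf x y}, hdE.mono (by simp)⟩
  have hd1 : Disjoint (tE S C) {edgeOf x y} := by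
    rw [Set.disjoint_singleton_right]
    intro h
    exact hyS ((edgeOf_mem_eS hxy).1 h.1).2
  have hA := dep_clusEv h0 C
  have hfA := fd_clusEv h0 C
  have h1 := PR_indep q hA hdE hd1 hfA hfE
  have hAE : Dep (tE S C ∪ {edgeOf x y}) (clusEv S C ∩ {ω | ω (edgeOf x y) = true}) :=
    (hA.mono Set.subset_union_left).inter (hdE.mono Set.subset_union_right)
  have hfAE : FD (clusEv S C ∩ {ω | ω (edgeOf x y) = true}) := by
    obtain ⟨F1, hF1⟩ := hfA
    obtain ⟨F2, hF2⟩ := hfE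
    classical
    exact ⟨F1 ∪ F2, (hF1.mono (by simp)).inter (hF2.mono (by simp))⟩
  have hd2 : Disjoint (tE S C ∪ {edgeOf x y})
      (eS (↑(box 0 n) : Set V) ∩ eS ((↑C : Set V)ᶜ)) := by
    rw [Set.disjoint_left]
    rintro e he ⟨-, he1, he2⟩
    rcases he with he | he
    · rcases he.2 with h | h
      · exact he1 h
      · exact he2 h
    · rw [Set.mem_singleton_iff] at he
      rw [he] at he1 he2
      rcases edgeOf_ends hxy with ⟨h3, h4⟩ | ⟨h3, h4⟩
      · rw [h3] at he1; exact he1 hx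
      · rw [h4] at he2; exact he2 hx
  rw [PR_indep q hAE (dep_offEv n C y) hd2 hfAE (fd_offEv n C y), h1, PR_open]

lemma sum_clus (q : unitInterval) {S : Finset V} (h0 : (0 : V) ∈ S) (x : V) (hx : x ∈ S) :
    ∑ C ∈ S.powerset with x ∈ C, PR q (clusEv S C) = PR q (connIn S x) := by
  classical
  have h1 : connIn S x = ⋃ C ∈ S.powerset.filter (fun C => x ∈ C), clusEv S C := by
    ext ω
    simp only [Set.mem_iUnion, Finset.mem_filter, Finset.mem_powerset, exists_prop]
    constructor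
    · intro h
      exact ⟨clus S ω, ⟨Finset.filter_subset _ _, mem_clus.2 ⟨hx, h⟩⟩, rfl⟩
    · rintro ⟨C, ⟨-, hC⟩, h⟩
      have h' : clus S ω = C := h
      rw [← h'] at hC
      exact (mem_clus.1 hC).2
  rw [h1, PR, measureReal_biUnion_finset]
  · rfl
  · intro C _ C' _ hne
    rw [Function.onFun, Set.disjoint_left]
    intro ω h h'
    have h2 : clus S ω = C := h
    have h3 : clus S ω = C' := h'
    exact hne (h2.symm.trans h3)
  · intro C _
    exact (fd_clusEv h0 C).measurableSet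

lemma one_step (q : unitInterval) {S : Finset V} (h0 : (0 : V) ∈ S) {L : ℕ}
    (hL : ∀ v ∈ S, nrm v ≤ L) {m : ℕ} (hm : 1 ≤ m) :
    PR q (armEv (m + (L + 1))) ≤ phi q S * PR q (armEv m) := by
  classical
  set n := m + (L + 1) with hn
  have hcov : armEv n ⊆ ⋃ x ∈ S, ⋃ y ∈ nbr x \ S, ⋃ C ∈ S.powerset.filter (fun C => x ∈ C),
      (clusEv S C ∩ {ω | ω (edgeOf x y) = true} ∩ offEv n C y) := by
    intro ω hω
    obtain ⟨x, hx, y, hy, hxC, he, hoff⟩ := cover h0 (fun v hv => by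
      have := hL v hv
      omega) hω
    simp only [Set.mem_iUnion]
    refine ⟨x, hx, y, hy, clus S ω, Finset.mem_filter.2 ⟨Finset.mem_powerset.2
      (Finset.filter_subset _ _), hxC⟩, ⟨rfl, he⟩, hoff⟩
  have hy' : ∀ x ∈ S, ∀ y ∈ nbr x \ S, nrm y + m ≤ n := by
    intro x hx y hy
    have h1 := mem_nbr.1 (Finset.mem_sdiff.1 hy).1
    have h2 := nrm_adj (c := 0) h1
    rw [sub_zero, sub_zero] at h2
    have h3 := hL x hx
    omega
  calc PR q (armEv n) ≤ PR q (⋃ x ∈ S, ⋃ y ∈ nbr x \ S,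
        ⋃ C ∈ S.powerset.filter (fun C => x ∈ C),
        (clusEv S C ∩ {ω | ω (edgeOf x y) = true} ∩ offEv n C y)) := PR_mono q hcov
    _ ≤ ∑ x ∈ S, PR q (⋃ y ∈ nbr x \ S, ⋃ C ∈ S.powerset.filter (fun C => x ∈ C),
        (clusEv S C ∩ {ω | ω (edgeOf x y) = true} ∩ offEv n C y)) := PR_biUnion_le q S _
    _ ≤ ∑ x ∈ S, ∑ y ∈ nbr x \ S, PR q (⋃ C ∈ S.powerset.filter (fun C => x ∈ C),
        (clusEv S C ∩ {ω | ω (edgeOf x y) = true} ∩ offEv n C y)) :=
        Finset.sum_le_sum fun x _ => PR_biUnion_le q _ _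
    _ ≤ ∑ x ∈ S, ∑ y ∈ nbr x \ S, ∑ C ∈ S.powerset.filter (fun C => x ∈ C),
        PR q (clusEv S C ∩ {ω | ω (edgeOf x y) = true} ∩ offEv n C y) :=
        Finset.sum_le_sum fun x _ => Finset.sum_le_sum fun y _ => PR_biUnion_le q _ _
    _ ≤ ∑ x ∈ S, ∑ y ∈ nbr x \ S, ∑ C ∈ S.powerset.filter (fun C => x ∈ C),
        PR q (clusEv S C) * (q.1 * PR q (armEv m)) := by
        refine Finset.sum_le_sum fun x hx => Finset.sum_le_sum fun y hy =>
          Finset.sum_le_sum fun C hC => ?_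
        have hy1 := Finset.mem_sdiff.1 hy
        rw [indep3 q h0 (Finset.mem_filter.1 hC).2 (mem_nbr.1 hy1.1) hy1.2, mul_assoc]
        refine mul_le_mul_of_nonneg_left ?_ (PR_nonneg q _)
        exact mul_le_mul_of_nonneg_left (offEv_le q C (hy' x hx y hy)) q.2.1
    _ = ∑ x ∈ S, ∑ y ∈ nbr x \ S, PR q (connIn S x) * (q.1 * PR q (armEv m)) := by
        refine Finset.sum_congr rfl fun x hx => Finset.sum_congr rfl fun y _ => ?_
        rw [← Finset.sum_mul, sum_clus q h0 x hx]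
    _ = phi q S * PR q (armEv m) := by
        rw [phi, Finset.mul_sum, Finset.sum_mul]
        refine Finset.sum_congr rfl fun x _ => ?_
        rw [Finset.sum_const, nsmul_eq_mul]; ring

end Dct1

open Dct1 in
theorem dct1 (q : unitInterval) (S : Finset V) (h0 : (0 : V) ∈ S) (h : phi q S < 1) :
    ∃ C c : ℝ, 0 < C ∧ 0 < c ∧ ∀ n : ℕ, PR q (armEv n) ≤ C * Real.exp (-(c * n)) := by
  obtain ⟨L, hL⟩ : ∃ L : ℕ, ∀ v ∈ S, nrm v ≤ L := ⟨S.sup nrm, fun v hv => Finset.le_sup hv⟩
  set r : ℝ := max (phi q S) (1 / 2) with hr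
  have hr0 : 0 < r := lt_of_lt_of_le (by norm_num) (le_max_right _ _)
  have hr1 : r < 1 := max_lt h (by norm_num)
  set K : ℕ := L + 1 with hK
  have hK0 : (0 : ℝ) < K := by rw [hK]; positivity
  set c : ℝ := -Real.log r / K with hc
  have hlog : Real.log r < 0 := Real.log_neg hr0 hr1
  have hc0 : 0 < c := div_pos (by linarith) hK0
  have hcK : c * K = -Real.log r := by rw [hc]; field_simp
  refine ⟨Real.exp (c * K), c, Real.exp_pos _, hc0, ?_⟩
  intro n
  induction n using Nat.strong_induction_on with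
  | _ n ih =>
    by_cases hn : n ≤ K
    · refine (PR_le_one q _).trans ?_
      rw [← Real.exp_add]
      apply Real.one_le_exp
      have : (n : ℝ) ≤ K := by exact_mod_cast hn
      nlinarith
    · obtain ⟨m, rfl⟩ : ∃ m, n = m + K := ⟨n - K, by omega⟩
      have hm : 1 ≤ m := by omega
      have h1 := one_step q h0 hL hm
      have h2 := ih m (by omega)
      have h3 : phi q S * PR q (armEv m) ≤ r * PR q (armEv m) :=
        mul_le_mul_of_nonneg_right (le_max_left _ _) (PR_nonneg q _)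
      have h4 : r * PR q (armEv m) ≤ r * (Real.exp (c * K) * Real.exp (-(c * m))) :=
        mul_le_mul_of_nonneg_left h2 hr0.le
      refine (h1.trans (h3.trans h4)).trans (le_of_eq ?_)
      have h5 : r = Real.exp (-(c * K)) := by rw [hcK, neg_neg, Real.exp_log hr0]
      conv_lhs => rw [h5]
      rw [← Real.exp_add, ← Real.exp_add, ← Real.exp_add]
      congr 1
      push_cast; ring

end Pool.Agent.SAWP
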