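import Pool.Agent.SAWP.Perc.Events
import Pool.Agent.SAWP.Perc.Russo

/-!
# SAWP: Duminil-Copin and Tassion, part 2 (module P8)

If `φ_q(S) ≥ 1` for all finite `S ∋ 0` and all `q ∈ [q₀,q₁]` then
`P_{q₁}(0 ↔ ∂Λ_n) ≥ 1 - e^{-4(q₁-q₀)}` for all `n`.

Proof. Let `θ(q) = P_q(armEv n)`, a polynomial in `q` (`PR_finite`, `hasDerivAt_pol`), `D = eF (box 0 n)`.
`θ'(q) = ∑_e P_q(e pivotal)` where `e` pivotal means `ω ∪ e ∈ armEv`, `ω \ e ∉ armEv` (an event not
depending on the state of `e`), so `P_q(e pivotal) = (1-q)^{-1} P_q(e pivotal, ω ∉ armEv)` for `q<1`.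
For `ω ∉ armEv n` let `𝒮` be the set of `x ∈ Λ_n` not joined to `∂Λ_n` inside `Λ_n`; `0 ∈ 𝒮`.  If
`x ∈ 𝒮` is joined to `0` inside `𝒮`, `y ∈ Λ_n \ 𝒮` is a neighbour of `x`, then `xy` is closed and
pivotal. (For `x ∈ 𝒮` all four neighbours are in `Λ_n`, as `nrm x < n`.)  `{𝒮 = S}` depends only on the edges of `D` with at least one endpoint outside `S`, and
`{0 ↔ x in S}` on the edges inside `S`.  Hence for `q<1`
`(1-q) θ'(q) ≥ ∑_{S ∋ 0} P(𝒮 = S) ∑_{x∈S} #(nbr x \ S) P(0 ↔ x in S) = (1/q) ∑_S P(𝒮=S) φ_q(S)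
≥ (1/q)(1 - θ(q))`, so `θ' ≥ (1-θ)/(q(1-q)) ≥ 4 (1-θ)`, and `e^{4q}(1-θ(q))` is nonincreasing.
(`n = 0`: `armEv 0` is the sure event.)  `0 < q₀` follows from `φ ≥ 1`; `q₁ = 1` by continuity or directly `θ(1)=1`.
-/

set_option autoImplicit false

open MeasureTheory

namespace Pool.Agent.SAWP

/-! ### Pivotal edges -/

/-- `e` is pivotal for `armEv n` (regardless of its own state). -/
def d2Piv (n : ℕ) (e : Edge) : Set Cfg :=
  {ω | Function.update ω e true ∈ armEv n ∧ Function.update ω e false ∉ armEv n}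

lemma d2_update_insert (T : Finset Edge) (e : Edge) :
    Function.update (cfgOf T) e true = cfgOf (by classical exact insert e T) := by
  classical
  funext d
  by_cases h : d = e
  · subst h; simp [cfgOf]
  · rw [Function.update_of_ne h]
    simp [cfgOf, Finset.mem_insert, h]

lemma d2_update_erase (T : Finset Edge) (e : Edge) :
    Function.update (cfgOf T) e false = cfgOf (by classical exact T.erase e) := by
  classical
  funext d
  by_cases h : d = e
  · subst h; simp [cfgOf]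
  · rw [Function.update_of_ne h]
    simp [cfgOf, Finset.mem_erase, h]

lemma d2_dep_piv (n : ℕ) (e : Edge) : Dep ((↑(eF (box 0 n)) : Set Edge) \ {e}) (d2Piv n e) := by
  intro ω ω' h
  have h1 : ∀ b : Bool, ∀ d ∈ (↑(eF (box 0 n)) : Set Edge),
      Function.update ω e b d = Function.update ω' e b d := by
    intro b d hd
    by_cases hde : d = e
    · subst hde; simp
    · rw [Function.update_of_ne hde, Function.update_of_ne hde]
      exact h d ⟨hd, hde⟩
  unfold d2Piv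
  exact and_congr (dep_armEv n _ _ (h1 true)) (not_congr (dep_armEv n _ _ (h1 false)))

lemma d2_dep_closed (e : Edge) : Dep ({e} : Set Edge) {ω : Cfg | ω e = false} := by
  intro ω ω' h
  have := h e rfl
  simp only [Set.mem_ofPred_eq, this]

lemma d2_fd_closed (e : Edge) : FD {ω : Cfg | ω e = false} :=
  ⟨{e}, by rw [Finset.coe_singleton]; exact d2_dep_closed e⟩

lemma d2_fd_piv (n : ℕ) (e : Edge) : FD (d2Piv n e) :=
  ⟨eF (box 0 n), (d2_dep_piv n e).mono Set.sdiff_subset⟩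

lemma d2_PR_closed (q : unitInterval) (e : Edge) : PR q {ω : Cfg | ω e = false} = 1 - q.1 := by
  have h1 : {ω : Cfg | ω e = false} = {ω : Cfg | ω e = true}ᶜ := by
    ext ω; simp
  have h2 : FD {ω : Cfg | ω e = true} := ⟨{e}, by
    rw [Finset.coe_singleton]
    intro ω ω' h
    have := h e rfl
    simp only [Set.mem_ofPred_eq, this]⟩
  rw [h1, PR_compl q h2.measurableSet, PR_open]

lemma d2_PR_piv_closed (q : unitInterval) (n : ℕ) (e : Edge) :
    PR q (d2Piv n e ∩ {ω : Cfg | ω e = false}) = (1 - q.1) * PR q (d2Piv n e) := by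
  rw [PR_indep q (d2_dep_piv n e) (d2_dep_closed e) Set.disjoint_sdiff_left (d2_fd_piv n e)
    (d2_fd_closed e), d2_PR_closed, mul_comm]

open Classical in
/-- the derivative of `q ↦ P_q(armEv n)` -/
lemma d2_deriv (n : ℕ) (q : unitInterval) :
    HasDerivAt (pol (eF (box 0 n)) (fun T => if cfgOf T ∈ armEv n then (1 : ℝ) else 0))
      (∑ e ∈ eF (box 0 n), PR q (d2Piv n e)) q.1 := by
  have h := hasDerivAt_pol (eF (box 0 n)) (fun T => if cfgOf T ∈ armEv n then (1 : ℝ) else 0) q.1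
  convert h using 1
  refine Finset.sum_congr rfl fun e _ => ?_
  rw [PR_finite q ((d2_dep_piv n e).mono (D' := (↑(eF (box 0 n)) : Set Edge)) Set.sdiff_subset)]
  congr 1
  funext T
  have hA : cfgOf T ∈ d2Piv n e ↔ cfgOf (insert e T) ∈ armEv n ∧ cfgOf (T.erase e) ∉ armEv n := by
    unfold d2Piv
    rw [Set.mem_ofPred_eq, d2_update_insert, d2_update_erase]
  have hinc : cfgOf (T.erase e) ∈ armEv n → cfgOf (insert e T) ∈ armEv n := by
    refine incr_armEv n _ _ ?_
    intro d hd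
    simp only [cfgOf, decide_eq_true_eq, Finset.mem_erase, Finset.mem_insert] at hd ⊢
    exact Or.inr hd.2
  by_cases h1 : cfgOf (insert e T) ∈ armEv n <;> by_cases h2 : cfgOf (T.erase e) ∈ armEv n
  · rw [if_neg (by rw [hA]; exact fun h => h.2 h2), if_pos h1, if_pos h2]; simp
  · rw [if_pos (hA.2 ⟨h1, h2⟩), if_pos h1, if_neg h2]; simp
  · exact absurd (hinc h2) h1
  · rw [if_neg (by rw [hA]; exact fun h => h1 h.1), if_neg h1, if_neg h2]; simp

/-! ### The set of vertices not joined to the boundary -/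

/-- `x` is joined to `∂Λ_n` inside `Λ_n` -/
def d2J (n : ℕ) (ω : Cfg) (x : V) : Prop :=
  ∃ y, nrm y = n ∧ Conn (Op ω ∩ eS (↑(box 0 n) : Set V)) x y

open Classical in
noncomputable def d2S (n : ℕ) (ω : Cfg) : Finset V := (box 0 n).filter fun x => ¬ d2J n ω x

lemma mem_d2S {n : ℕ} {ω : Cfg} {x : V} : x ∈ d2S n ω ↔ x ∈ box 0 n ∧ ¬ d2J n ω x := by
  classical
  simp [d2S]

lemma d2_zero_mem {n : ℕ} {ω : Cfg} : (0 : V) ∈ d2S n ω ↔ ω ∉ armEv n := by
  rw [mem_d2S]
  have h0 : (0 : V) ∈ box 0 n := by rw [mem_box]; simp [nrm]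
  constructor
  · exact fun h => h.2
  · exact fun h => ⟨h0, h⟩

lemma d2J_of_nrm {n : ℕ} {ω : Cfg} {x : V} (h : nrm x = n) : d2J n ω x := ⟨x, h, Conn.refl _ _⟩

lemma d2J_step {n : ℕ} {ω : Cfg} {x y : V} (h : Step (Op ω ∩ eS (↑(box 0 n) : Set V)) x y)
    (hy : d2J n ω y) : d2J n ω x := by
  obtain ⟨z, hz, hc⟩ := hy
  exact ⟨z, hz, h.conn.trans hc⟩

lemma d2_nbr_box {n : ℕ} {x y : V} (hx : x ∈ box 0 n) (hn : nrm x ≠ n) (hxy : Adj x y) :
    y ∈ box 0 n := by
  rw [mem_box, sub_zero] at hx ⊢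
  have h1 : nrm x < n := lt_of_le_of_ne hx hn
  simp only [nrm] at *
  have h2 := le_max_left x.1.natAbs x.2.natAbs
  have h3 := le_max_right x.1.natAbs x.2.natAbs
  have h4 := abs_nonneg (x.1 - y.1)
  have h5 := abs_nonneg (x.2 - y.2)
  unfold Adj at hxy
  have h6 := abs_le.1 (show |x.1 - y.1| ≤ 1 by omega)
  have h7 := abs_le.1 (show |x.2 - y.2| ≤ 1 by omega)
  refine max_le ?_ ?_ <;> omega

/-- one direction of the dependence statement -/
lemma d2_dep_aux {n : ℕ} {S : Finset V} {ω ω' : Cfg}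
    (h : ∀ e ∈ (↑(eF (box 0 n)) : Set Edge) \ eS (↑S : Set V), ω e = ω' e) (hS : d2S n ω = S) :
    d2S n ω' = S := by
  have hout : ∀ a b : V, b ∉ S → Step (Op ω ∩ eS (↑(box 0 n) : Set V)) a b →
      Step (Op ω' ∩ eS (↑(box 0 n) : Set V)) a b := by
    intro a b hb hs
    refine ⟨hs.1, ?_, hs.2.2⟩
    have h1 : edgeOf a b ∉ eS (↑S : Set V) := by
      rw [edgeOf_mem_eS hs.1]; exact fun h2 => hb h2.2
    have h2 := h (edgeOf a b) ⟨by rw [coe_eF]; exact hs.2.2, h1⟩
    have h3 : ω (edgeOf a b) = true := hs.2.1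
    show ω' (edgeOf a b) = true
    rw [← h2]; exact h3
  have hout' : ∀ a b : V, b ∉ S → Step (Op ω' ∩ eS (↑(box 0 n) : Set V)) a b →
      Step (Op ω ∩ eS (↑(box 0 n) : Set V)) a b := by
    intro a b hb hs
    refine ⟨hs.1, ?_, hs.2.2⟩
    have h1 : edgeOf a b ∉ eS (↑S : Set V) := by
      rw [edgeOf_mem_eS hs.1]; exact fun h2 => hb h2.2
    have h2 := h (edgeOf a b) ⟨by rw [coe_eF]; exact hs.2.2, h1⟩
    have h3 : ω' (edgeOf a b) = true := hs.2.1
    show ω (edgeOf a b) = true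
    rw [h2]; exact h3
  have hJ : ∀ x ∈ box 0 n, x ∉ S → d2J n ω x := by
    intro x hx hxS
    by_contra hc
    exact hxS (by rw [← hS, mem_d2S]; exact ⟨hx, hc⟩)
  have hJ' : ∀ x ∈ S, ¬ d2J n ω x := by
    intro x hx
    rw [← hS, mem_d2S] at hx
    exact hx.2
  have hSbox : ∀ x ∈ S, x ∈ box 0 n := by
    intro x hx
    rw [← hS, mem_d2S] at hx
    exact hx.1
  -- outside `S` joined in `ω'`
  have h1 : ∀ x, x ∉ S → x ∈ box 0 n → d2J n ω' x := by
    intro x hxS hx
    obtain ⟨y, hy, l, hl⟩ := hJ x hx hxS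
    -- induction along the walk
    have key : ∀ (l : List V) (x : V), x ∉ S → IsW (Op ω ∩ eS (↑(box 0 n) : Set V)) x y l →
        d2J n ω' x := by
      intro l
      induction l with
      | nil => intro x _ hl; exact absurd rfl hl.ne_nil
      | cons a t ih =>
        intro x hxS hl
        cases t with
        | nil =>
          obtain ⟨rfl, rfl⟩ := isW_single.1 hl
          exact d2J_of_nrm hy
        | cons b t =>
          obtain ⟨rfl, hs, h2⟩ := isW_cons_cons.1 hl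
          have hbS : b ∉ S := fun hb => hJ' b hb ⟨y, hy, _, h2⟩
          exact d2J_step (hout a b hbS hs) (ih b hbS h2)
    exact key l x hxS hl
  -- inside `S` not joined in `ω'`
  have h2 : ∀ x ∈ S, ¬ d2J n ω' x := by
    intro x hx hc
    obtain ⟨y, hy, l, hl⟩ := hc
    have hyS : y ∉ S := fun h3 => hJ' y h3 (d2J_of_nrm hy)
    have key : ∀ (l : List V) (x : V), x ∈ S → IsW (Op ω' ∩ eS (↑(box 0 n) : Set V)) x y l →
        False := by
      intro l
      induction l with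
      | nil => intro x _ hl; exact absurd rfl hl.ne_nil
      | cons a t ih =>
        intro x hxS hl
        cases t with
        | nil =>
          obtain ⟨rfl, rfl⟩ := isW_single.1 hl
          exact hyS hxS
        | cons b t =>
          obtain ⟨rfl, hs, h2⟩ := isW_cons_cons.1 hl
          by_cases hbS : b ∈ S
          · exact ih b hbS h2
          · have h3 := hout' a b hbS hs
            have hb : b ∈ box 0 n := ((edgeOf_mem_eS hs.1).1 hs.2.2).2
            exact hJ' a hxS (d2J_step h3 (hJ b hb hbS))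
    exact key l x hx hl
  ext x
  rw [mem_d2S]
  constructor
  · rintro ⟨h3, h4⟩
    by_contra h5
    exact h4 (h1 x h5 h3)
  · intro h3
    exact ⟨hSbox x h3, h2 x h3⟩

lemma d2_dep (n : ℕ) (S : Finset V) :
    Dep ((↑(eF (box 0 n)) : Set Edge) \ eS (↑S : Set V)) {ω | d2S n ω = S} := by
  intro ω ω' h
  exact ⟨d2_dep_aux h, d2_dep_aux fun e he => (h e he).symm⟩

lemma d2_fd (n : ℕ) (S : Finset V) : FD {ω | d2S n ω = S} :=
  ⟨eF (box 0 n), (d2_dep n S).mono Set.sdiff_subset⟩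

/-- the pivotal edges found on `{𝒮 = S} ∩ {0 ↔ x in S}` -/
lemma d2_mem_piv {n : ℕ} {S : Finset V} {ω : Cfg} {x y : V} (h0 : (0 : V) ∈ S)
    (hS : d2S n ω = S) (hx : x ∈ S) (hy : y ∉ S) (hxy : Adj x y) (hc : ω ∈ connIn S x) :
    edgeOf x y ∈ eF (box 0 n) ∧ ω ∈ d2Piv n (edgeOf x y) ∩ {ω : Cfg | ω (edgeOf x y) = false} := by
  have hSbox : ∀ x ∈ S, x ∈ box 0 n := by
    intro x hx
    rw [← hS, mem_d2S] at hx
    exact hx.1
  have hxJ : ¬ d2J n ω x := by
    have := hx; rw [← hS, mem_d2S] at this; exact this.2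
  have hyb : y ∈ box 0 n := d2_nbr_box (hSbox x hx) (fun h => hxJ (d2J_of_nrm h)) hxy
  have hyJ : d2J n ω y := by
    by_contra hcon
    exact hy (by rw [← hS, mem_d2S]; exact ⟨hyb, hcon⟩)
  have heS : edgeOf x y ∈ eS (↑(box 0 n) : Set V) :=
    (edgeOf_mem_eS hxy).2 ⟨hSbox x hx, hyb⟩
  have he : edgeOf x y ∈ eF (box 0 n) := by
    have : edgeOf x y ∈ (↑(eF (box 0 n)) : Set Edge) := by rw [coe_eF]; exact heS
    exact this
  have hcl : ω (edgeOf x y) = false := by
    by_contra hcon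
    rw [Bool.not_eq_false] at hcon
    exact hxJ (d2J_step ⟨hxy, hcon, heS⟩ hyJ)
  refine ⟨he, ⟨?_, ?_⟩, hcl⟩
  · -- with the edge open
    have hmono : Op ω ⊆ Op (Function.update ω (edgeOf x y) true) := by
      intro d hd
      by_cases hde : d = edgeOf x y
      · subst hde; simp [Op]
      · show Function.update ω (edgeOf x y) true d = true
        rw [Function.update_of_ne hde]; exact hd
    obtain ⟨z, hz, hcz⟩ := hyJ
    refine ⟨z, hz, ?_⟩
    have h1 : Conn (Op (Function.update ω (edgeOf x y) true) ∩ eS (↑(box 0 n) : Set V)) 0 x := by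
      refine Conn.mono ?_ hc
      intro d hd
      exact ⟨hmono hd.1, hSbox _ hd.2.1, hSbox _ hd.2.2⟩
    have h2 : Conn (Op (Function.update ω (edgeOf x y) true) ∩ eS (↑(box 0 n) : Set V)) x y :=
      Step.conn ⟨hxy, by simp [Op], heS⟩
    exact (h1.trans h2).trans (hcz.mono (Set.inter_subset_inter_left _ hmono))
  · -- with the edge closed nothing changes
    have h1 : Function.update ω (edgeOf x y) false = ω := by
      rw [← hcl, Function.update_eq_self]
    rw [h1, ← d2_zero_mem, hS]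
    exact h0

/-- two pairs in `S × Sᶜ` with the same edge are equal -/
lemma d2_edge_inj {S : Finset V} {x y x' y' : V} (hx : x ∈ S) (hy : y ∉ S) (hx' : x' ∈ S)
    (hy' : y' ∉ S) (hxy : Adj x y) (hxy' : Adj x' y') (h : edgeOf x y = edgeOf x' y') :
    x = x' ∧ y = y' := by
  rcases edgeOf_ends hxy with ⟨h1, h2⟩ | ⟨h1, h2⟩ <;>
    rcases edgeOf_ends hxy' with ⟨h3, h4⟩ | ⟨h3, h4⟩
  · exact ⟨by rw [← h1, ← h3, h], by rw [← h2, ← h4, h]⟩
  · exfalso
    have : x = y' := by rw [← h1, ← h3, h]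
    exact hy' (this ▸ hx)
  · exfalso
    have : y = x' := by rw [← h1, ← h3, h]
    exact hy (this ▸ hx')
  · exact ⟨by rw [← h2, ← h4, h], by rw [← h1, ← h3, h]⟩

open Classical in
/-- the differential inequality, multiplied out -/
lemma d2_ineq (n : ℕ) (q : unitInterval) (h : ∀ S : Finset V, (0 : V) ∈ S → 1 ≤ phi q S) :
    1 - PR q (armEv n) ≤ q.1 * (1 - q.1) * ∑ e ∈ eF (box 0 n), PR q (d2Piv n e) := by
  set SS : Finset (Finset V) := (box 0 n).powerset.filter fun S => (0 : V) ∈ S with hSS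
  -- `1 - P(A) = ∑ P(𝒮 = S)`
  have hsum : 1 - PR q (armEv n) ≤ ∑ S ∈ SS, PR q {ω | d2S n ω = S} := by
    have hm : MeasurableSet (armEv n) := FD.measurableSet ⟨_, dep_armEv n⟩
    rw [← PR_compl q hm]
    refine le_trans (PR_mono q ?_) (PR_biUnion_le q SS _)
    intro ω hω
    simp only [Set.mem_iUnion]
    refine ⟨d2S n ω, ?_, rfl⟩
    rw [hSS, Finset.mem_filter, Finset.mem_powerset]
    refine ⟨Finset.filter_subset _ _, d2_zero_mem.2 hω⟩
  -- lower bound of each `P(piv ∩ closed)`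
  have hdisj : ∀ e, ∑ S ∈ SS, PR q ((d2Piv n e ∩ {ω : Cfg | ω e = false}) ∩ {ω | d2S n ω = S}) ≤
      PR q (d2Piv n e ∩ {ω : Cfg | ω e = false}) := by
    intro e
    have h1 : ∑ S ∈ SS, PR q ((d2Piv n e ∩ {ω : Cfg | ω e = false}) ∩ {ω | d2S n ω = S}) =
        PR q (⋃ S ∈ SS, ((d2Piv n e ∩ {ω : Cfg | ω e = false}) ∩ {ω | d2S n ω = S})) := by
      unfold PR
      rw [measureReal_biUnion_finset]
      · intro S _ S' _ hne
        rw [Function.onFun, Set.disjoint_left]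
        rintro ω ⟨-, h2⟩ ⟨-, h3⟩
        exact hne (h2.symm.trans h3)
      · intro S _
        exact ((d2_fd_piv n e).measurableSet.inter (d2_fd_closed e).measurableSet).inter
          (d2_fd n S).measurableSet
    rw [h1]
    apply PR_mono
    intro ω hω
    simp only [Set.mem_iUnion] at hω
    obtain ⟨S, _, h2, _⟩ := hω
    exact h2
  -- for each `S`
  have hS : ∀ S ∈ SS, PR q {ω | d2S n ω = S} ≤ q.1 * ∑ e ∈ eF (box 0 n),
      PR q ((d2Piv n e ∩ {ω : Cfg | ω e = false}) ∩ {ω | d2S n ω = S}) := by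
    intro S hSm
    have h0 : (0 : V) ∈ S := (Finset.mem_filter.1 hSm).2
    by_cases hE : {ω | d2S n ω = S} = ∅
    · rw [hE]
      simp only [Set.inter_empty]
      have h1 : PR q (∅ : Set Cfg) = 0 := by unfold PR; simp
      rw [h1]; simp
    obtain ⟨ω₀, hω₀⟩ := Set.nonempty_iff_ne_empty.2 hE
    have hω₀' : d2S n ω₀ = S := hω₀
    -- the edges
    set PP : Finset (V × V) := S.sigma (fun x => nbr x \ S) |>.image
      (fun p => (p.1, p.2)) with hPP
    have hmemPP : ∀ p ∈ PP, p.1 ∈ S ∧ p.2 ∉ S ∧ Adj p.1 p.2 := by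
      intro p hp
      rw [hPP, Finset.mem_image] at hp
      obtain ⟨⟨x, y⟩, hxy, rfl⟩ := hp
      rw [Finset.mem_sigma, Finset.mem_sdiff, mem_nbr] at hxy
      exact ⟨hxy.1, hxy.2.2, hxy.2.1⟩
    have hinb : ∀ p ∈ PP, edgeOf p.1 p.2 ∈ eF (box 0 n) := by
      intro p hp
      obtain ⟨h1, h2, h3⟩ := hmemPP p hp
      have h4 : p.1 ∈ box 0 n ∧ ¬ d2J n ω₀ p.1 := by rw [← mem_d2S, hω₀']; exact h1
      have h5 : p.2 ∈ box 0 n := d2_nbr_box h4.1 (fun h => h4.2 (d2J_of_nrm h)) h3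
      have : edgeOf p.1 p.2 ∈ (↑(eF (box 0 n)) : Set Edge) := by
        rw [coe_eF]; exact (edgeOf_mem_eS h3).2 ⟨h4.1, h5⟩
      exact this
    have h1 : ∑ p ∈ PP, PR q ((d2Piv n (edgeOf p.1 p.2) ∩
        {ω : Cfg | ω (edgeOf p.1 p.2) = false}) ∩ {ω | d2S n ω = S}) ≤
        ∑ e ∈ eF (box 0 n),
          PR q ((d2Piv n e ∩ {ω : Cfg | ω e = false}) ∩ {ω | d2S n ω = S}) := by
      have h2 : ∑ p ∈ PP, PR q ((d2Piv n (edgeOf p.1 p.2) ∩
          {ω : Cfg | ω (edgeOf p.1 p.2) = false}) ∩ {ω | d2S n ω = S}) =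
          ∑ e ∈ PP.image (fun p => edgeOf p.1 p.2),
            PR q ((d2Piv n e ∩ {ω : Cfg | ω e = false}) ∩ {ω | d2S n ω = S}) := by
        have hinj : Set.InjOn (fun p : V × V => edgeOf p.1 p.2) (↑PP : Set (V × V)) := by
          intro p hp p' hp' hpp
          obtain ⟨a1, a2, a3⟩ := hmemPP p hp
          obtain ⟨b1, b2, b3⟩ := hmemPP p' hp'
          obtain ⟨c1, c2⟩ := d2_edge_inj a1 a2 b1 b2 a3 b3 hpp
          exact Prod.ext c1 c2
        exact (Finset.sum_image (s := PP) (g := fun p : V × V => edgeOf p.1 p.2)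
          (f := fun e => PR q ((d2Piv n e ∩ {ω : Cfg | ω e = false}) ∩ {ω | d2S n ω = S}))
          hinj).symm
      rw [h2]
      refine Finset.sum_le_sum_of_subset_of_nonneg ?_ fun _ _ _ => PR_nonneg _ _
      intro e he
      rw [Finset.mem_image] at he
      obtain ⟨p, hp, rfl⟩ := he
      exact hinb p hp
    have h2 : ∑ p ∈ PP, PR q (connIn S p.1 ∩ {ω | d2S n ω = S}) ≤
        ∑ p ∈ PP, PR q ((d2Piv n (edgeOf p.1 p.2) ∩
          {ω : Cfg | ω (edgeOf p.1 p.2) = false}) ∩ {ω | d2S n ω = S}) := by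
      refine Finset.sum_le_sum fun p hp => PR_mono q ?_
      obtain ⟨a1, a2, a3⟩ := hmemPP p hp
      rintro ω ⟨h3, h4⟩
      exact ⟨(d2_mem_piv h0 h4 a1 a2 a3 h3).2, h4⟩
    have h3 : ∑ p ∈ PP, PR q (connIn S p.1 ∩ {ω | d2S n ω = S}) =
        (∑ x ∈ S, ((nbr x \ S).card : ℝ) * PR q (connIn S x)) * PR q {ω | d2S n ω = S} := by
      rw [hPP, Finset.sum_image]
      · rw [Finset.sum_sigma, Finset.sum_mul]
        refine Finset.sum_congr rfl fun x _ => ?_
        simp only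
        rw [Finset.sum_const, nsmul_eq_mul, mul_assoc]
        congr 1
        refine PR_indep q (dep_connIn S x) (d2_dep n S) ?_ ⟨_, dep_connIn S x⟩ (d2_fd n S)
        rw [coe_eF]
        exact Set.disjoint_sdiff_right
      · rintro ⟨x, y⟩ _ ⟨x', y'⟩ _ h4
        simp only [Prod.mk.injEq] at h4
        obtain ⟨rfl, rfl⟩ := h4
        rfl
    have h4 : PR q {ω | d2S n ω = S} ≤ phi q S * PR q {ω | d2S n ω = S} := by
      have := h S h0
      nlinarith [PR_nonneg q {ω | d2S n ω = S}]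
    have h5 : phi q S = q.1 * ∑ x ∈ S, ((nbr x \ S).card : ℝ) * PR q (connIn S x) := by
      unfold phi
      congr 1
    calc PR q {ω | d2S n ω = S} ≤ phi q S * PR q {ω | d2S n ω = S} := h4
      _ = q.1 * ((∑ x ∈ S, ((nbr x \ S).card : ℝ) * PR q (connIn S x)) *
            PR q {ω | d2S n ω = S}) := by rw [h5]; ring
      _ ≤ _ := by
          rw [← h3]
          exact mul_le_mul_of_nonneg_left (h2.trans h1) q.2.1
  calc 1 - PR q (armEv n) ≤ ∑ S ∈ SS, PR q {ω | d2S n ω = S} := hsum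
    _ ≤ ∑ S ∈ SS, q.1 * ∑ e ∈ eF (box 0 n),
          PR q ((d2Piv n e ∩ {ω : Cfg | ω e = false}) ∩ {ω | d2S n ω = S}) :=
        Finset.sum_le_sum hS
    _ = q.1 * ∑ e ∈ eF (box 0 n), ∑ S ∈ SS,
          PR q ((d2Piv n e ∩ {ω : Cfg | ω e = false}) ∩ {ω | d2S n ω = S}) := by
        rw [← Finset.mul_sum, Finset.sum_comm]
    _ ≤ q.1 * ∑ e ∈ eF (box 0 n), PR q (d2Piv n e ∩ {ω : Cfg | ω e = false}) :=
        mul_le_mul_of_nonneg_left (Finset.sum_le_sum fun e _ => hdisj e) q.2.1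
    _ = q.1 * (1 - q.1) * ∑ e ∈ eF (box 0 n), PR q (d2Piv n e) := by
        rw [Finset.sum_congr rfl fun e _ => d2_PR_piv_closed q n e, ← Finset.mul_sum, mul_assoc]

theorem dct2 (q₀ q₁ : unitInterval) (hq : q₀ < q₁)
    (h : ∀ q : unitInterval, q₀ ≤ q → q ≤ q₁ → ∀ S : Finset V, (0 : V) ∈ S → 1 ≤ phi q S)
    (n : ℕ) : 1 - Real.exp (-(4 * (q₁.1 - q₀.1))) ≤ PR q₁ (armEv n) := by
  classical
  set θ : ℝ → ℝ := pol (eF (box 0 n)) (fun T => if cfgOf T ∈ armEv n then (1 : ℝ) else 0) with hθ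
  have hPR : ∀ q : unitInterval, PR q (armEv n) = θ q.1 := by
    intro q
    rw [PR_finite q (dep_armEv n), hθ]
  have hder : ∀ q : unitInterval, HasDerivAt θ (∑ e ∈ eF (box 0 n), PR q (d2Piv n e)) q.1 := by
    intro q
    have := d2_deriv n q
    convert this using 1
  have hq' : q₀.1 < q₁.1 := hq
  set g : ℝ → ℝ := fun s => Real.exp (4 * s) * (1 - θ s) with hg
  have hgder : ∀ q : unitInterval, HasDerivAt g (Real.exp (4 * q.1) * 4 * (1 - θ q.1) +
      Real.exp (4 * q.1) * (-(∑ e ∈ eF (box 0 n), PR q (d2Piv n e)))) q.1 := by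
    intro q
    have h1 : HasDerivAt (fun s : ℝ => Real.exp (4 * s)) (Real.exp (4 * q.1) * 4) q.1 := by
      have := ((hasDerivAt_id q.1).const_mul 4).exp
      simpa using this
    have h2 : HasDerivAt (fun s : ℝ => 1 - θ s) (-(∑ e ∈ eF (box 0 n), PR q (d2Piv n e))) q.1 :=
      (hder q).const_sub 1
    exact h1.mul h2
  have hunit : ∀ s ∈ Set.Icc q₀.1 q₁.1, s ∈ unitInterval := fun s hs =>
    ⟨q₀.2.1.trans hs.1, hs.2.trans q₁.2.2⟩
  have hanti : AntitoneOn g (Set.Icc q₀.1 q₁.1) := by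
    apply antitoneOn_of_deriv_nonpos (convex_Icc _ _)
    · intro s hs
      exact (hgder ⟨s, hunit s hs⟩).continuousAt.continuousWithinAt
    · intro s hs
      rw [interior_Icc] at hs
      have hs' := Set.Ioo_subset_Icc_self hs
      exact (hgder ⟨s, hunit s hs'⟩).differentiableAt.differentiableWithinAt
    · intro s hs
      rw [interior_Icc] at hs
      have hs' := Set.Ioo_subset_Icc_self hs
      have hd := (hgder ⟨s, hunit s hs'⟩).deriv
      simp only at hd
      rw [hd]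
      have h1 := d2_ineq n ⟨s, hunit s hs'⟩ (h ⟨s, hunit s hs'⟩ hs'.1 hs'.2)
      rw [hPR] at h1
      simp only at h1
      set sg := ∑ e ∈ eF (box 0 n), PR ⟨s, hunit s hs'⟩ (d2Piv n e) with hsg
      have h2 : 0 ≤ sg := Finset.sum_nonneg fun _ _ => PR_nonneg _ _
      have h3 : s * (1 - s) ≤ 1 / 4 := by nlinarith [sq_nonneg (s - 1 / 2)]
      have h4 : 4 * (1 - θ s) ≤ sg := by nlinarith
      have h5 := Real.exp_pos (4 * s)
      nlinarith
  have h1 := hanti (Set.left_mem_Icc.2 hq'.le) (Set.right_mem_Icc.2 hq'.le) hq'.le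
  simp only [hg] at h1
  have h2 : θ q₀.1 = PR q₀ (armEv n) := (hPR q₀).symm
  have h3 : 0 ≤ PR q₀ (armEv n) := PR_nonneg _ _
  rw [hPR q₁]
  have h4 : Real.exp (4 * q₁.1) * (1 - θ q₁.1) ≤ Real.exp (4 * q₀.1) := by
    refine h1.trans ?_
    have := Real.exp_pos (4 * q₀.1)
    rw [h2]
    nlinarith
  have h5 : Real.exp (-(4 * (q₁.1 - q₀.1))) = Real.exp (4 * q₀.1) / Real.exp (4 * q₁.1) := by
    rw [← Real.exp_sub]; congr 1; ring
  rw [h5]
  have h6 : 1 - θ q₁.1 ≤ Real.exp (4 * q₀.1) / Real.exp (4 * q₁.1) := by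
    rw [le_div_iff₀ (Real.exp_pos _)]; linarith
  linarith

/-- `φ_q(S)` is nondecreasing in `q`. -/
theorem phi_mono {q q' : unitInterval} (h : q ≤ q') (S : Finset V) : phi q S ≤ phi q' S := by
  unfold phi
  have h1 : q.1 ≤ q'.1 := h
  refine mul_le_mul h1 ?_ ?_ q'.2.1
  · refine Finset.sum_le_sum fun x _ => ?_
    exact mul_le_mul_of_nonneg_left
      (PR_mono_param h (incr_connIn S x) ⟨_, dep_connIn S x⟩) (Nat.cast_nonneg _)
  · exact Finset.sum_nonneg fun x _ => mul_nonneg (Nat.cast_nonneg _) (PR_nonneg _ _)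

end Pool.Agent.SAWP
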