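import Pool.Agent.SAWP.Meas

/-!
# SAWP: events used in the proof of exponential decay (definitions and elementary facts)
-/

set_option autoImplicit false

open MeasureTheory

namespace Pool.Agent.SAWP

/-- The four neighbours of a vertex. -/
def nbr (x : V) : Finset V := {(x.1 + 1, x.2), (x.1 - 1, x.2), (x.1, x.2 + 1), (x.1, x.2 - 1)}

lemma mem_nbr {x y : V} : y ∈ nbr x ↔ Adj x y := by
  obtain ⟨a, b⟩ := x
  obtain ⟨c, d⟩ := y
  simp only [nbr, Finset.mem_insert, Finset.mem_singleton, Adj, Prod.mk.injEq]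
  constructor
  · rintro (⟨rfl, rfl⟩ | ⟨rfl, rfl⟩ | ⟨rfl, rfl⟩ | ⟨rfl, rfl⟩) <;> simp
  · intro h
    rcases abs_cases (a - c) with h1 | h1 <;> rcases abs_cases (b - d) with h2 | h2 <;> omega

/-- `{0 ↔ x in S}`. -/
def connIn (S : Finset V) (x : V) : Set Cfg := {ω | Conn (Op ω ∩ eS (↑S : Set V)) 0 x}

/-- `{0 ↔ ∂Λ_n}` inside `Λ_n`. -/
def armEv (n : ℕ) : Set Cfg :=
  {ω | ∃ y, nrm y = n ∧ Conn (Op ω ∩ eS (↑(box 0 n) : Set V)) 0 y}

/-- `{Λ_k ↔ ∂Λ_n}` inside `Λ_n`. -/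
def boxArm (k n : ℕ) : Set Cfg :=
  {ω | ∃ x y, nrm x ≤ k ∧ nrm y = n ∧ Conn (Op ω ∩ eS (↑(box 0 n) : Set V)) x y}

open Classical in
/-- The quantity `φ_q(S)` of Duminil-Copin and Tassion. -/
noncomputable def phi (q : unitInterval) (S : Finset V) : ℝ :=
  q.1 * ∑ x ∈ S, ((nbr x \ S).card : ℝ) * PR q (connIn S x)

/-- `D_n(e)`: in the configuration inside `Λ_n` with `e` removed, the ends of `e` lie in different
clusters which both touch `∂Λ_n`. -/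
def Pivot (n : ℕ) (e : Edge) : Set Cfg :=
  {ω | ¬ Conn ((Op ω \ {e}) ∩ eS (↑(box 0 n) : Set V)) (src e) (tgt e) ∧
    (∃ y, nrm y = n ∧ Conn ((Op ω \ {e}) ∩ eS (↑(box 0 n) : Set V)) (src e) y) ∧
    (∃ y, nrm y = n ∧ Conn ((Op ω \ {e}) ∩ eS (↑(box 0 n) : Set V)) (tgt e) y)}

lemma op_mono {ω ω' : Cfg} (h : ∀ e, ω e = true → ω' e = true) : Op ω ⊆ Op ω' :=
  fun e he => h e he

lemma incr_conn (R : Set Edge) (x y : V) : Incr {ω | Conn (Op ω ∩ R) x y} :=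
  fun _ _ h hω => Conn.mono (Set.inter_subset_inter_left _ (op_mono h)) hω

lemma incr_connIn (S : Finset V) (x : V) : Incr (connIn S x) := incr_conn _ _ _

lemma incr_armEv (n : ℕ) : Incr (armEv n) := by
  rintro ω ω' h ⟨y, hy, hc⟩
  exact ⟨y, hy, hc.mono (Set.inter_subset_inter_left _ (op_mono h))⟩

lemma incr_boxArm (k n : ℕ) : Incr (boxArm k n) := by
  rintro ω ω' h ⟨x, y, hx, hy, hc⟩
  exact ⟨x, y, hx, hy, hc.mono (Set.inter_subset_inter_left _ (op_mono h))⟩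

lemma dep_connIn (S : Finset V) (x : V) : Dep (↑(eF S) : Set Edge) (connIn S x) := by
  rw [coe_eF]; exact dep_of_op (fun O => Conn O 0 x)

lemma dep_armEv (n : ℕ) : Dep (↑(eF (box 0 n)) : Set Edge) (armEv n) := by
  rw [coe_eF]; exact dep_of_op (fun O => ∃ y, nrm y = n ∧ Conn O 0 y)

lemma dep_boxArm (k n : ℕ) : Dep (↑(eF (box 0 n)) : Set Edge) (boxArm k n) := by
  rw [coe_eF]; exact dep_of_op (fun O => ∃ x y, nrm x ≤ k ∧ nrm y = n ∧ Conn O x y)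

lemma dep_Pivot (n : ℕ) (e : Edge) : Dep (↑(eF (box 0 n)) : Set Edge) (Pivot n e) := by
  rw [coe_eF]
  have := dep_of_op (D := eS (↑(box 0 n) : Set V)) (fun O => ¬ Conn (O \ {e}) (src e) (tgt e) ∧
    (∃ y, nrm y = n ∧ Conn (O \ {e}) (src e) y) ∧ (∃ y, nrm y = n ∧ Conn (O \ {e}) (tgt e) y))
  intro ω ω' hω
  have h := this ω ω' hω
  have e1 : ∀ ω : Cfg, (Op ω \ {e}) ∩ eS (↑(box 0 n) : Set V) =
      (Op ω ∩ eS (↑(box 0 n) : Set V)) \ {e} := by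
    intro ω; ext d; simp only [Set.mem_inter_iff, Set.mem_sdiff]; tauto
  unfold Pivot
  simp only [Set.mem_ofPred_eq, e1]
  exact h

end Pool.Agent.SAWP
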