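import Pool.Agent.SAWP.Perc.Events

/-!
# SAWP: elementary 0-1 law (module P9)

If `P_q(0 ↔ ∂Λ_n) ≥ θ₀ > 0` for all `n` then for every `ε > 0` there is `k` with
`P_q(Λ_k ↔ ∂Λ_n) ≥ 1 - ε` for all `n > k`.

Proof. `Θ k n = P_q(boxArm k n)` is nondecreasing in `k`, nonincreasing in `n > k`
(a path from `Λ_k` to `∂Λ_{n+1}` passes `∂Λ_n`).  `Θ k = lim_n Θ k n = inf`, `Θ = lim_k Θ k = sup ≥ θ₀`.
For `k < m`, let `x = (2m+2, 0)` and `y = (-2m-2, 0)`, `K = 3m+3`, so that the boxes `Λ_m(x)`, `Λ_m(y)` are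
disjoint and contained in `Λ_K`.  For `n ≥ K`: if `Λ_K ↮ ∂Λ_n` then `Λ_k(x) ↮ ∂Λ_n` and `Λ_k(y) ↮ ∂Λ_n`.  Let `A_x` be the
event `Λ_k(x) ↮ ∂Λ_m(x)`.  `P(Λ_k(x) ↮ ∂Λ_n, not A_x) ≤ Θ k m - P(Λ_k(x) ↔ ∂Λ_n) ≤ Θ k m - Θ k (n+K)`
(`Λ_k(x) ↔ ∂Λ_{n+K}(x)` implies `Λ_k(x) ↔ ∂Λ_n`, which implies `Λ_k(x) ↔ ∂Λ_m(x)`).
So `1 - Θ K n ≤ P(A_x ∩ A_y) + 2(Θ k m - Θ k (n+K)) = (1-Θ k m)² + 2(Θ k m - Θ k (n+K))`
(translation invariance `PR_perm`, independence).  `n → ∞`: `1 - Θ ≤ 1 - Θ K ≤ (1-Θ k m)² + 2(Θ k m - Θ k)`;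
`m → ∞`: `1-Θ ≤ (1-Θ k)²`; `k → ∞`: `1-Θ ≤ (1-Θ)²`.  As `Θ ≥ θ₀ > 0`, `Θ = 1`.  Choose `k` with `Θ k ≥ 1-ε`.
-/

set_option autoImplicit false

open MeasureTheory

namespace Pool.Agent.SAWP

namespace ZeroOne

open Filter Topology

/-! ### Geometry -/

/-- Cropping a connection to the box of radius `m` around `c`. -/
lemma crop {O : Set Edge} (c : V) (m : ℕ) {x y : V} (h : Conn O x y) (hx : nrm (x - c) ≤ m)
    (hy : m ≤ nrm (y - c)) :
    ∃ z, nrm (z - c) = m ∧ Conn (O ∩ eS (↑(box c m) : Set V)) x z := by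
  obtain ⟨l, hl⟩ := h
  induction l generalizing x with
  | nil => exact absurd rfl hl.ne_nil
  | cons a t ih =>
    cases t with
    | nil =>
      obtain ⟨rfl, rfl⟩ := isW_single.1 hl
      exact ⟨a, le_antisymm hx hy, Conn.refl _ _⟩
    | cons b t =>
      obtain ⟨rfl, hs, h2⟩ := isW_cons_cons.1 hl
      by_cases hm : nrm (a - c) = m
      · exact ⟨a, hm, Conn.refl _ _⟩
      · have hb : nrm (b - c) ≤ m := by
          rcases adj_cases hs.1 with h | h | h | h <;>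
            · subst h
              simp only [nrm, Prod.fst_sub, Prod.snd_sub] at *
              omega
        obtain ⟨z, hz, hc⟩ := ih hb h2
        refine ⟨z, hz, Conn.trans (Step.conn ⟨hs.1, hs.2, ?_⟩) hc⟩
        rw [edgeOf_mem_eS hs.1, Finset.mem_coe, Finset.mem_coe, mem_box, mem_box]
        exact ⟨hx, hb⟩

lemma edgeOf_add (a b c : V) : edgeOf (a + c) (b + c) = ((edgeOf a b).1 + c, (edgeOf a b).2) := by
  simp [edgeOf, min_add_add_right, Prod.ext_iff]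

lemma adj_add {a b : V} (c : V) (h : Adj a b) : Adj (a + c) (b + c) := by
  unfold Adj at *
  simpa using h

lemma conn_translate {O O' : Set Edge} (c : V) (h : ∀ e ∈ O, (e.1 + c, e.2) ∈ O') {x y : V}
    (hc : Conn O x y) : Conn O' (x + c) (y + c) := by
  refine Conn.induction hc (P := fun z => Conn O' (x + c) (z + c)) (Conn.refl _ _) ?_
  intro a b ha hab
  refine ha.trans (Step.conn ⟨adj_add c hab.1, ?_⟩)
  rw [edgeOf_add]
  exact h _ hab.2

lemma tgt_add (e : Edge) (c : V) : tgt (e.1 + c, e.2) = tgt e + c := by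
  obtain ⟨x, t⟩ := e
  cases t <;> simp [tgt, Prod.ext_iff, add_right_comm]

/-- `{Λ_k(c) ↔ ∂Λ_n(c)}` inside `Λ_n(c)`. -/
def armAt (c : V) (k n : ℕ) : Set Cfg :=
  {ω | ∃ x y, nrm (x - c) ≤ k ∧ nrm (y - c) = n ∧ Conn (Op ω ∩ eS (↑(box c n) : Set V)) x y}

lemma dep_armAt (c : V) (k n : ℕ) : Dep (↑(eF (box c n)) : Set Edge) (armAt c k n) := by
  rw [coe_eF]
  exact dep_of_op (fun O => ∃ x y, nrm (x - c) ≤ k ∧ nrm (y - c) = n ∧ Conn O x y)

/-- Translation of edges. -/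
def shift (c : V) : Edge ≃ Edge where
  toFun e := (e.1 + c, e.2)
  invFun e := (e.1 - c, e.2)
  left_inv e := by simp
  right_inv e := by simp

lemma armAt_eq (c : V) (k n : ℕ) :
    {ω : Cfg | (fun e => ω (shift c e)) ∈ boxArm k n} = armAt c k n := by
  ext ω
  simp only [boxArm, armAt, Set.mem_ofPred_eq]
  constructor
  · rintro ⟨x, y, hx, hy, h⟩
    refine ⟨x + c, y + c, by simpa using hx, by simpa using hy, conn_translate c ?_ h⟩
    rintro e ⟨h1, h2, h3⟩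
    refine ⟨h1, ?_, ?_⟩
    · simp only [Finset.mem_coe, mem_box, src, sub_zero] at h2 ⊢
      simpa using h2
    · rw [tgt_add]
      simp only [Finset.mem_coe, mem_box, sub_zero] at h3 ⊢
      simpa using h3
  · rintro ⟨x, y, hx, hy, h⟩
    refine ⟨x - c, y - c, hx, hy, ?_⟩
    have := conn_translate (O' := Op (fun e => ω (shift c e)) ∩ eS (↑(box 0 n) : Set V)) (-c) ?_ h
    · simpa [sub_eq_add_neg] using this
    rintro e ⟨h1, h2, h3⟩
    refine ⟨?_, ?_, ?_⟩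
    · have h4 : shift c (e.1 + -c, e.2) = e := by simp [shift]
      simp only [Op, Set.mem_ofPred_eq, h4] at h1 ⊢
      exact h1
    · simp only [Finset.mem_coe, mem_box, src, sub_zero] at h2 ⊢
      simpa [sub_eq_add_neg] using h2
    · rw [tgt_add]
      simp only [Finset.mem_coe, mem_box, sub_zero] at h3 ⊢
      simpa [sub_eq_add_neg] using h3

lemma PR_armAt (q : unitInterval) (c : V) (k n : ℕ) :
    PR q (armAt c k n) = PR q (boxArm k n) := by
  rw [← armAt_eq, PR_perm q _ (measurableSet_of_dep (dep_boxArm k n))]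

/-! ### Monotonicity -/

lemma boxArm_mono {k k' : ℕ} (h : k ≤ k') (n : ℕ) : boxArm k n ⊆ boxArm k' n := by
  rintro ω ⟨x, y, hx, hy, hc⟩
  exact ⟨x, y, hx.trans h, hy, hc⟩

lemma boxArm_anti {k n : ℕ} (h : k ≤ n) : boxArm k (n + 1) ⊆ boxArm k n := by
  rintro ω ⟨x, y, hx, hy, hc⟩
  obtain ⟨z, hz, hcz⟩ := crop 0 n hc (by simpa using hx.trans h) (by simp [hy])
  refine ⟨x, z, hx, by simpa using hz, hcz.mono ?_⟩
  rintro e ⟨⟨h1, -⟩, h2⟩
  exact ⟨h1, h2⟩

lemma armEv_subset (n : ℕ) : armEv n ⊆ boxArm 0 n := by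
  rintro ω ⟨y, hy, hc⟩
  exact ⟨0, y, by simp [nrm], hy, hc⟩

/-- `{Λ_k(c) ↔ ∂Λ_n}` inside `Λ_n`. -/
def farAt (c : V) (k n : ℕ) : Set Cfg :=
  {ω | ∃ x y, nrm (x - c) ≤ k ∧ nrm y = n ∧ Conn (Op ω ∩ eS (↑(box 0 n) : Set V)) x y}

lemma dep_farAt (c : V) (k n : ℕ) : Dep (↑(eF (box 0 n)) : Set Edge) (farAt c k n) := by
  rw [coe_eF]
  exact dep_of_op (fun O => ∃ x y, nrm (x - c) ≤ k ∧ nrm y = n ∧ Conn O x y)

lemma nrm_add_le (x y : V) : nrm (x + y) ≤ nrm x + nrm y := by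
  simp only [nrm, Prod.fst_add, Prod.snd_add]
  omega

lemma nrm_le_add (x c : V) : nrm x ≤ nrm (x - c) + nrm c := by
  simp only [nrm, Prod.fst_sub, Prod.snd_sub]
  omega

lemma nrm_sub_le (x c : V) : nrm (x - c) ≤ nrm x + nrm c := by
  simp only [nrm, Prod.fst_sub, Prod.snd_sub]
  omega

lemma farAt_subset_boxArm {c : V} {k K n : ℕ} (hc : nrm c + k ≤ K) :
    farAt c k n ⊆ boxArm K n := by
  rintro ω ⟨x, y, hx, hy, h⟩
  refine ⟨x, y, ?_, hy, h⟩
  have := nrm_le_add x c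
  omega

lemma farAt_subset_armAt {c : V} {k m n : ℕ} (hk : k ≤ m) (hn : m + nrm c ≤ n) :
    farAt c k n ⊆ armAt c k m := by
  rintro ω ⟨x, y, hx, hy, h⟩
  have h1 := nrm_le_add y c
  obtain ⟨z, hz, hcz⟩ := crop c m h (hx.trans hk) (by omega)
  refine ⟨x, z, hx, hz, hcz.mono ?_⟩
  rintro e ⟨⟨h1, -⟩, h2⟩
  exact ⟨h1, h2⟩

lemma armAt_subset_farAt {c : V} {k n N : ℕ} (hk : k + nrm c ≤ n) (hN : n + nrm c ≤ N) :
    armAt c k N ⊆ farAt c k n := by
  rintro ω ⟨x, y, hx, hy, h⟩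
  have h1 := nrm_sub_le y c
  have h2 := nrm_le_add x c
  obtain ⟨z, hz, hcz⟩ := crop 0 n h (by rw [sub_zero]; omega) (by rw [sub_zero]; omega)
  refine ⟨x, z, hx, by simpa using hz, hcz.mono ?_⟩
  rintro e ⟨⟨h1, -⟩, h2⟩
  exact ⟨h1, h2⟩

/-! ### The main inequality -/

lemma main_ineq (q : unitInterval) {k m n : ℕ} (hk : k ≤ m) (hn : 3 * m + 3 ≤ n) :
    1 - PR q (boxArm (3 * m + 3) n) ≤ (1 - PR q (boxArm k m)) ^ 2 +
      2 * (PR q (boxArm k m) - PR q (boxArm k (n + (3 * m + 3)))) := by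
  set x : V := ((2 * m + 2 : ℕ), 0) with hx
  set y : V := (-(2 * m + 2 : ℕ), 0) with hy
  have nx : nrm x = 2 * m + 2 := by simp only [hx, nrm]; omega
  have ny : nrm y = 2 * m + 2 := by simp only [hy, nrm]; omega
  have mA : ∀ c, MeasurableSet (armAt c k m) := fun c => measurableSet_of_dep (dep_armAt c k m)
  have mF : ∀ c, MeasurableSet (farAt c k n) := fun c => measurableSet_of_dep (dep_farAt c k n)
  have mB : MeasurableSet (boxArm (3 * m + 3) n) := measurableSet_of_dep (dep_boxArm _ n)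
  have hdiff : ∀ c, nrm c = 2 * m + 2 → PR q (armAt c k m \ farAt c k n) ≤
      PR q (boxArm k m) - PR q (boxArm k (n + (3 * m + 3))) := by
    intro c hc
    have h1 : PR q (armAt c k m \ farAt c k n) = PR q (armAt c k m) - PR q (farAt c k n) := by
      unfold PR
      exact measureReal_sdiff (farAt_subset_armAt hk (by omega)) (mF c)
    have h2 : PR q (armAt c k (n + (3 * m + 3))) ≤ PR q (farAt c k n) :=
      PR_mono q (armAt_subset_farAt (by omega) (by omega))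
    rw [h1, PR_armAt]
    rw [PR_armAt] at h2
    linarith
  have hsub : (boxArm (3 * m + 3) n)ᶜ ⊆ ((armAt x k m)ᶜ ∩ (armAt y k m)ᶜ) ∪
      ((armAt x k m \ farAt x k n) ∪ (armAt y k m \ farAt y k n)) := by
    intro ω hω
    have h1 : ω ∉ farAt x k n := fun h => hω (farAt_subset_boxArm (by omega) h)
    have h2 : ω ∉ farAt y k n := fun h => hω (farAt_subset_boxArm (by omega) h)
    by_cases h3 : ω ∈ armAt x k m
    · exact Or.inr (Or.inl ⟨h3, h1⟩)
    · by_cases h4 : ω ∈ armAt y k m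
      · exact Or.inr (Or.inr ⟨h4, h2⟩)
      · exact Or.inl ⟨h3, h4⟩
  have hind : PR q ((armAt x k m)ᶜ ∩ (armAt y k m)ᶜ) = (1 - PR q (boxArm k m)) ^ 2 := by
    rw [PR_indep q (dep_armAt x k m).compl (dep_armAt y k m).compl ?_ ⟨_, (dep_armAt x k m).compl⟩
      ⟨_, (dep_armAt y k m).compl⟩, PR_compl q (mA x), PR_compl q (mA y), PR_armAt, PR_armAt, pow_two]
    rw [Set.disjoint_left]
    intro e h1 h2
    rw [Finset.mem_coe, mem_eF, mem_box, mem_box] at h1 h2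
    have h3 := h1.1
    have h4 := h2.1
    simp only [nrm, Prod.fst_sub, Prod.snd_sub, hx, hy] at h3 h4
    omega
  calc 1 - PR q (boxArm (3 * m + 3) n) = PR q (boxArm (3 * m + 3) n)ᶜ := (PR_compl q mB).symm
    _ ≤ PR q (((armAt x k m)ᶜ ∩ (armAt y k m)ᶜ) ∪
      ((armAt x k m \ farAt x k n) ∪ (armAt y k m \ farAt y k n))) := PR_mono q hsub
    _ ≤ PR q ((armAt x k m)ᶜ ∩ (armAt y k m)ᶜ) + (PR q (armAt x k m \ farAt x k n) +
        PR q (armAt y k m \ farAt y k n)) :=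
        (PR_union_le q _ _).trans (by gcongr; exact PR_union_le q _ _)
    _ ≤ _ := by
        rw [hind]
        have := hdiff x nx
        have := hdiff y ny
        linarith

/-- Limit of the arm probabilities. -/
lemma exists_lim (q : unitInterval) (k : ℕ) : ∃ L : ℝ,
    Tendsto (fun n => PR q (boxArm k n)) atTop (𝓝 L) ∧ ∀ n, k ≤ n → L ≤ PR q (boxArm k n) := by
  have hanti : Antitone (fun n => PR q (boxArm k (n + k))) := by
    refine antitone_nat_of_succ_le fun n => ?_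
    have h : n + 1 + k = (n + k) + 1 := by omega
    rw [h]
    exact PR_mono q (boxArm_anti (by omega))
  have hb : BddBelow (Set.range (fun n => PR q (boxArm k (n + k)))) :=
    ⟨0, by rintro _ ⟨n, rfl⟩; exact PR_nonneg _ _⟩
  refine ⟨_, (tendsto_add_atTop_iff_nat k).1 (tendsto_atTop_ciInf hanti hb), ?_⟩
  intro n hn
  have := ciInf_le hb (n - k)
  simpa [Nat.sub_add_cancel hn] using this

end ZeroOne

open ZeroOne Filter Topology in
theorem zero_one (q : unitInterval) {θ₀ : ℝ} (hθ : 0 < θ₀) (h : ∀ n, θ₀ ≤ PR q (armEv n))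
    {ε : ℝ} (hε : 0 < ε) : ∃ k : ℕ, 1 ≤ k ∧ ∀ n, k < n → 1 - ε ≤ PR q (boxArm k n) := by
  choose θ hlim hle using exists_lim q
  have hmono : Monotone θ := fun k k' hk =>
    le_of_tendsto_of_tendsto' (hlim k) (hlim k') fun n => PR_mono q (boxArm_mono hk n)
  have hle1 : ∀ k, θ k ≤ 1 := fun k => le_of_tendsto' (hlim k) fun n => PR_le_one q _
  have hbdd : BddAbove (Set.range θ) := ⟨1, by rintro _ ⟨k, rfl⟩; exact hle1 k⟩
  have hS := tendsto_atTop_ciSup hmono hbdd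
  set S : ℝ := ⨆ k, θ k with hSdef
  have h0 : θ₀ ≤ θ 0 := ge_of_tendsto' (hlim 0) fun n => (h n).trans (PR_mono q (armEv_subset n))
  have hS0 : θ₀ ≤ S := h0.trans (le_ciSup hbdd 0)
  have hS1 : S ≤ 1 := ciSup_le hle1
  -- first limit
  have h1 : ∀ k m, k ≤ m → 1 - θ (3 * m + 3) ≤ (1 - PR q (boxArm k m)) ^ 2 +
      2 * (PR q (boxArm k m) - θ k) := by
    intro k m hkm
    have e1 : Tendsto (fun n => 1 - PR q (boxArm (3 * m + 3) n)) atTop (𝓝 (1 - θ (3 * m + 3))) :=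
      tendsto_const_nhds.sub (hlim _)
    have e2 : Tendsto (fun n => (1 - PR q (boxArm k m)) ^ 2 +
        2 * (PR q (boxArm k m) - PR q (boxArm k (n + (3 * m + 3))))) atTop
        (𝓝 ((1 - PR q (boxArm k m)) ^ 2 + 2 * (PR q (boxArm k m) - θ k))) :=
      tendsto_const_nhds.add (tendsto_const_nhds.mul (tendsto_const_nhds.sub
        ((tendsto_add_atTop_iff_nat (3 * m + 3)).2 (hlim k))))
    refine le_of_tendsto_of_tendsto e1 e2 ?_
    filter_upwards [eventually_ge_atTop (3 * m + 3)] with n hn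
    exact main_ineq q hkm hn
  -- second limit
  have h2 : ∀ k, 1 - S ≤ (1 - θ k) ^ 2 := by
    intro k
    have e0 : Tendsto (fun m : ℕ => 3 * m + 3) atTop atTop :=
      tendsto_atTop_mono (fun m => by simp only [id]; omega) tendsto_id
    have e1 : Tendsto (fun m : ℕ => 1 - θ (3 * m + 3)) atTop (𝓝 (1 - S)) :=
      tendsto_const_nhds.sub (hS.comp e0)
    have e2 : Tendsto (fun m => (1 - PR q (boxArm k m)) ^ 2 + 2 * (PR q (boxArm k m) - θ k)) atTop
        (𝓝 ((1 - θ k) ^ 2 + 2 * (θ k - θ k))) :=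
      ((tendsto_const_nhds.sub (hlim k)).pow 2).add
        (tendsto_const_nhds.mul ((hlim k).sub tendsto_const_nhds))
    have e3 := le_of_tendsto_of_tendsto e1 e2 (by
      filter_upwards [eventually_ge_atTop k] with m hm
      exact h1 k m hm)
    linarith
  -- third limit
  have h3 : 1 - S ≤ (1 - S) ^ 2 :=
    ge_of_tendsto' ((tendsto_const_nhds.sub hS).pow 2) h2
  have h4 : S = 1 := by nlinarith
  obtain ⟨k, hk⟩ := (hS.eventually (lt_mem_nhds (show 1 - ε < S by rw [h4]; linarith))).exists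
  refine ⟨max k 1, le_max_right _ _, fun n hn => ?_⟩
  have h5 := hmono (le_max_left k 1)
  have h6 := hle (max k 1) n hn.le
  linarith

end Pool.Agent.SAWP
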