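import Pool.Agent.SAWP.Perc.ZhangDefs
import Pool.Agent.SAWP.Perc.Fkg
import Pool.Agent.SAWP.Perc.Russo

/-!
# SAWP: Zhang's argument, dual arms (module P10b)

Let `η = dualC ω`, which has law `perc (1-q)` (`PR_dual`), `1-q ≥ q₁`.  In `η`: `boxArm k (n+1)` (a path in `Λ_{n+1}` from `Λ_k` to
norm `n+1`) is contained in the union of four events: some face `φ` on one of the four sides of the square `fsq k = [-k-1,k]²` is
joined inside `freg n = [-n-1,n]²`, without edges inside `fsq k`, to a face not in `finn n = [-n,n-1]²`.  (Take the path up to its first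
vertex outside `finn n`: it is in `freg n`, because `Λ_k ⊆ fsq k ⊆ finn n` for `k < n`.  Then take the last vertex
of this path in `fsq k`: it is on a side of `fsq k`; the remaining path has no edge inside `fsq k`.)
The four events are increasing in `η` and are exchanged by the symmetries `(i,j) ↦ (-1-i,j)`, `(i,-1-j)`, `(j,i)` of `fsq k`, `freg n`,
`finn n` (`PR_perm`).  `PR_fkg_compl`, `PR_mono_param` (`q₁ ≤ 1-q`): each has probability `≥ 7/8`.
The event for the top side in terms of `ω` is `armT k n`, for the bottom side `armB k n`.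
-/

set_option autoImplicit false

open MeasureTheory

namespace Pool.Agent.SAWP

namespace ZhangB

/-- The dual arm events in terms of the dual configuration: `P` describes the side of the face
square from which the arm starts. -/
def sideEv (k n : ℕ) (P : V → Prop) : Set Cfg :=
  {η | ∃ φ ψ, φ ∈ fsq k ∧ P φ ∧ ψ ∉ finn n ∧
    Conn ((Op η \ eS (↑(fsq k) : Set V)) ∩ eS (↑(freg n) : Set V)) φ ψ}

lemma incr_sideEv (k n : ℕ) (P : V → Prop) : Incr (sideEv k n P) := by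
  rintro ω ω' h ⟨φ, ψ, h1, h2, h3, h4⟩
  refine ⟨φ, ψ, h1, h2, h3, h4.mono ?_⟩
  intro e he
  exact ⟨⟨op_mono h he.1.1, he.1.2⟩, he.2⟩

lemma fd_sideEv (k n : ℕ) (P : V → Prop) : FD (sideEv k n P) := by
  refine ⟨eF (freg n), ?_⟩
  rw [coe_eF]
  have := dep_of_op (D := eS (↑(freg n) : Set V)) (fun O => ∃ φ ψ : V, φ ∈ fsq k ∧ P φ ∧
    ψ ∉ finn n ∧ Conn (O \ eS (↑(fsq k) : Set V)) φ ψ)
  intro ω ω' hω
  have h := this ω ω' hω
  have e1 : ∀ ω : Cfg, (Op ω \ eS (↑(fsq k) : Set V)) ∩ eS (↑(freg n) : Set V) =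
      (Op ω ∩ eS (↑(freg n) : Set V)) \ eS (↑(fsq k) : Set V) := by
    intro ω; ext d; simp only [Set.mem_inter_iff, Set.mem_sdiff]; tauto
  unfold sideEv
  simp only [Set.mem_ofPred_eq, e1]
  exact h

/-- Changing the edge set of a walk all of whose vertices except the last satisfy `Q`. -/
lemma walk_change {O O' : Set Edge} {Q : V → Prop}
    (hQ : ∀ a b, Q a → Step O a b → Step O' a b) {x z : V} {l : List V} (h : IsW O x z l)
    (hl : ∀ v ∈ l.dropLast, Q v) : IsW O' x z l := by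
  induction l generalizing x with
  | nil => exact absurd rfl h.ne_nil
  | cons a t ih =>
    cases t with
    | nil =>
      obtain ⟨rfl, rfl⟩ := isW_single.1 h
      exact isW_singleton _ _
    | cons b t =>
      obtain ⟨rfl, hs, h2⟩ := isW_cons_cons.1 h
      refine isW_cons_cons.2 ⟨rfl, hQ _ _ (hl _ ?_) hs, ih h2 fun v hv => hl v ?_⟩
      · rw [List.dropLast_cons_of_ne_nil (by simp)]
        exact List.mem_cons_self
      · rw [List.dropLast_cons_of_ne_nil (by simp)]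
        exact List.mem_cons_of_mem _ hv

/-- The last step of a walk. -/
lemma walk_last {O : Set Edge} {Q : V → Prop} {x z : V} {l : List V} (h : IsW O x z l)
    (hl : ∀ v ∈ l.dropLast, Q v) (hxz : x ≠ z) : ∃ w, Q w ∧ Step O w z := by
  induction l generalizing x with
  | nil => exact absurd rfl h.ne_nil
  | cons a t ih =>
    cases t with
    | nil =>
      obtain ⟨rfl, rfl⟩ := isW_single.1 h
      exact absurd rfl hxz
    | cons b t =>
      obtain ⟨rfl, hs, h2⟩ := isW_cons_cons.1 h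
      by_cases hb : b = z
      · refine ⟨a, hl _ ?_, hb ▸ hs⟩
        rw [List.dropLast_cons_of_ne_nil (by simp)]
        exact List.mem_cons_self
      · refine ih h2 (fun v hv => hl v ?_) hb
        rw [List.dropLast_cons_of_ne_nil (by simp)]
        exact List.mem_cons_of_mem _ hv

lemma mem_fsq {k : ℕ} {x : V} : x ∈ fsq k ↔ -(k : ℤ) - 1 ≤ x.1 ∧ x.1 ≤ k ∧
    -(k : ℤ) - 1 ≤ x.2 ∧ x.2 ≤ k := by
  rw [fsq, mem_rect]

lemma mem_freg {n : ℕ} {x : V} : x ∈ freg n ↔ -(n : ℤ) - 1 ≤ x.1 ∧ x.1 ≤ n ∧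
    -(n : ℤ) - 1 ≤ x.2 ∧ x.2 ≤ n := by
  rw [freg, mem_rect]

lemma mem_finn {n : ℕ} {x : V} : x ∈ finn n ↔ -(n : ℤ) ≤ x.1 ∧ x.1 ≤ n - 1 ∧
    -(n : ℤ) ≤ x.2 ∧ x.2 ≤ n - 1 := by
  rw [finn, mem_rect]

lemma freg_of_adj {n : ℕ} {a b : V} (ha : a ∈ finn n) (h : Adj a b) : b ∈ freg n := by
  rw [mem_finn] at ha
  rw [mem_freg]
  rcases adj_cases h with h | h | h | h <;> subst h <;> simp only at ha ⊢ <;> omega

lemma finn_sub {n : ℕ} {a : V} (ha : a ∈ finn n) : a ∈ freg n := by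
  rw [mem_finn] at ha
  rw [mem_freg]
  omega

lemma side_of_adj {k : ℕ} {a b : V} (ha : a ∉ fsq k) (hb : b ∈ fsq k) (h : Adj a b) :
    b.2 = (k : ℤ) ∨ b.2 = -(k : ℤ) - 1 ∨ b.1 = (k : ℤ) ∨ b.1 = -(k : ℤ) - 1 := by
  rw [mem_fsq] at ha hb
  rcases adj_cases h with h | h | h | h <;> subst h <;> simp only at ha hb ⊢ <;> omega

/-- the four sides -/
def side (k : ℕ) (i : Fin 4) : V → Prop := fun φ =>
  match i with
  | 0 => φ.2 = (k : ℤ)
  | 1 => φ.2 = -(k : ℤ) - 1
  | 2 => φ.1 = (k : ℤ)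
  | 3 => φ.1 = -(k : ℤ) - 1

/-- Every arm from `Λ_k` starts at one of the four sides. -/
lemma boxArm_subset {k n : ℕ} (hkn : k < n) :
    boxArm k (n + 1) ⊆ ⋃ i ∈ (Finset.univ : Finset (Fin 4)), sideEv k n (side k i) := by
  rintro η ⟨x, y, hx, hy, l, hl⟩
  have hxk : |x.1| ≤ (k : ℤ) ∧ |x.2| ≤ (k : ℤ) := by
    have h1 := le_max_left x.1.natAbs x.2.natAbs
    have h2 := le_max_right x.1.natAbs x.2.natAbs
    simp only [nrm] at hx
    rw [abs_le, abs_le]
    omega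
  rw [abs_le, abs_le] at hxk
  have hyn : y ∉ finn n := by
    rw [mem_finn]
    simp only [nrm] at hy
    intro h
    rcases max_choice y.1.natAbs y.2.natAbs with h1 | h1 <;> omega
  have hxfinn : x ∈ finn n := by rw [mem_finn]; omega
  have hxfsq : x ∈ fsq k := by rw [mem_fsq]; omega
  obtain ⟨z, l₁, l₂, hz, h1, -, -, h4⟩ := hl.first_hit (fun v => v ∉ finn n) ⟨y, hl.right_mem, hyn⟩
  have h5 : IsW (Op η ∩ eS (↑(freg n) : Set V)) x z l₁ := by
    refine walk_change (Q := fun v => v ∈ finn n) ?_ h1 (fun v hv => not_not.1 (h4 v hv))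
    intro a b ha hs
    refine ⟨hs.1, hs.2.1, (edgeOf_mem_eS hs.1).2 ⟨?_, ?_⟩⟩
    · exact Finset.mem_coe.2 (finn_sub ha)
    · exact Finset.mem_coe.2 (freg_of_adj ha hs.1)
  have h6 := h5.reverse
  obtain ⟨φ, l₃, l₄, hφ, h7, -, -, h8⟩ := h6.first_hit (fun v => v ∈ fsq k)
    ⟨x, h6.right_mem, hxfsq⟩
  have hzφ : z ≠ φ := by
    rintro rfl
    apply hz
    rw [mem_fsq] at hφ
    rw [mem_finn]
    omega
  have h9 : IsW ((Op η \ eS (↑(fsq k) : Set V)) ∩ eS (↑(freg n) : Set V)) z φ l₃ := by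
    refine walk_change (Q := fun v => ¬ v ∈ fsq k) ?_ h7 h8
    intro a b ha hs
    refine ⟨hs.1, ⟨hs.2.1, fun hc => ha ?_⟩, hs.2.2⟩
    exact Finset.mem_coe.1 ((edgeOf_mem_eS hs.1).1 hc).1
  obtain ⟨w, hw, hs⟩ := walk_last (Q := fun v => ¬ v ∈ fsq k) h7 h8 hzφ
  have h10 : ∀ i, side k i φ → η ∈ sideEv k n (side k i) := fun i hi =>
    ⟨φ, z, hφ, hi, hz, Conn.symm ⟨l₃, h9⟩⟩
  simp only [Set.mem_iUnion]
  rcases side_of_adj hw hφ hs.1 with h | h | h | h
  · exact ⟨0, Finset.mem_univ _, h10 0 h⟩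
  · exact ⟨1, Finset.mem_univ _, h10 1 h⟩
  · exact ⟨2, Finset.mem_univ _, h10 2 h⟩
  · exact ⟨3, Finset.mem_univ _, h10 3 h⟩

/-! ### Symmetries -/

lemma conn_map {O O' : Set Edge} {τ : V → V} (h : ∀ a b, Step O a b → Step O' (τ a) (τ b))
    {x y : V} (hc : Conn O x y) : Conn O' (τ x) (τ y) :=
  hc.induction (P := fun v => Conn O' (τ x) (τ v)) (Conn.refl _ _)
    fun a b ha hs => ha.trans (h a b hs).conn

lemma PR_side_le (p : unitInterval) (k n : ℕ) {P P' : V → Prop} (τ : V → V) (σ : Edge ≃ Edge)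
    (hτ : ∀ a b, Adj a b → Adj (τ a) (τ b))
    (hσ : ∀ a b, Adj a b → edgeOf (τ a) (τ b) = σ (edgeOf a b))
    (hk : ∀ a, τ a ∈ fsq k ↔ a ∈ fsq k) (hn : ∀ a, τ a ∈ freg n ↔ a ∈ freg n)
    (hi : ∀ a, τ a ∈ finn n ↔ a ∈ finn n) (hP : ∀ a, P a → P' (τ a)) :
    PR p (sideEv k n P) ≤ PR p (sideEv k n P') := by
  rw [← PR_perm p σ (fd_sideEv k n P).measurableSet]
  refine PR_mono p ?_
  rintro η ⟨φ, ψ, h1, h2, h3, h4⟩
  refine ⟨τ φ, τ ψ, (hk φ).2 h1, hP φ h2, fun h => h3 ((hi ψ).1 h), conn_map ?_ h4⟩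
  intro a b hs
  have hab := hs.1
  obtain ⟨h5, ⟨h6, h7⟩, h8⟩ := hs
  refine ⟨hτ a b hab, ⟨?_, ?_⟩, ?_⟩
  · rw [hσ a b hab]
    exact h6
  · intro hc
    rw [edgeOf_mem_eS (hτ a b hab)] at hc
    rw [edgeOf_mem_eS hab] at h7
    exact h7 ⟨Finset.mem_coe.2 ((hk a).1 (Finset.mem_coe.1 hc.1)),
      Finset.mem_coe.2 ((hk b).1 (Finset.mem_coe.1 hc.2))⟩
  · rw [edgeOf_mem_eS (hτ a b hab)]
    rw [edgeOf_mem_eS hab] at h8
    exact ⟨Finset.mem_coe.2 ((hn a).2 (Finset.mem_coe.1 h8.1)),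
      Finset.mem_coe.2 ((hn b).2 (Finset.mem_coe.1 h8.2))⟩

/-- transposition -/
def tr (x : V) : V := (x.2, x.1)

/-- transposition of edges -/
def trE : Edge ≃ Edge where
  toFun e := ((e.1.2, e.1.1), !e.2)
  invFun e := ((e.1.2, e.1.1), !e.2)
  left_inv e := by simp
  right_inv e := by simp

/-- vertical reflection of faces -/
def rf (x : V) : V := (x.1, -1 - x.2)

/-- vertical reflection of edges -/
def rfE : Edge ≃ Edge where
  toFun e := if e.2 then ((e.1.1, -2 - e.1.2), true) else ((e.1.1, -1 - e.1.2), false)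
  invFun e := if e.2 then ((e.1.1, -2 - e.1.2), true) else ((e.1.1, -1 - e.1.2), false)
  left_inv e := by
    obtain ⟨⟨a, b⟩, t⟩ := e
    cases t <;> simp
  right_inv e := by
    obtain ⟨⟨a, b⟩, t⟩ := e
    cases t <;> simp

lemma adj_tr (a b : V) (h : Adj a b) : Adj (tr a) (tr b) := by
  simp only [Adj, tr] at *
  omega

lemma adj_rf (a b : V) (h : Adj a b) : Adj (rf a) (rf b) := by
  simp only [Adj, rf] at *
  have : -1 - a.2 - (-1 - b.2) = b.2 - a.2 := by ring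
  rw [this, abs_sub_comm b.2 a.2]
  exact h

lemma edge_tr (a b : V) (h : Adj a b) : edgeOf (tr a) (tr b) = trE (edgeOf a b) := by
  obtain ⟨a1, a2⟩ := a
  obtain ⟨b1, b2⟩ := b
  rcases adj_cases h with h | h | h | h <;> simp only [Prod.mk.injEq] at h <;>
    obtain ⟨rfl, rfl⟩ := h <;> simp [edgeOf, tr, trE]

lemma edge_rf (a b : V) (h : Adj a b) : edgeOf (rf a) (rf b) = rfE (edgeOf a b) := by
  obtain ⟨a1, a2⟩ := a
  obtain ⟨b1, b2⟩ := b
  rcases adj_cases h with h | h | h | h <;> simp only [Prod.mk.injEq] at h <;>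
    obtain ⟨rfl, rfl⟩ := h <;> simp [edgeOf, rf, rfE] <;> omega

lemma PR_tr (p : unitInterval) (k n : ℕ) {P P' : V → Prop} (hP : ∀ a, P a → P' (tr a)) :
    PR p (sideEv k n P) ≤ PR p (sideEv k n P') := by
  refine PR_side_le p k n tr trE adj_tr edge_tr ?_ ?_ ?_ hP
  · intro a; rw [mem_fsq, mem_fsq]; simp only [tr]; omega
  · intro a; rw [mem_freg, mem_freg]; simp only [tr]; omega
  · intro a; rw [mem_finn, mem_finn]; simp only [tr]; omega

lemma PR_rf (p : unitInterval) (k n : ℕ) {P P' : V → Prop} (hP : ∀ a, P a → P' (rf a)) :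
    PR p (sideEv k n P) ≤ PR p (sideEv k n P') := by
  refine PR_side_le p k n rf rfE adj_rf edge_rf ?_ ?_ ?_ hP
  · intro a; rw [mem_fsq, mem_fsq]; simp only [rf]; omega
  · intro a; rw [mem_freg, mem_freg]; simp only [rf]; omega
  · intro a; rw [mem_finn, mem_finn]; simp only [rf]; omega

lemma PR_side_eq (p : unitInterval) (k n : ℕ) (i : Fin 4) :
    PR p (sideEv k n (side k i)) = PR p (sideEv k n (side k 0)) := by
  have h01 : PR p (sideEv k n (side k 0)) ≤ PR p (sideEv k n (side k 1)) :=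
    PR_rf p k n fun a ha => by simp only [side, rf] at *; omega
  have h10 : PR p (sideEv k n (side k 1)) ≤ PR p (sideEv k n (side k 0)) :=
    PR_rf p k n fun a ha => by simp only [side, rf] at *; omega
  have h02 : PR p (sideEv k n (side k 0)) ≤ PR p (sideEv k n (side k 2)) :=
    PR_tr p k n fun a ha => by simp only [side, tr] at *; omega
  have h20 : PR p (sideEv k n (side k 2)) ≤ PR p (sideEv k n (side k 0)) :=
    PR_tr p k n fun a ha => by simp only [side, tr] at *; omega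
  have h13 : PR p (sideEv k n (side k 1)) ≤ PR p (sideEv k n (side k 3)) :=
    PR_tr p k n fun a ha => by simp only [side, tr] at *; omega
  have h31 : PR p (sideEv k n (side k 3)) ≤ PR p (sideEv k n (side k 1)) :=
    PR_tr p k n fun a ha => by simp only [side, tr] at *; omega
  fin_cases i
  · rfl
  · exact le_antisymm h10 h01
  · exact le_antisymm h20 h02
  · exact (le_antisymm h31 h13).trans (le_antisymm h10 h01)

/-- each of the four arms is likely -/
lemma side_ge {p : unitInterval} {k n : ℕ} (hkn : k < n)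
    (h : 1 - (2 : ℝ)⁻¹ ^ 12 ≤ PR p (boxArm k (n + 1))) (i : Fin 4) :
    7 / 8 ≤ PR p (sideEv k n (side k i)) := by
  rw [PR_side_eq]
  have h1 := PR_fkg_compl p (Finset.univ : Finset (Fin 4)) (fun i => sideEv k n (side k i))
    (fun i _ => incr_sideEv k n _) (fun i _ => fd_sideEv k n _)
  have h2 := h.trans (PR_mono p (boxArm_subset hkn))
  simp only [PR_side_eq p k n, Finset.prod_const, Finset.card_univ, Fintype.card_fin] at h1
  set a := PR p (sideEv k n (side k 0)) with ha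
  by_contra hcon
  push Not at hcon
  have h3 : (1 / 8 : ℝ) < 1 - a := by linarith
  have h4 : (1 / 8 : ℝ) ^ 4 < (1 - a) ^ 4 := pow_lt_pow_left₀ h3 (by norm_num) (by norm_num)
  have h5 : (1 / 8 : ℝ) ^ 4 = (2 : ℝ)⁻¹ ^ 12 := by norm_num
  linarith

end ZhangB

open ZhangB in
theorem dual_arms {q₁ q : unitInterval} {k n : ℕ} (hkn : k < n) (hq : q₁.1 ≤ 1 - q.1)
    (h : 1 - (2 : ℝ)⁻¹ ^ 12 ≤ PR q₁ (boxArm k (n + 1))) :
    7 / 8 ≤ PR q (armT k n) ∧ 7 / 8 ≤ PR q (armB k n) := by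
  have hq' : q₁ ≤ unitInterval.symm q := by
    rw [← Subtype.coe_le_coe, unitInterval.coe_symm_eq]
    exact hq
  have h1 : 1 - (2 : ℝ)⁻¹ ^ 12 ≤ PR (unitInterval.symm q) (boxArm k (n + 1)) :=
    h.trans (PR_mono_param hq' (incr_boxArm k (n + 1)) ⟨_, dep_boxArm k (n + 1)⟩)
  constructor
  · have h2 := side_ge hkn h1 0
    rw [← PR_dual q (fd_sideEv k n _).measurableSet] at h2
    exact h2
  · have h2 := side_ge hkn h1 1
    rw [← PR_dual q (fd_sideEv k n _).measurableSet] at h2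
    exact h2

end Pool.Agent.SAWP
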