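import Pool.Agent.SAWP.Perc.ZhangDefs

/-!
# SAWP: Zhang's argument, interpolation (module P10c)

`coe_Kfin`: elementary.
`interp`: let all four arms hold in `ω`, with ends `x_L` (left arm) and `x_R` (right arm).  Let `ω₀` be `ω` with all edges of
`Kfin k` closed.  In `ω₀`, `x_L` and `x_R` are not joined inside `Λ_n`: an open walk inside `Λ_n` uses no edge of `Kset k`
and contradicts `block` (the arms are still present, as they do not use edges of `K` resp. dual edges inside `fsq k`,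
see `star_mem`; `freg`/`finn` as in the statement of `block`).  Open the edges of `Kfin k` one after the other (induction on finsets
`T ⊆ Kfin k`: configuration `ω_T` = `ω₀` with the edges of `T` opened).  For `T = Kfin k` the vertices `x_L=(-k-1,j)` and `x_R=(k+1,j')` are joined
(row `j`, column `0`, row `j'`; all these edges touch `Λ_k`).  So there are `T` and `e ∉ T` with `x_L, x_R` not joined (inside `Λ_n`) in
`ω_T` but joined in `ω_{T ∪ e}`.  Then in `ω_T` one end of `e` is joined to `x_L` and the other one to `x_R`, hence both to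
`∂Λ_n`, and they are not joined to each other: `ω_T ∈ Pivot n e`.
-/

set_option autoImplicit false

open MeasureTheory

namespace Pool.Agent.SAWP

theorem coe_Kfin (k : ℕ) : (↑(Kfin k) : Set Edge) = Kset k := by
  ext e
  simp only [Kfin, Finset.coe_filter, Set.mem_setOf_eq, mem_eF, mem_box, sub_zero, Kset]
  constructor
  · exact fun h => h.2
  · intro h
    refine ⟨?_, h⟩
    obtain ⟨⟨i, j⟩, t⟩ := e
    cases t
    · simp only [src, tgt, nrm, Bool.false_eq_true, if_false] at h ⊢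
      omega
    · simp only [src, tgt, nrm, if_true] at h ⊢
      omega

namespace ZhangC

/-- Inserting one edge: a new connection splits at this edge. -/
lemma conn_insert {O : Set Edge} {e : Edge} {x y : V} (h : Conn (O ∪ {e}) x y) :
    Conn O x y ∨ (Conn O x (src e) ∧ Conn O (tgt e) y) ∨ (Conn O x (tgt e) ∧ Conn O (src e) y) := by
  refine h.induction (P := fun z => Conn O x z ∨ (Conn O x (src e) ∧ Conn O (tgt e) z) ∨
    (Conn O x (tgt e) ∧ Conn O (src e) z)) (Or.inl (Conn.refl O x)) ?_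
  intro a b hP hs
  by_cases he : edgeOf a b = e
  · subst he
    rcases edgeOf_ends hs.1 with ⟨h1, h2⟩ | ⟨h1, h2⟩
    · rw [h1, h2] at hP ⊢
      rcases hP with hP | ⟨hP, -⟩ | ⟨hP, -⟩
      · exact Or.inr (Or.inl ⟨hP, Conn.refl _ _⟩)
      · exact Or.inr (Or.inl ⟨hP, Conn.refl _ _⟩)
      · exact Or.inl hP
    · rw [h1, h2] at hP ⊢
      rcases hP with hP | ⟨hP, -⟩ | ⟨hP, -⟩
      · exact Or.inr (Or.inr ⟨hP, Conn.refl _ _⟩)
      · exact Or.inl hP
      · exact Or.inr (Or.inr ⟨hP, Conn.refl _ _⟩)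
  · have hs' : Step O a b := by
      refine ⟨hs.1, ?_⟩
      rcases hs.2 with h1 | h1
      · exact h1
      · exact absurd h1 he
    rcases hP with hP | ⟨hP, hQ⟩ | ⟨hP, hQ⟩
    · exact Or.inl (hP.trans hs'.conn)
    · exact Or.inr (Or.inl ⟨hP, hQ.trans hs'.conn⟩)
    · exact Or.inr (Or.inr ⟨hP, hQ.trans hs'.conn⟩)

/-- Opening edges one after the other. -/
lemma exists_first {A B : Set Edge} {x y : V} (h0 : ¬ Conn (A ∩ B) x y) (T : Finset Edge)
    (h : Conn ((A ∪ ↑T) ∩ B) x y) : ∃ T' ⊆ T, ∃ e ∈ T, e ∉ T' ∧ ¬ Conn ((A ∪ ↑T') ∩ B) x y ∧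
      Conn (((A ∪ ↑T') ∩ B) ∪ {e}) x y := by
  classical
  induction T using Finset.induction_on with
  | empty =>
    rw [Finset.coe_empty, Set.union_empty] at h
    exact absurd h h0
  | insert e T he ih =>
    by_cases hT : Conn ((A ∪ ↑T) ∩ B) x y
    · obtain ⟨T', hT', e', he', h1, h2, h3⟩ := ih hT
      exact ⟨T', hT'.trans (Finset.subset_insert _ _), e', Finset.mem_insert_of_mem he', h1, h2, h3⟩
    · refine ⟨T, Finset.subset_insert _ _, e, Finset.mem_insert_self _ _, he, hT, h.mono ?_⟩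
      rintro d ⟨hd, hdB⟩
      rcases hd with hd | hd
      · exact Or.inl ⟨Or.inl hd, hdB⟩
      · rw [Finset.coe_insert] at hd
        rcases hd with hd | hd
        · exact Or.inr hd
        · exact Or.inl ⟨Or.inr hd, hdB⟩

lemma row {k n : ℕ} (hkn : k < n) {O : Set Edge} (hO : Kset k ∩ eS (↑(box 0 n) : Set V) ⊆ O)
    {j : ℤ} (hj : |j| ≤ (k : ℤ)) (m : ℕ) (hm : m ≤ 2 * k + 2) :
    Conn O (-(k : ℤ) - 1, j) (-(k : ℤ) - 1 + m, j) := by
  rw [abs_le] at hj
  induction m with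
  | zero =>
    have : (-(k : ℤ) - 1 + ((0 : ℕ) : ℤ), j) = (-(k : ℤ) - 1, j) := by simp
    rw [this]
    exact Conn.refl _ _
  | succ m ih =>
    refine (ih (by omega)).trans (Step.conn ?_)
    have e1 : ((-(k : ℤ) - 1 + ((m + 1 : ℕ) : ℤ), j) : V) =
        ((-(k : ℤ) - 1 + (m : ℤ), j).1 + 1, (-(k : ℤ) - 1 + (m : ℤ), j).2) := by
      push_cast
      ext
      · simp only; ring
      · rfl
    rw [e1]
    refine ⟨adj_right _, ?_⟩
    rw [edgeOf_right]
    apply hO
    refine ⟨?_, ?_, ?_⟩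
    · simp only [Kset, Set.mem_setOf_eq, src, tgt, nrm, Bool.false_eq_true, if_false]
      omega
    · rw [Finset.mem_coe, mem_box, sub_zero]
      simp only [src, nrm]
      omega
    · rw [Finset.mem_coe, mem_box, sub_zero]
      simp only [tgt, nrm, Bool.false_eq_true, if_false]
      omega

lemma column {k n : ℕ} (hkn : k < n) {O : Set Edge} (hO : Kset k ∩ eS (↑(box 0 n) : Set V) ⊆ O)
    (m : ℕ) (hm : m ≤ 2 * k) : Conn O (0, -(k : ℤ)) (0, -(k : ℤ) + m) := by
  induction m with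
  | zero =>
    have : (((0 : ℤ), -(k : ℤ) + ((0 : ℕ) : ℤ)) : V) = (0, -(k : ℤ)) := by simp
    rw [this]
    exact Conn.refl _ _
  | succ m ih =>
    refine (ih (by omega)).trans (Step.conn ?_)
    have e1 : (((0 : ℤ), -(k : ℤ) + ((m + 1 : ℕ) : ℤ)) : V) =
        (((0 : ℤ), -(k : ℤ) + (m : ℤ)).1, ((0 : ℤ), -(k : ℤ) + (m : ℤ)).2 + 1) := by
      push_cast
      ext
      · rfl
      · simp only; ring
    rw [e1]
    refine ⟨adj_up _, ?_⟩
    rw [edgeOf_up]
    apply hO
    refine ⟨?_, ?_, ?_⟩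
    · simp only [Kset, Set.mem_setOf_eq, src, tgt, nrm, if_true]
      omega
    · rw [Finset.mem_coe, mem_box, sub_zero]
      simp only [src, nrm]
      omega
    · rw [Finset.mem_coe, mem_box, sub_zero]
      simp only [tgt, nrm, if_true]
      omega

lemma row' {k n : ℕ} (hkn : k < n) {O : Set Edge} (hO : Kset k ∩ eS (↑(box 0 n) : Set V) ⊆ O)
    {j : ℤ} (hj : |j| ≤ (k : ℤ)) {i : ℤ} (h1 : -(k : ℤ) - 1 ≤ i) (h2 : i ≤ k + 1) :
    Conn O (-(k : ℤ) - 1, j) (i, j) := by
  have := row hkn hO hj (i + k + 1).toNat (by omega)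
  have e : -(k : ℤ) - 1 + ((i + k + 1).toNat : ℤ) = i := by omega
  rwa [e] at this

lemma column' {k n : ℕ} (hkn : k < n) {O : Set Edge} (hO : Kset k ∩ eS (↑(box 0 n) : Set V) ⊆ O)
    {j : ℤ} (hj : |j| ≤ (k : ℤ)) : Conn O (0, -(k : ℤ)) (0, j) := by
  rw [abs_le] at hj
  have := column hkn hO (j + k).toNat (by omega)
  have e : -(k : ℤ) + ((j + k).toNat : ℤ) = j := by omega
  rwa [e] at this

lemma full {k n : ℕ} (hkn : k < n) {O : Set Edge} (hO : Kset k ∩ eS (↑(box 0 n) : Set V) ⊆ O)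
    {x y : V} (hx1 : x.1 = -(k : ℤ) - 1) (hx2 : |x.2| ≤ (k : ℤ))
    (hy1 : y.1 = (k : ℤ) + 1) (hy2 : |y.2| ≤ (k : ℤ)) : Conn O x y := by
  obtain ⟨x1, x2⟩ := x
  obtain ⟨y1, y2⟩ := y
  simp only at hx1 hx2 hy1 hy2
  subst hx1
  subst hy1
  have h1 : Conn O (-(k : ℤ) - 1, x2) (0, x2) := row' hkn hO hx2 (by omega) (by omega)
  have h2 := (column' hkn hO hx2).symm
  have h3 := column' hkn hO hy2
  have h4 : Conn O (-(k : ℤ) - 1, y2) (0, y2) := row' hkn hO hy2 (by omega) (by omega)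
  have h5 : Conn O (-(k : ℤ) - 1, y2) ((k : ℤ) + 1, y2) := row' hkn hO hy2 (by omega) (by omega)
  exact (((h1.trans h2).trans h3).trans h4.symm).trans h5

end ZhangC

open ZhangC in
theorem interp {k n : ℕ} (hkn : k < n) {ω : Cfg} (hL : ω ∈ armL k n) (hR : ω ∈ armR k n)
    (hT : ω ∈ armT k n) (hB : ω ∈ armB k n) :
    ∃ ω' : Cfg, (∃ e ∈ Kfin k, ω' ∈ Pivot n e) ∧ ∀ e, e ∉ Kfin k → ω' e = ω e := by
  classical
  obtain ⟨xL, yL, hL1, hL2, hyL, hcL⟩ := hL
  obtain ⟨xR, yR, hR1, hR2, hyR, hcR⟩ := hR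
  obtain ⟨φT, ψT, hT2, hT1, hT3, lT, hlT⟩ := hT
  obtain ⟨φB, ψB, hB2, hB1, hB3, lB, hlB⟩ := hB
  have hxL : xL ∈ (↑(box 0 n) : Set V) := by
    rw [Finset.mem_coe, mem_box, sub_zero]
    rw [abs_le] at hL2
    simp only [nrm]
    omega
  -- not joined at the beginning
  have h0 : ¬ Conn ((Op ω \ Kset k) ∩ eS (↑(box 0 n) : Set V)) xL xR := by
    rintro ⟨W, hW⟩
    refine block hkn (hW.mono Set.inter_subset_left) ?_ hL1 hL2 hR1 hR2
      (hlT.mono Set.inter_subset_left) hT1 hT2 hT3 (hlB.mono Set.inter_subset_left) hB1 hB2 hB3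
    intro v hv
    have := hW.mem_of_eS hxL v hv
    rw [Finset.mem_coe, mem_box, sub_zero] at this
    exact this
  -- joined at the end
  have h1 : Conn (((Op ω \ Kset k) ∪ ↑(Kfin k)) ∩ eS (↑(box 0 n) : Set V)) xL xR := by
    refine full hkn ?_ hL1 hL2 hR1 hR2
    rintro e ⟨he, he'⟩
    exact ⟨Or.inr (by rw [coe_Kfin]; exact he), he'⟩
  obtain ⟨T, hTK, e, heK, heT, hn, hy⟩ := exists_first h0 (Kfin k) h1
  have heK' : e ∈ Kset k := by
    rw [← coe_Kfin]
    exact heK
  refine ⟨fun d => if d ∈ T then true else if d ∈ Kfin k then false else ω d, ⟨e, heK, ?_⟩, ?_⟩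
  · have hop : Op (fun d => if d ∈ T then true else if d ∈ Kfin k then false else ω d) \ {e} =
        (Op ω \ Kset k) ∪ ↑T := by
      ext d
      rw [← coe_Kfin]
      simp only [Op, Set.mem_diff, Set.mem_setOf_eq, Set.mem_singleton_iff, Set.mem_union,
        Finset.mem_coe]
      by_cases hdT : d ∈ T
      · simp only [hdT, if_true, true_and, or_true, iff_true]
        rintro rfl
        exact heT hdT
      · by_cases hdK : d ∈ Kfin k
        · simp [hdT, hdK]
        · simp only [hdT, hdK, if_false, or_false, not_false_iff, and_true]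
          constructor
          · exact fun h => h.1
          · intro h
            refine ⟨h, ?_⟩
            rintro rfl
            exact hdK heK
    have hmono : (Op ω \ Kset k) ∩ eS (↑(box 0 n) : Set V) ⊆
        ((Op ω \ Kset k) ∪ ↑T) ∩ eS (↑(box 0 n) : Set V) :=
      Set.inter_subset_inter_left _ Set.subset_union_left
    have hcL' := hcL.mono hmono
    have hcR' := hcR.mono hmono
    show _ ∧ _ ∧ _
    rw [hop]
    rcases conn_insert hy with h | ⟨h2, h3⟩ | ⟨h2, h3⟩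
    · exact absurd h hn
    · refine ⟨fun h => hn ((h2.trans h).trans h3), ⟨yL, hyL, h2.symm.trans hcL'⟩,
        ⟨yR, hyR, h3.trans hcR'⟩⟩
    · refine ⟨fun h => hn ((h2.trans h.symm).trans h3), ⟨yR, hyR, h3.trans hcR'⟩,
        ⟨yL, hyL, h2.symm.trans hcL'⟩⟩
  · intro d hd
    have hdT : d ∉ T := fun h => hd (hTK h)
    simp [hdT, hd]

end Pool.Agent.SAWP
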