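import Pool.Agent.SAWP.Perc.ZhangA
import Pool.Agent.SAWP.Perc.ZhangB
import Pool.Agent.SAWP.Perc.ZhangC
import Pool.Agent.SAWP.Perc.Thin
import Pool.Agent.SAWP.Perc.Fkg

/-!
# SAWP: Zhang's four arm argument, assembly (module P10)

`P_q(armL ∩ armR ∩ armT ∩ armB) ≥ 1 - 4/8 = 1/2` (`primal_arms`, `dual_arms`, union bound for complements), `interp` and
`PR_energy` with `K = Kfin k`, `B = ⋃_{e∈K} Pivot n e` (`min q (1-q) = q ≥ q₁`), `PR_biUnion_le`.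
-/

set_option autoImplicit false

open MeasureTheory

namespace Pool.Agent.SAWP

namespace ZhangAsm

lemma PR_inter_ge (p : unitInterval) {A B : Set Cfg} (hA : FD A) (hB : FD B) {a b : ℝ}
    (h1 : 1 - a ≤ PR p A) (h2 : 1 - b ≤ PR p B) : 1 - (a + b) ≤ PR p (A ∩ B) := by
  have hm := (hA.measurableSet).inter hB.measurableSet
  have e1 := PR_compl p hA.measurableSet
  have e2 := PR_compl p hB.measurableSet
  have e3 := PR_compl p hm
  have e4 := PR_union_le p Aᶜ Bᶜ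
  rw [Set.compl_inter] at e3
  linarith

lemma fd_biUnion {ι : Type*} (s : Finset ι) (A : ι → Set Cfg) (h : ∀ i ∈ s, FD (A i)) :
    FD (⋃ i ∈ s, A i) := by
  classical
  induction s using Finset.induction_on with
  | empty =>
    refine ⟨∅, fun ω ω' _ => ?_⟩
    simp
  | insert a s ha ih =>
    rw [Finset.set_biUnion_insert]
    exact Fkg.FD.union (h a (Finset.mem_insert_self _ _))
      (ih fun i hi => h i (Finset.mem_insert_of_mem hi))

end ZhangAsm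

open ZhangAsm in
theorem zhang {q₁ : unitInterval} {k : ℕ}
    (h : ∀ n, k < n → 1 - (2 : ℝ)⁻¹ ^ 12 ≤ PR q₁ (boxArm k n))
    (q : unitInterval) (hq : q₁ ≤ q) (hq' : q.1 ≤ 1 / 2) (n : ℕ) (hn : k < n) :
    1 / 2 * q₁.1 ^ (Kfin k).card ≤ ∑ e ∈ Kfin k, PR q (Pivot n e) := by
  have hqq : q₁.1 ≤ q.1 := hq
  have h0 : 0 ≤ q₁.1 := q₁.2.1
  obtain ⟨hL, hR⟩ := primal_arms hn hq (h n hn)
  obtain ⟨hT, hB⟩ := dual_arms (q := q) hn (by linarith) (h (n + 1) (by omega))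
  have g1 : 1 - ((1 / 8 : ℝ) + 1 / 8) ≤ PR q (armL k n ∩ armR k n) :=
    PR_inter_ge q (fd_armL k n) (fd_armR k n) (by linarith) (by linarith)
  have g2 : 1 - ((1 / 8 : ℝ) + 1 / 8) ≤ PR q (armT k n ∩ armB k n) :=
    PR_inter_ge q (fd_armT k n) (fd_armB k n) (by linarith) (by linarith)
  have f1 := Fkg.FD.inter (fd_armL k n) (fd_armR k n)
  have f2 := Fkg.FD.inter (fd_armT k n) (fd_armB k n)
  have g3 := PR_inter_ge q f1 f2 g1 g2
  have fB : FD (⋃ e ∈ Kfin k, Pivot n e) :=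
    fd_biUnion _ _ fun e _ => ⟨_, dep_Pivot n e⟩
  have g4 := PR_energy q (Kfin k) (Fkg.FD.inter f1 f2) fB (by
    rintro ω ⟨⟨h1, h2⟩, h3, h4⟩
    obtain ⟨ω', ⟨e, he, h5⟩, h6⟩ := interp hn h1 h2 h3 h4
    exact ⟨ω', Set.mem_biUnion he h5, h6⟩)
  have g5 := PR_biUnion_le q (Kfin k) (fun e => Pivot n e)
  have g6 : min q.1 (1 - q.1) = q.1 := min_eq_left (by linarith)
  rw [g6] at g4
  have g7 : q₁.1 ^ (Kfin k).card ≤ q.1 ^ (Kfin k).card := pow_le_pow_left₀ h0 hqq _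
  have g8 : 0 ≤ q₁.1 ^ (Kfin k).card := pow_nonneg h0 _
  have g9 : q₁.1 ^ (Kfin k).card * (1 / 2) ≤ q.1 ^ (Kfin k).card *
      PR q (armL k n ∩ armR k n ∩ (armT k n ∩ armB k n)) :=
    mul_le_mul g7 (by linarith) (by norm_num) (g8.trans g7)
  linarith

end Pool.Agent.SAWP
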