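import Pool.Agent.SAWP.Perc.Dct1
import Pool.Agent.SAWP.Perc.Dct2
import Pool.Agent.SAWP.Perc.ZeroOne
import Pool.Agent.SAWP.Perc.Zhang
import Pool.Agent.SAWP.Perc.Count

/-!
# SAWP: exponential decay for `q < 1/2` (module P12)

Suppose `q₀ < 1/2` and `φ_{q₀}(S) ≥ 1` for all finite `S ∋ 0`; then this holds for all `q ≥ q₀`
(`phi_mono`).  Let `q₁ = (q₀+1/2)/2 < 1/2`.  `dct2` on `[q₀,q₁]`: `P_{q₁}(armEv n) ≥ θ₀ > 0` for all `n`; `zero_one` with
`ε = 2^{-12}` gives `k`; `zhang`: for all `q ∈ [q₁,1/2]` and `m > k`, `∑_{e∈K} P_q(Pivot m e) ≥ c₀ > 0` with `c₀` independent of `m`, `q`.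
Let `M = 2k+4`, `n = M (m+1)` and `z ∈ M ℤ²`, `0 ≤ z.1, z.2 < M m`: the translates `z + K` are disjoint subsets of `eF (box 0 n)` and
`P_q(Pivot n (z+e)) ≥ P_q(translate by z of Pivot (2n) e) = P_q(Pivot (2n) e)`: if the ends of `z+e` are in different clusters of
`Λ_{2n}(z)` touching its boundary then the same holds in the smaller box `Λ_n ⊆ Λ_{2n}(z)`.  The number of such `z` is
`m²`, so `∑_{e∈eF (box 0 n)} P_q(Pivot n e) ≥ c₀ m²` for all `q ∈ [q₁,1/2]`; `count_clusters` gives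
`(1/2-q₁) c₀ m² ≤ 8 M (m+1)`, false for large `m`.  So `φ_{q₀}(S) < 1` for some `S`, and `dct1` applies.
-/

set_option autoImplicit false

open MeasureTheory

namespace Pool.Agent.SAWP

namespace ExpDecay

open Dct1

lemma src_sh (z : V) (e : Edge) : src (sh z e) = src e + z := rfl

lemma tgt_sh (z : V) (e : Edge) : tgt (sh z e) = tgt e + z := by
  obtain ⟨⟨a, b⟩, t⟩ := e
  obtain ⟨c, d⟩ := z
  cases t
  · simp only [sh_apply, tgt, Prod.mk_add_mk, Bool.false_eq_true, if_false]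
    congr 1; ring
  · simp only [sh_apply, tgt, Prod.mk_add_mk, if_true]
    congr 1; ring

lemma step_sh {ω : Cfg} {e : Edge} {z a b : V}
    (h : Step (Op (fun e' => ω (sh z e')) \ {e}) a b) :
    Step (Op ω \ {sh z e}) (a + z) (b + z) := by
  refine ⟨(adj_add z).2 h.1, ?_⟩
  rw [edgeOf_add]
  refine ⟨h.2.1, ?_⟩
  intro h1
  exact h.2.2 ((sh z).injective h1)

lemma step_sh' {ω : Cfg} {e : Edge} {z a b : V} (h : Step (Op ω \ {sh z e}) a b) :
    Step (Op (fun e' => ω (sh z e')) \ {e}) (a - z) (b - z) := by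
  have hadj : Adj (a - z) (b - z) := by
    have := adj_add (a := a - z) (b := b - z) z
    rw [sub_add_cancel, sub_add_cancel] at this
    exact this.1 h.1
  have he : sh z (edgeOf (a - z) (b - z)) = edgeOf a b := by
    rw [← edgeOf_add, sub_add_cancel, sub_add_cancel]
  refine ⟨hadj, ?_, ?_⟩
  · change ω (sh z (edgeOf (a - z) (b - z))) = true
    rw [he]; exact h.2.1
  · intro h1
    apply h.2.2
    rw [Set.mem_singleton_iff] at h1
    rw [Set.mem_singleton_iff, ← he, h1]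

lemma nrm_neg (a : V) : nrm (-a) = nrm a := by simp [nrm]

lemma nrm_sub_le (a b : V) : nrm (a - b) ≤ nrm a + nrm b := by
  rw [sub_eq_add_neg]
  exact (nrm_add_le _ _).trans (by rw [nrm_neg])

lemma arm_shift {ω : Cfg} {e : Edge} {z x : V} {n : ℕ} (hz : nrm z ≤ n) (hx : nrm (x + z) ≤ n)
    (h : ∃ y, nrm y = 2 * n ∧
      Conn ((Op (fun e' => ω (sh z e')) \ {e}) ∩ eS (↑(box 0 (2 * n)) : Set V)) x y) :
    ∃ y, nrm y = n ∧ Conn ((Op ω \ {sh z e}) ∩ eS (↑(box 0 n) : Set V)) (x + z) y := by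
  obtain ⟨y, hy, hc⟩ := h
  have h1 : Conn (Op ω \ {sh z e}) (x + z) (y + z) :=
    conn_map (fun v => v + z) (fun a b hs => step_sh (hs.mono Set.inter_subset_left)) hc
  obtain ⟨l, hl⟩ := h1
  have h2 : n ≤ nrm (y + z - 0) := by
    have := nrm_sub_le (y + z) z
    rw [add_sub_cancel_right] at this
    rw [sub_zero]
    omega
  obtain ⟨y', hy', hc'⟩ := exists_exit 0 n hl (by rw [sub_zero]; exact hx) h2
  exact ⟨y', by rw [sub_zero] at hy'; exact hy', hc'⟩

lemma pivot_shift (q : unitInterval) {n : ℕ} {e : Edge} {z : V} (hz : nrm z ≤ n)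
    (hs : nrm (src e + z) ≤ n) (ht : nrm (tgt e + z) ≤ n) :
    PR q (Pivot (2 * n) e) ≤ PR q (Pivot n (sh z e)) := by
  have hmeas : MeasurableSet (Pivot (2 * n) e) := measurableSet_of_dep (dep_Pivot _ _)
  rw [← PR_perm q (sh z) hmeas]
  refine PR_mono q ?_
  rintro ω ⟨h1, h2, h3⟩
  refine ⟨?_, ?_, ?_⟩
  · intro hc
    apply h1
    rw [src_sh, tgt_sh] at hc
    have := conn_map (O' := (Op (fun e' => ω (sh z e')) \ {e}) ∩ eS (↑(box 0 (2 * n)) : Set V))
      (fun v => v - z) ?_ hc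
    · simpa using this
    · intro a b hab
      have h4 := step_sh' (hab.mono Set.inter_subset_left)
      refine ⟨h4.1, h4.2, ?_⟩
      have h5 := (edgeOf_mem_eS hab.1).1 hab.2.2
      refine (edgeOf_mem_eS h4.1).2 ⟨?_, ?_⟩
      · have h6 := mem_box.1 h5.1
        rw [sub_zero] at h6
        refine mem_box.2 ?_
        have := nrm_sub_le a z
        simp only [sub_zero]; omega
      · have h6 := mem_box.1 h5.2
        rw [sub_zero] at h6
        refine mem_box.2 ?_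
        have := nrm_sub_le b z
        simp only [sub_zero]; omega
  · rw [src_sh]; exact arm_shift hz hs h2
  · rw [tgt_sh]; exact arm_shift hz ht h3

/-- the translation vectors -/
noncomputable def vec (M : ℕ) (p : ℕ × ℕ) : V := ((M : ℤ) * p.1, (M : ℤ) * p.2)

lemma nrm_vec {M m : ℕ} {p : ℕ × ℕ} (h1 : p.1 < m) (h2 : p.2 < m) :
    nrm (vec M p) + M ≤ M * m := by
  obtain ⟨i, j⟩ := p
  obtain ⟨m, rfl⟩ : ∃ m', m = m' + 1 := ⟨m - 1, by simp only at h1; omega⟩
  have hi : M * i ≤ M * m := Nat.mul_le_mul_left _ (by simp only at h1; omega)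
  have hj : M * j ≤ M * m := Nat.mul_le_mul_left _ (by simp only at h2; omega)
  have h3 : (vec M (i, j)).1.natAbs = M * i := by
    simp only [vec, Int.natAbs_mul, Int.natAbs_natCast]
  have h4 : (vec M (i, j)).2.natAbs = M * j := by
    simp only [vec, Int.natAbs_mul, Int.natAbs_natCast]
  rw [nrm, h3, h4, mul_add, mul_one]
  have := max_le hi hj
  omega

lemma mem_Kfin {k : ℕ} {e : Edge} (h : e ∈ Kfin k) : nrm (src e) ≤ k + 1 ∧ nrm (tgt e) ≤ k + 1 := by
  have h1 := mem_eF.1 (Finset.mem_filter.1 h).1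
  have h2 := mem_box.1 h1.1
  have h3 := mem_box.1 h1.2
  rw [sub_zero] at h2 h3
  exact ⟨h2, h3⟩

lemma natAbs_le_nrm (x : V) : x.1.natAbs ≤ nrm x ∧ x.2.natAbs ≤ nrm x :=
  ⟨le_max_left _ _, le_max_right _ _⟩

lemma mul_inj {M i i' : ℕ} {a a' : ℤ} {k : ℕ} (hM : M = 2 * k + 4) (ha : a.natAbs ≤ k + 1)
    (ha' : a'.natAbs ≤ k + 1) (h : a + M * i = a' + M * i') : i = i' := by
  by_contra hne
  rcases Nat.lt_or_gt_of_ne hne with hlt | hlt
  · obtain ⟨d, rfl⟩ : ∃ d, i' = i + 1 + d := ⟨i' - i - 1, by omega⟩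
    push_cast at h
    have h2 : (0 : ℤ) ≤ (M : ℤ) * d := by positivity
    have h3 : a - a' = M + M * d := by linarith
    omega
  · obtain ⟨d, rfl⟩ : ∃ d, i = i' + 1 + d := ⟨i - i' - 1, by omega⟩
    push_cast at h
    have h2 : (0 : ℤ) ≤ (M : ℤ) * d := by positivity
    have h3 : a' - a = M + M * d := by linarith
    omega

lemma sum_ge (q : unitInterval) {k m : ℕ} {c : ℝ}
    (hc : c ≤ ∑ e ∈ Kfin k, PR q (Pivot (2 * ((2 * k + 4) * (m + 1))) e)) :
    (m : ℝ) ^ 2 * c ≤ ∑ e ∈ eF (box 0 ((2 * k + 4) * (m + 1))),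
      PR q (Pivot ((2 * k + 4) * (m + 1)) e) := by
  classical
  set M := 2 * k + 4 with hM
  set n := M * (m + 1) with hn
  have hnM : n = M * m + M := by rw [hn]; ring
  set Z := Finset.range m ×ˢ Finset.range m with hZ
  have hcard : (Z.card : ℝ) = (m : ℝ) ^ 2 := by
    rw [hZ, Finset.card_product, Finset.card_range]; push_cast; ring
  have hzn : ∀ p ∈ Z, nrm (vec M p) + M ≤ M * m := by
    intro p hp
    rw [hZ, Finset.mem_product, Finset.mem_range, Finset.mem_range] at hp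
    exact nrm_vec hp.1 hp.2
  have hends : ∀ p ∈ Z, ∀ e ∈ Kfin k, nrm (src e + vec M p) ≤ n ∧ nrm (tgt e + vec M p) ≤ n := by
    intro p hp e he
    have h1 := hzn p hp
    have h2 := mem_Kfin he
    have h3 := nrm_add_le (src e) (vec M p)
    have h4 := nrm_add_le (tgt e) (vec M p)
    constructor <;> omega
  have hinj : Set.InjOn (fun p : (ℕ × ℕ) × Edge => sh (vec M p.1) p.2)
      (↑(Z ×ˢ Kfin k) : Set ((ℕ × ℕ) × Edge)) := by
    rintro ⟨⟨i, j⟩, e⟩ h1 ⟨⟨i', j'⟩, e'⟩ h2 h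
    simp only at h
    rw [Finset.mem_coe, Finset.mem_product] at h1 h2
    have h3 := mem_Kfin h1.2
    have h4 := mem_Kfin h2.2
    simp only at h3 h4
    rw [sh_apply, sh_apply, Prod.mk.injEq] at h
    obtain ⟨h5, h6⟩ := h
    have h7 := congrArg Prod.fst h5
    have h8 := congrArg Prod.snd h5
    simp only [Prod.fst_add, Prod.snd_add, vec] at h7 h8
    have h9 := natAbs_le_nrm (src e)
    have h10 := natAbs_le_nrm (src e')
    simp only [src] at h3 h4 h9 h10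
    have hi : i = i' := mul_inj hM (h9.1.trans h3.1) (h10.1.trans h4.1) h7
    have hj : j = j' := mul_inj hM (h9.2.trans h3.1) (h10.2.trans h4.1) h8
    subst hi hj
    have h11 : e.1 = e'.1 := add_right_cancel h5
    have : e = e' := Prod.ext h11 h6
    rw [this]
  have hsub : (Z ×ˢ Kfin k).image (fun p : (ℕ × ℕ) × Edge => sh (vec M p.1) p.2) ⊆
      eF (box 0 n) := by
    intro e he
    rw [Finset.mem_image] at he
    obtain ⟨⟨p, e'⟩, h1, rfl⟩ := he
    rw [Finset.mem_product] at h1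
    have h2 := hends p h1.1 e' h1.2
    rw [mem_eF, src_sh, tgt_sh, mem_box, mem_box, sub_zero, sub_zero]
    exact h2
  have hprod := Finset.sum_product Z (Kfin k)
    (fun p : (ℕ × ℕ) × Edge => PR q (Pivot n (sh (vec M p.1) p.2)))
  clear_value Z n M
  calc (m : ℝ) ^ 2 * c ≤ (m : ℝ) ^ 2 * ∑ e ∈ Kfin k, PR q (Pivot (2 * n) e) :=
        mul_le_mul_of_nonneg_left hc (by positivity)
    _ = ∑ p ∈ Z, ∑ e ∈ Kfin k, PR q (Pivot (2 * n) e) := by
        rw [Finset.sum_const, nsmul_eq_mul, hcard]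
    _ ≤ ∑ p ∈ Z, ∑ e ∈ Kfin k, PR q (Pivot n (sh (vec M p) e)) := by
        refine Finset.sum_le_sum fun p hp => Finset.sum_le_sum fun e he => ?_
        have h1 := hends p hp e he
        have h2 := hzn p hp
        exact pivot_shift q (by omega) h1.1 h1.2
    _ = ∑ p ∈ Z ×ˢ Kfin k, PR q (Pivot n (sh (vec M p.1) p.2)) := hprod.symm
    _ = ∑ e ∈ (Z ×ˢ Kfin k).image (fun p : (ℕ × ℕ) × Edge => sh (vec M p.1) p.2),
          PR q (Pivot n e) := by
        rw [Finset.sum_image hinj]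
    _ ≤ ∑ e ∈ eF (box 0 n), PR q (Pivot n e) :=
        Finset.sum_le_sum_of_subset_of_nonneg hsub fun _ _ _ => PR_nonneg _ _

end ExpDecay

open ExpDecay in
theorem exp_decay (q : unitInterval) (hq : q.1 < 1 / 2) :
    ∃ C c : ℝ, 0 < C ∧ 0 < c ∧ ∀ n : ℕ, PR q (armEv n) ≤ C * Real.exp (-(c * n)) := by
  by_cases hS : ∃ S : Finset V, (0 : V) ∈ S ∧ phi q S < 1
  · obtain ⟨S, h0, h⟩ := hS
    exact dct1 q S h0 h
  exfalso
  push Not at hS
  have hq0 := q.2.1
  obtain ⟨q₁, hq₁⟩ : ∃ q₁ : unitInterval, q₁.1 = (q.1 + 1 / 2) / 2 :=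
    ⟨⟨(q.1 + 1 / 2) / 2, by constructor <;> linarith⟩, rfl⟩
  obtain ⟨q₂, hq₂⟩ : ∃ q₂ : unitInterval, q₂.1 = 1 / 2 :=
    ⟨⟨1 / 2, by constructor <;> norm_num⟩, rfl⟩
  have h01 : q < q₁ := by
    change q.1 < q₁.1
    rw [hq₁]; linarith
  have h12 : q₁ ≤ q₂ := by
    change q₁.1 ≤ q₂.1
    rw [hq₁, hq₂]; linarith
  have hphi : ∀ q' : unitInterval, q ≤ q' → q' ≤ q₁ → ∀ S : Finset V, (0 : V) ∈ S →
      1 ≤ phi q' S := fun q' h _ S h0 => (hS S h0).trans (phi_mono h S)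
  have harm := dct2 q q₁ h01 hphi
  have hθ : 0 < 1 - Real.exp (-(4 * (q₁.1 - q.1))) := by
    have : Real.exp (-(4 * (q₁.1 - q.1))) < 1 := by
      rw [Real.exp_lt_one_iff]
      have h : q.1 < q₁.1 := h01
      linarith
    linarith
  obtain ⟨k, -, hk⟩ := zero_one q₁ hθ harm (ε := (2 : ℝ)⁻¹ ^ 12) (by positivity)
  have hq₁pos : 0 < q₁.1 := by rw [hq₁]; linarith
  set c₀ : ℝ := 1 / 2 * q₁.1 ^ (Kfin k).card with hc₀
  have hc₀pos : 0 < c₀ := by positivity
  have hz := fun (q' : unitInterval) (h1 : q₁ ≤ q') (h2 : q' ≤ q₂) (n : ℕ) (hn : k < n) =>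
    zhang hk q' h1 (by rw [← hq₂]; exact h2) n hn
  have hmain : ∀ m : ℕ, (q₂.1 - q₁.1) * ((m : ℝ) ^ 2 * c₀) ≤
      8 * (((2 * k + 4) * (m + 1) : ℕ) : ℝ) := by
    intro m
    have hpos : 2 * k + 4 ≤ (2 * k + 4) * (m + 1) := Nat.le_mul_of_pos_right _ (by omega)
    refine count_clusters h12 (n := (2 * k + 4) * (m + 1)) (by omega) ?_
    intro q' h1 h2
    exact sum_ge q' (hz q' h1 h2 _ (by omega))
  have hd : 0 < q₂.1 - q₁.1 := by rw [hq₁, hq₂]; linarith
  set a : ℝ := (q₂.1 - q₁.1) * c₀ with ha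
  have hapos : 0 < a := mul_pos hd hc₀pos
  set b : ℝ := 8 * (2 * k + 4) with hb
  have hbpos : 0 < b := by positivity
  obtain ⟨m, hm⟩ := exists_nat_gt (2 * b / a + 1)
  have h1 := hmain m
  push_cast at h1
  have h2 : a * (m : ℝ) ^ 2 ≤ b * (m + 1) := by
    rw [ha, hb]; nlinarith
  have h3 : 0 < 2 * b / a := by positivity
  have hm1 : (1 : ℝ) < m := by linarith
  have h4 : 2 * b < a * m := by
    have : 2 * b / a < m := by linarith
    rw [div_lt_iff₀ hapos] at this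
    linarith
  have h5 : 2 * b * m < a * m * m := mul_lt_mul_of_pos_right h4 (by linarith)
  nlinarith

end Pool.Agent.SAWP
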