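import Pool.Agent.SAWP.Perc.ZhangDefs
import Pool.Agent.SAWP.Perc.Fkg
import Pool.Agent.SAWP.Perc.Russo

/-!
# SAWP: Zhang's argument, primal arms (module P10a)

`boxArm k n ⊆ A_L ∪ A_R ∪ A_T ∪ A_B` (primal arms from the four sides, `armL, armR` and their images under
transposition `(x,y) ↦ (y,x)`): look at the last vertex in `Λ_k` of a path from `Λ_k` to `∂Λ_n` inside
`Λ_n` (`k < n`); the next vertex has norm `k+1` and is not a corner, and from there on no edge of `Kset k` is used.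
The four events are increasing and have the same probability `a` (reflection and transposition,
`PR_perm` with the induced permutation of the edges); `PR_fkg_compl`: `(1-a)⁴ ≤ 2^{-12}`, so `a ≥ 7/8` at `q₁`; `PR_mono_param` for `q ≥ q₁`.
-/

set_option autoImplicit false

open MeasureTheory

namespace Pool.Agent.SAWP

namespace ZhangA

/-- The primal arm events: `P` describes the side from which the arm starts. -/
def armP (k n : ℕ) (P : V → Prop) : Set Cfg :=
  {ω | ∃ x y, P x ∧ nrm y = n ∧ Conn ((Op ω \ Kset k) ∩ eS (↑(box 0 n) : Set V)) x y}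

/-- the four sides -/
def side (k : ℕ) (i : Fin 4) : V → Prop := fun x =>
  match i with
  | 0 => x.1 = -(k : ℤ) - 1 ∧ |x.2| ≤ (k : ℤ)
  | 1 => x.1 = (k : ℤ) + 1 ∧ |x.2| ≤ (k : ℤ)
  | 2 => x.2 = -(k : ℤ) - 1 ∧ |x.1| ≤ (k : ℤ)
  | 3 => x.2 = (k : ℤ) + 1 ∧ |x.1| ≤ (k : ℤ)

lemma incr_armP (k n : ℕ) (P : V → Prop) : Incr (armP k n P) := by
  rintro ω ω' h ⟨x, y, h1, h2, h3⟩
  refine ⟨x, y, h1, h2, h3.mono ?_⟩
  intro e he
  exact ⟨⟨op_mono h he.1.1, he.1.2⟩, he.2⟩

lemma fd_armP (k n : ℕ) (P : V → Prop) : FD (armP k n P) := by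
  refine ⟨eF (box 0 n), ?_⟩
  rw [coe_eF]
  have := dep_of_op (D := eS (↑(box 0 n) : Set V)) (fun O => ∃ x y : V, P x ∧ nrm y = n ∧
    Conn (O \ Kset k) x y)
  intro ω ω' hω
  have h := this ω ω' hω
  have e1 : ∀ ω : Cfg, (Op ω \ Kset k) ∩ eS (↑(box 0 n) : Set V) =
      (Op ω ∩ eS (↑(box 0 n) : Set V)) \ Kset k := by
    intro ω; ext d; simp only [Set.mem_inter_iff, Set.mem_sdiff]; tauto
  unfold armP
  simp only [Set.mem_ofPred_eq, e1]
  exact h

lemma armL_eq (k n : ℕ) : armL k n = armP k n (side k 0) := by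
  ext ω
  constructor
  · rintro ⟨x, y, h1, h2, h3, h4⟩
    exact ⟨x, y, ⟨h1, h2⟩, h3, h4⟩
  · rintro ⟨x, y, ⟨h1, h2⟩, h3, h4⟩
    exact ⟨x, y, h1, h2, h3, h4⟩

lemma armR_eq (k n : ℕ) : armR k n = armP k n (side k 1) := by
  ext ω
  constructor
  · rintro ⟨x, y, h1, h2, h3, h4⟩
    exact ⟨x, y, ⟨h1, h2⟩, h3, h4⟩
  · rintro ⟨x, y, ⟨h1, h2⟩, h3, h4⟩
    exact ⟨x, y, h1, h2, h3, h4⟩

/-- The last step of a walk all of whose vertices except the last satisfy `Q`; the initial piece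
is a connection in another edge set. -/
lemma walk_last {O O' : Set Edge} {Q : V → Prop}
    (hQ : ∀ a b, Q a → Q b → Step O a b → Step O' a b) {x z : V} {l : List V} (h : IsW O x z l)
    (hl : ∀ v ∈ l.dropLast, Q v) (hxz : x ≠ z) : ∃ w, Q w ∧ Step O w z ∧ Conn O' x w := by
  induction l generalizing x with
  | nil => exact absurd rfl h.ne_nil
  | cons a t ih =>
    cases t with
    | nil =>
      obtain ⟨rfl, rfl⟩ := isW_single.1 h
      exact absurd rfl hxz
    | cons b t =>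
      obtain ⟨rfl, hs, h2⟩ := isW_cons_cons.1 h
      have ha : Q a := hl _ (by
        rw [List.dropLast_cons_of_ne_nil (by simp)]
        exact List.mem_cons_self)
      by_cases hb : b = z
      · exact ⟨a, ha, hb ▸ hs, Conn.refl _ _⟩
      · have hl2 : ∀ v ∈ (b :: t).dropLast, Q v := fun v hv => hl v (by
          rw [List.dropLast_cons_of_ne_nil (by simp)]
          exact List.mem_cons_of_mem _ hv)
        have hbQ : Q b := by
          cases t with
          | nil =>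
            obtain ⟨-, h3⟩ := isW_single.1 h2
            exact absurd h3 hb
          | cons c t =>
            refine hl2 b ?_
            rw [List.dropLast_cons_of_ne_nil (by simp)]
            exact List.mem_cons_self
        obtain ⟨w, h3, h4, h5⟩ := ih h2 hl2 hb
        exact ⟨w, h3, h4, (hQ a b ha hbQ hs).conn.trans h5⟩

lemma nrm_le_iff {k : ℕ} {x : V} : nrm x ≤ k ↔ |x.1| ≤ (k : ℤ) ∧ |x.2| ≤ (k : ℤ) := by
  simp only [nrm, abs_le]
  rw [max_le_iff]
  omega

lemma side_of_adj {k : ℕ} {a b : V} (ha : ¬ nrm a ≤ k) (hb : nrm b ≤ k) (h : Adj a b) :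
    ∃ i, side k i a := by
  rw [nrm_le_iff] at ha hb
  rw [abs_le, abs_le] at ha hb
  have hsum : side k 0 a ∨ side k 1 a ∨ side k 2 a ∨ side k 3 a := by
    simp only [side, abs_le]
    rcases adj_cases h with h | h | h | h <;> subst h <;> simp only at ha hb ⊢ <;> omega
  rcases hsum with h | h | h | h
  · exact ⟨_, h⟩
  · exact ⟨_, h⟩
  · exact ⟨_, h⟩
  · exact ⟨_, h⟩

/-- Every arm from `Λ_k` leaves through one of the four sides. -/
lemma boxArm_subset {k n : ℕ} (hkn : k < n) :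
    boxArm k n ⊆ ⋃ i ∈ (Finset.univ : Finset (Fin 4)), armP k n (side k i) := by
  rintro ω ⟨x, y, hx, hy, l, hl⟩
  have h1 := hl.reverse
  obtain ⟨z, l₁, l₂, hz, h2, -, -, h3⟩ := h1.first_hit (fun v => nrm v ≤ k) ⟨x, h1.right_mem, hx⟩
  have hyz : y ≠ z := by
    rintro rfl
    omega
  have hQ : ∀ a b, ¬ nrm a ≤ k → ¬ nrm b ≤ k → Step (Op ω ∩ eS (↑(box 0 n) : Set V)) a b →
      Step ((Op ω \ Kset k) ∩ eS (↑(box 0 n) : Set V)) a b := by
    intro a b ha hb hs
    refine ⟨hs.1, ⟨hs.2.1, fun hc => ?_⟩, hs.2.2⟩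
    simp only [Kset, Set.mem_ofPred_eq] at hc
    rcases edgeOf_ends hs.1 with ⟨h4, h5⟩ | ⟨h4, h5⟩ <;> rw [h4, h5] at hc <;> tauto
  obtain ⟨w, hw, hs, hc⟩ := walk_last (Q := fun v => ¬ nrm v ≤ k) hQ h2 h3 hyz
  obtain ⟨i, hi⟩ := side_of_adj hw hz hs.1
  simp only [Set.mem_iUnion]
  exact ⟨i, Finset.mem_univ _, w, y, hi, hy, hc.symm⟩

/-! ### Symmetries -/

lemma conn_map {O O' : Set Edge} {τ : V → V} (h : ∀ a b, Step O a b → Step O' (τ a) (τ b))
    {x y : V} (hc : Conn O x y) : Conn O' (τ x) (τ y) :=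
  hc.induction (P := fun v => Conn O' (τ x) (τ v)) (Conn.refl _ _)
    fun a b ha hs => ha.trans (h a b hs).conn

lemma mem_Kset_edgeOf {k : ℕ} {a b : V} (h : Adj a b) :
    edgeOf a b ∈ Kset k ↔ nrm a ≤ k ∨ nrm b ≤ k := by
  simp only [Kset, Set.mem_ofPred_eq]
  rcases edgeOf_ends h with ⟨h4, h5⟩ | ⟨h4, h5⟩ <;> rw [h4, h5]
  exact or_comm

lemma PR_arm_le (p : unitInterval) (k n : ℕ) {P P' : V → Prop} (τ : V → V) (σ : Edge ≃ Edge)
    (hτ : ∀ a b, Adj a b → Adj (τ a) (τ b))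
    (hσ : ∀ a b, Adj a b → edgeOf (τ a) (τ b) = σ (edgeOf a b))
    (hnrm : ∀ a, nrm (τ a) = nrm a) (hP : ∀ a, P a → P' (τ a)) :
    PR p (armP k n P) ≤ PR p (armP k n P') := by
  rw [← PR_perm p σ (fd_armP k n P).measurableSet]
  refine PR_mono p ?_
  rintro ω ⟨x, y, h1, h2, h3⟩
  refine ⟨τ x, τ y, hP x h1, (hnrm y).trans h2, conn_map ?_ h3⟩
  have hbox : ∀ a, τ a ∈ (↑(box 0 n) : Set V) ↔ a ∈ (↑(box 0 n) : Set V) := by
    intro a
    rw [Finset.mem_coe, Finset.mem_coe, mem_box, mem_box, sub_zero, sub_zero, hnrm]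
  intro a b hs
  have hab := hs.1
  obtain ⟨h5, ⟨h6, h7⟩, h8⟩ := hs
  refine ⟨hτ a b hab, ⟨?_, ?_⟩, ?_⟩
  · rw [hσ a b hab]
    exact h6
  · intro hc
    rw [mem_Kset_edgeOf (hτ a b hab), hnrm, hnrm] at hc
    rw [mem_Kset_edgeOf hab] at h7
    exact h7 hc
  · rw [edgeOf_mem_eS (hτ a b hab), hbox, hbox]
    rw [edgeOf_mem_eS hab] at h8
    exact h8

/-- transposition -/
def tr (x : V) : V := (x.2, x.1)

/-- transposition of edges -/
def trE : Edge ≃ Edge where
  toFun e := ((e.1.2, e.1.1), !e.2)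
  invFun e := ((e.1.2, e.1.1), !e.2)
  left_inv e := by simp
  right_inv e := by simp

/-- horizontal reflection -/
def rf (x : V) : V := (-x.1, x.2)

/-- horizontal reflection of edges -/
def rfE : Edge ≃ Edge where
  toFun e := if e.2 then ((-e.1.1, e.1.2), true) else ((-1 - e.1.1, e.1.2), false)
  invFun e := if e.2 then ((-e.1.1, e.1.2), true) else ((-1 - e.1.1, e.1.2), false)
  left_inv e := by
    obtain ⟨⟨a, b⟩, t⟩ := e
    cases t <;> simp
  right_inv e := by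
    obtain ⟨⟨a, b⟩, t⟩ := e
    cases t <;> simp

lemma adj_tr (a b : V) (h : Adj a b) : Adj (tr a) (tr b) := by
  simp only [Adj, tr] at *
  omega

lemma adj_rf (a b : V) (h : Adj a b) : Adj (rf a) (rf b) := by
  simp only [Adj, rf] at *
  have : -a.1 - -b.1 = b.1 - a.1 := by ring
  rw [this, abs_sub_comm b.1 a.1]
  exact h

lemma edge_tr (a b : V) (h : Adj a b) : edgeOf (tr a) (tr b) = trE (edgeOf a b) := by
  obtain ⟨a1, a2⟩ := a
  obtain ⟨b1, b2⟩ := b
  rcases adj_cases h with h | h | h | h <;> simp only [Prod.mk.injEq] at h <;>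
    obtain ⟨rfl, rfl⟩ := h <;> simp [edgeOf, tr, trE]

lemma edge_rf (a b : V) (h : Adj a b) : edgeOf (rf a) (rf b) = rfE (edgeOf a b) := by
  obtain ⟨a1, a2⟩ := a
  obtain ⟨b1, b2⟩ := b
  rcases adj_cases h with h | h | h | h <;> simp only [Prod.mk.injEq] at h <;>
    obtain ⟨rfl, rfl⟩ := h <;> simp [edgeOf, rf, rfE] <;> omega

lemma nrm_tr (a : V) : nrm (tr a) = nrm a := by
  simp only [nrm, tr]
  exact max_comm _ _

lemma nrm_rf (a : V) : nrm (rf a) = nrm a := by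
  simp only [nrm, rf, Int.natAbs_neg]

lemma PR_tr (p : unitInterval) (k n : ℕ) {P P' : V → Prop} (hP : ∀ a, P a → P' (tr a)) :
    PR p (armP k n P) ≤ PR p (armP k n P') :=
  PR_arm_le p k n tr trE adj_tr edge_tr nrm_tr hP

lemma PR_rf (p : unitInterval) (k n : ℕ) {P P' : V → Prop} (hP : ∀ a, P a → P' (rf a)) :
    PR p (armP k n P) ≤ PR p (armP k n P') :=
  PR_arm_le p k n rf rfE adj_rf edge_rf nrm_rf hP

lemma PR_side_eq (p : unitInterval) (k n : ℕ) (i : Fin 4) :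
    PR p (armP k n (side k i)) = PR p (armP k n (side k 0)) := by
  have h01 : PR p (armP k n (side k 0)) ≤ PR p (armP k n (side k 1)) :=
    PR_rf p k n fun a ha => by simp only [side, rf] at *; exact ⟨by omega, ha.2⟩
  have h10 : PR p (armP k n (side k 1)) ≤ PR p (armP k n (side k 0)) :=
    PR_rf p k n fun a ha => by simp only [side, rf] at *; exact ⟨by omega, ha.2⟩
  have h02 : PR p (armP k n (side k 0)) ≤ PR p (armP k n (side k 2)) :=
    PR_tr p k n fun a ha => by simp only [side, tr] at *; exact ha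
  have h20 : PR p (armP k n (side k 2)) ≤ PR p (armP k n (side k 0)) :=
    PR_tr p k n fun a ha => by simp only [side, tr] at *; exact ha
  have h13 : PR p (armP k n (side k 1)) ≤ PR p (armP k n (side k 3)) :=
    PR_tr p k n fun a ha => by simp only [side, tr] at *; exact ha
  have h31 : PR p (armP k n (side k 3)) ≤ PR p (armP k n (side k 1)) :=
    PR_tr p k n fun a ha => by simp only [side, tr] at *; exact ha
  fin_cases i
  · rfl
  · exact le_antisymm h10 h01
  · exact le_antisymm h20 h02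
  · exact (le_antisymm h31 h13).trans (le_antisymm h10 h01)

/-- each of the four arms is likely -/
lemma side_ge {p : unitInterval} {k n : ℕ} (hkn : k < n)
    (h : 1 - (2 : ℝ)⁻¹ ^ 12 ≤ PR p (boxArm k n)) (i : Fin 4) :
    7 / 8 ≤ PR p (armP k n (side k i)) := by
  rw [PR_side_eq]
  have h1 := PR_fkg_compl p (Finset.univ : Finset (Fin 4)) (fun i => armP k n (side k i))
    (fun i _ => incr_armP k n _) (fun i _ => fd_armP k n _)
  have h2 := h.trans (PR_mono p (boxArm_subset hkn))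
  simp only [PR_side_eq p k n, Finset.prod_const, Finset.card_univ, Fintype.card_fin] at h1
  set a := PR p (armP k n (side k 0)) with ha
  by_contra hcon
  push Not at hcon
  have h3 : (1 / 8 : ℝ) < 1 - a := by linarith
  have h4 : (1 / 8 : ℝ) ^ 4 < (1 - a) ^ 4 := pow_lt_pow_left₀ h3 (by norm_num) (by norm_num)
  have h5 : (1 / 8 : ℝ) ^ 4 = (2 : ℝ)⁻¹ ^ 12 := by norm_num
  linarith

end ZhangA

open ZhangA in
theorem primal_arms {q₁ q : unitInterval} {k n : ℕ} (hkn : k < n) (hq : q₁ ≤ q)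
    (h : 1 - (2 : ℝ)⁻¹ ^ 12 ≤ PR q₁ (boxArm k n)) :
    7 / 8 ≤ PR q (armL k n) ∧ 7 / 8 ≤ PR q (armR k n) := by
  have h1 : 1 - (2 : ℝ)⁻¹ ^ 12 ≤ PR q (boxArm k n) :=
    h.trans (PR_mono_param hq (incr_boxArm k n) ⟨_, dep_boxArm k n⟩)
  rw [armL_eq, armR_eq]
  exact ⟨side_ge hkn h1 0, side_ge hkn h1 1⟩

end Pool.Agent.SAWP
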