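import Pool.Agent.SAWP.Perc.Events
import Pool.Agent.SAWP.Perc.Block

/-!
# SAWP: Zhang's argument, the four arm events (definitions)
-/

set_option autoImplicit false

open MeasureTheory

namespace Pool.Agent.SAWP

/-- The finite set of edges touching `[-k,k]²`. -/
noncomputable def Kfin (k : ℕ) : Finset Edge :=
  (eF (box 0 (k + 1))).filter (fun e => nrm (src e) ≤ k ∨ nrm (tgt e) ≤ k)

/-- Left primal arm: some `(-k-1,j)`, `|j| ≤ k`, is joined to `∂Λ_n` inside `Λ_n` without edges of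
`Kset k`. -/
def armL (k n : ℕ) : Set Cfg :=
  {ω | ∃ x y, x.1 = -(k : ℤ) - 1 ∧ |x.2| ≤ (k : ℤ) ∧ nrm y = n ∧
    Conn ((Op ω \ Kset k) ∩ eS (↑(box 0 n) : Set V)) x y}

/-- Right primal arm. -/
def armR (k n : ℕ) : Set Cfg :=
  {ω | ∃ x y, x.1 = (k : ℤ) + 1 ∧ |x.2| ≤ (k : ℤ) ∧ nrm y = n ∧
    Conn ((Op ω \ Kset k) ∩ eS (↑(box 0 n) : Set V)) x y}

/-- Region of faces in which the dual arms live. -/
noncomputable def freg (n : ℕ) : Finset V := rect (-(n : ℤ) - 1) n (-(n : ℤ) - 1) n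

/-- Inner region of faces. -/
noncomputable def finn (n : ℕ) : Finset V := rect (-(n : ℤ)) (n - 1) (-(n : ℤ)) (n - 1)

/-- Top dual arm. -/
def armT (k n : ℕ) : Set Cfg :=
  {ω | ∃ φ ψ, φ ∈ fsq k ∧ φ.2 = (k : ℤ) ∧ ψ ∉ finn n ∧
    Conn ((Op (dualC ω) \ eS (↑(fsq k) : Set V)) ∩ eS (↑(freg n) : Set V)) φ ψ}

/-- Bottom dual arm. -/
def armB (k n : ℕ) : Set Cfg :=
  {ω | ∃ φ ψ, φ ∈ fsq k ∧ φ.2 = -(k : ℤ) - 1 ∧ ψ ∉ finn n ∧
    Conn ((Op (dualC ω) \ eS (↑(fsq k) : Set V)) ∩ eS (↑(freg n) : Set V)) φ ψ}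

lemma fd_armL (k n : ℕ) : FD (armL k n) := by
  refine ⟨eF (box 0 n), ?_⟩
  rw [coe_eF]
  have := dep_of_op (D := eS (↑(box 0 n) : Set V)) (fun O => ∃ x y : V, x.1 = -(k : ℤ) - 1 ∧
    |x.2| ≤ (k : ℤ) ∧ nrm y = n ∧ Conn (O \ Kset k) x y)
  intro ω ω' hω
  have h := this ω ω' hω
  have e1 : ∀ ω : Cfg, (Op ω \ Kset k) ∩ eS (↑(box 0 n) : Set V) =
      (Op ω ∩ eS (↑(box 0 n) : Set V)) \ Kset k := by
    intro ω; ext d; simp only [Set.mem_inter_iff, Set.mem_sdiff]; tauto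
  unfold armL
  simp only [Set.mem_ofPred_eq, e1]
  exact h

lemma fd_armR (k n : ℕ) : FD (armR k n) := by
  refine ⟨eF (box 0 n), ?_⟩
  rw [coe_eF]
  have := dep_of_op (D := eS (↑(box 0 n) : Set V)) (fun O => ∃ x y : V, x.1 = (k : ℤ) + 1 ∧
    |x.2| ≤ (k : ℤ) ∧ nrm y = n ∧ Conn (O \ Kset k) x y)
  intro ω ω' hω
  have h := this ω ω' hω
  have e1 : ∀ ω : Cfg, (Op ω \ Kset k) ∩ eS (↑(box 0 n) : Set V) =
      (Op ω ∩ eS (↑(box 0 n) : Set V)) \ Kset k := by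
    intro ω; ext d; simp only [Set.mem_inter_iff, Set.mem_sdiff]; tauto
  unfold armR
  simp only [Set.mem_ofPred_eq, e1]
  exact h

lemma op_dual_congr {n : ℕ} {ω ω' : Cfg}
    (h : ∀ e ∈ (eF (freg n)).image unstar, ω e = ω' e) :
    Op (dualC ω) ∩ eS (↑(freg n) : Set V) = Op (dualC ω') ∩ eS (↑(freg n) : Set V) := by
  ext d
  simp only [Op, dualC, Set.mem_inter_iff, Set.mem_ofPred_eq]
  constructor
  · rintro ⟨h1, h2⟩
    refine ⟨?_, h2⟩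
    rw [← h (unstar d) (Finset.mem_image_of_mem _ (by
      rw [mem_eF]; exact h2))]
    exact h1
  · rintro ⟨h1, h2⟩
    refine ⟨?_, h2⟩
    rw [h (unstar d) (Finset.mem_image_of_mem _ (by
      rw [mem_eF]; exact h2))]
    exact h1

lemma fd_armT (k n : ℕ) : FD (armT k n) := by
  refine ⟨(eF (freg n)).image unstar, ?_⟩
  intro ω ω' hω
  have e1 : ∀ ω : Cfg, (Op (dualC ω) \ eS (↑(fsq k) : Set V)) ∩ eS (↑(freg n) : Set V) =
      (Op (dualC ω) ∩ eS (↑(freg n) : Set V)) \ eS (↑(fsq k) : Set V) := by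
    intro ω; ext d; simp only [Set.mem_inter_iff, Set.mem_sdiff]; tauto
  unfold armT
  simp only [Set.mem_ofPred_eq, e1, op_dual_congr hω]

lemma fd_armB (k n : ℕ) : FD (armB k n) := by
  refine ⟨(eF (freg n)).image unstar, ?_⟩
  intro ω ω' hω
  have e1 : ∀ ω : Cfg, (Op (dualC ω) \ eS (↑(fsq k) : Set V)) ∩ eS (↑(freg n) : Set V) =
      (Op (dualC ω) ∩ eS (↑(freg n) : Set V)) \ eS (↑(fsq k) : Set V) := by
    intro ω; ext d; simp only [Set.mem_inter_iff, Set.mem_sdiff]; tauto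
  unfold armB
  simp only [Set.mem_ofPred_eq, e1, op_dual_congr hω]

end Pool.Agent.SAWP
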